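import Pool.Agent.Lib.SkM.Defs
import Pool.Agent.Lib.SkS.Basic

/-!
# Basic lemmas used by all modules (proved)
-/

set_option linter.unusedSectionVars false

namespace Pool.Agent.SkM

open Module MvPolynomial

open Pool.Agent.SkS (Rst Frz)

noncomputable section

variable {k L : Type} [Field k] [LieRing L] [LieAlgebra k L] {n : ℕ}

attribute [local instance 100] LieRing.ofAssociativeRing

lemma two_zero [CharP k 2] {A : Type} [AddCommGroup A] [Module k A] (a : A) : a + a = 0 := by
  have h : (2 : k) = 0 := CharP.cast_eq_zero k 2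
  have h2 : a + a = (2 : k) • a := by
    rw [two_smul]
  rw [h2, h, zero_smul]

lemma neg_eq [CharP k 2] {A : Type} [AddCommGroup A] [Module k A] (a : A) : -a = a :=
  neg_eq_of_add_eq_zero_left (two_zero (k := k) a)

lemma sub_eq_add' [CharP k 2] {A : Type} [AddCommGroup A] [Module k A] (a c : A) : a - c = a + c := by
  rw [sub_eq_add_neg, neg_eq (k := k)]

lemma io_apply (x : L) : (io x : UL k L) = UniversalEnvelopingAlgebra.ι k x := rfl

lemma io_lie (x y : L) : (io ⁅x, y⁆ : UL k L) = io x * io y - io y * io x := by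
  rw [io_apply, io_apply, io_apply, LieHom.map_lie, LieRing.of_associative_ring_bracket]

lemma io_lie2 [CharP k 2] (x y : L) : (io ⁅x, y⁆ : UL k L) = io x * io y + io y * io x := by
  rw [io_lie, sub_eq_add' (k := k)]

lemma io_inj : Function.Injective (io : L → UL k L) :=
  Pool.Agent.Lib.MP_fc2f40_al.PBW.ι_injective k L

lemma U_mul_ne {u v : UL k L} (hu : u ≠ 0) (hv : v ≠ 0) : u * v ≠ 0 :=
  Pool.Agent.Lib.MP_fc2f40_al.PBW.mul_ne_zero_U k L u v hu hv

lemma U_zero_or {u v : UL k L} (h : u * v = 0) : u = 0 ∨ v = 0 := by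
  by_contra hc
  push Not at hc
  exact U_mul_ne hc.1 hc.2 h

lemma U_cancel {u v w : UL k L} (hu : u ≠ 0) (h : u * v = u * w) : v = w := by
  have h1 : u * (v - w) = 0 := by rw [mul_sub, h, sub_self]
  rcases U_zero_or h1 with h2 | h2
  · exact absurd h2 hu
  · exact sub_eq_zero.1 h2

lemma U_one_ne : (1 : UL k L) ≠ 0 := by
  have := Pool.Agent.Lib.MP_fc2f40_al.PBW.nontrivial_U k L
  exact one_ne_zero

/-- an element commuting with `L` is central -/
lemma cen_of_io {z : UL k L} (h : ∀ x : L, z * io x = io x * z) : Cen z := by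
  intro w
  induction w using Pool.Agent.Lib.MP_fc2f40_al.PBW.U_induction with
  | algebraMap r => exact (Algebra.commutes r _).symm
  | ι y => exact h y
  | mul a b ha hb => rw [← mul_assoc, ha, mul_assoc, hb, mul_assoc]
  | add a b ha hb => rw [mul_add, add_mul, ha, hb]

lemma Cen.mul {z w : UL k L} (hz : Cen z) (hw : Cen w) : Cen (z * w) := by
  intro u
  rw [mul_assoc, hw u, ← mul_assoc, hz u, mul_assoc]

lemma Cen.add {z w : UL k L} (hz : Cen z) (hw : Cen w) : Cen (z + w) := by
  intro u
  rw [add_mul, mul_add, hz u, hw u]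

lemma Cen.pow {z : UL k L} (hz : Cen z) (m : ℕ) : Cen (z ^ m) := by
  induction m with
  | zero => intro u; rw [pow_zero, one_mul, mul_one]
  | succ m ih => rw [pow_succ]; exact ih.mul hz

lemma cen_one : Cen (1 : UL k L) := fun u => by rw [one_mul, mul_one]

lemma cen_iff_mem_center (z : UL k L) : Cen z ↔ z ∈ Subalgebra.center k (UL k L) := by
  rw [Subalgebra.mem_center_iff]
  exact ⟨fun h w => (h w).symm, fun h w => (h w).symm⟩

/-- `X(y)` is central -/
lemma Xc_cen {f : L → L} (h : Frz k f) (y : L) : Cen (Xc f y : UL k L) := by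
  apply cen_of_io
  intro x
  have h1 := h.comm y x
  unfold Xc
  rw [← sq]
  exact h1

lemma Xc_add {f : L → L} (h : Frz k f) (x y : L) : (Xc f (x + y) : UL k L) = Xc f x + Xc f y := by
  have h1 := h.add x y
  unfold Xc
  rw [← sq, ← sq, ← sq]
  exact h1

lemma Xc_smul {f : L → L} (h : Frz k f) (a : k) (x : L) : (Xc f (a • x) : UL k L) = a ^ 2 • Xc f x := by
  have h1 := h.smul a x
  unfold Xc
  rw [← sq, ← sq]
  exact h1

lemma sum_repr (b : Basis (Fin n) k L) (x : L) : ∑ i, (b.repr x i) • b i = x := b.sum_repr x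

/-- `∑_i co_i(x) e_i = x` in `U` -/
lemma sum_repr_io (b : Basis (Fin n) k L) (x : L) :
    ∑ i, (b.repr x i) • (io (b i) : UL k L) = io x := by
  conv_rhs => rw [← b.sum_repr x]
  rw [map_sum]
  exact Finset.sum_congr rfl (fun i _ => (map_smul io _ _).symm)

/-- linear extension of `∑_j w_j [e_j, y]` in `y` -/
lemma rel_ext (b : Basis (Fin n) k L) (w : Fin n → UL k L) (d : UL k L)
    (h : ∀ l, ∑ j, w j * io ⁅b j, b l⁆ = d * io (b l)) (y : L) :
    ∑ j, w j * io ⁅b j, y⁆ = d * io y := by
  have h1 : ∑ j, w j * (io ⁅b j, y⁆ : UL k L) = ∑ l, (b.repr y l) • ∑ j, w j * io ⁅b j, b l⁆ := by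
    conv_lhs => rw [← b.sum_repr y]
    simp only [lie_sum, lie_smul, map_sum, map_smul, Finset.mul_sum, Finset.smul_sum, mul_smul_comm]
    rw [Finset.sum_comm]
  rw [h1]
  simp only [h]
  conv_rhs => rw [← sum_repr_io b y]
  simp only [Finset.mul_sum, mul_smul_comm]

/-- the double sum over all pairs in characteristic two -/
lemma sum_pairs {A : Type} [AddCommMonoid A] (F : Fin n → Fin n → A) :
    ∑ j, ∑ l, F j l = ∑ j, F j j + ∑ j, ∑ l ∈ Finset.Ioi j, (F j l + F l j) := by
  classical
  have h1 : ∀ j : Fin n, ∑ l, F j l = F j j + (∑ l ∈ Finset.Ioi j, F j l + ∑ l ∈ Finset.Iio j, F j l) := by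
    intro j
    have e : (Finset.univ : Finset (Fin n)) = insert j (Finset.Ioi j ∪ Finset.Iio j) := by
      ext l
      simp only [Finset.mem_univ, Finset.mem_insert, Finset.mem_union, Finset.mem_Ioi,
        Finset.mem_Iio, true_iff]
      rcases lt_trichotomy l j with h | h | h
      · exact Or.inr (Or.inr h)
      · exact Or.inl h
      · exact Or.inr (Or.inl h)
    rw [e, Finset.sum_insert, Finset.sum_union]
    · rw [Finset.disjoint_left]
      intro l hl hl'
      rw [Finset.mem_Ioi] at hl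
      rw [Finset.mem_Iio] at hl'
      exact absurd hl (not_lt_of_gt hl')
    · simp
  have h2 : ∑ j : Fin n, ∑ l ∈ Finset.Iio j, F j l = ∑ j, ∑ l ∈ Finset.Ioi j, F l j := by
    rw [Finset.sum_comm']
    intro x y
    simp only [Finset.mem_univ, Finset.mem_Iio, Finset.mem_Ioi, true_and, and_true]
  simp only [h1, Finset.sum_add_distrib]
  rw [h2]

end

end Pool.Agent.SkM
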