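import Mathlib

/-!
# Module CH: Cayley-Hamilton

`LinearMap.exists_monic_and_aeval_eq_zero Z φ : ∃ P : Polynomial Z, P.Monic ∧ aeval φ P = 0` for a finite module over a commutative
ring.  `P ≠ 0` (monic, `Z` nontrivial), so `P = X^t * Q` with `Q.coeff 0 ≠ 0`: take `t = P.natTrailingDegree`,
`Q = P.divX^[t]`, or prove by induction on `t`: for every polynomial `P ≠ 0` with `aeval φ P = 0` there is `Q` with
`aeval φ Q = 0`, `Q.coeff 0 ≠ 0` (strong induction on the degree: if `P.coeff 0 = 0` then `P = X * P.divX`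
(`Polynomial.divX_mul_X_add`), `φ ∘ aeval φ P.divX = 0` so `aeval φ P.divX = 0` by injectivity of `φ`).
Then `Q = Q.divX * X + C (Q.coeff 0)`, so `φ (aeval φ Q.divX m) + (Q.coeff 0) • m = 0` (`aeval φ` of a polynomial commutes with
`φ`).  Take `d = Q.coeff 0`, `w = - aeval φ Q.divX m`.
-/

namespace Pool.Agent.SkM

open Polynomial in
private theorem CH_aux {Z M : Type} [CommRing Z] [AddCommGroup M] [Module Z M]
    (φ : M →ₗ[Z] M) (hφ : Function.Injective φ) (n : ℕ) :
    ∀ P : Z[X], P ≠ 0 → P.natDegree ≤ n → aeval φ P = 0 →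
      ∃ Q : Z[X], Q.coeff 0 ≠ 0 ∧ aeval φ Q = 0 := by
  induction n with
  | zero =>
    intro P hP hd h0
    refine ⟨P, fun h => hP ?_, h0⟩
    rw [Polynomial.eq_C_of_natDegree_le_zero hd, h, map_zero]
  | succ n ih =>
    intro P hP hd h0
    by_cases hc : P.coeff 0 = 0
    · have h1 : X * P.divX = P := by
        have h2 := Polynomial.X_mul_divX_add P
        rwa [hc, map_zero, add_zero] at h2
      have h3 : P.divX ≠ 0 := by
        intro h
        rw [h, mul_zero] at h1
        exact hP h1.symm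
      refine ih P.divX h3 ?_ ?_
      · rw [Polynomial.natDegree_divX_eq_natDegree_tsub_one]; omega
      · rw [← h1, map_mul, aeval_X] at h0
        refine LinearMap.ext fun m => hφ ?_
        rw [LinearMap.zero_apply, map_zero]
        exact congrArg (fun f => f m) h0
    · exact ⟨P, hc, h0⟩

theorem exists_smul_mem_range {Z M : Type} [CommRing Z] [Nontrivial Z] [AddCommGroup M] [Module Z M]
    [Module.Finite Z M] (φ : M →ₗ[Z] M) (hφ : Function.Injective φ) (m : M) :
    ∃ d : Z, d ≠ 0 ∧ ∃ w, φ w = d • m := by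
  obtain ⟨P, hP, h0⟩ := LinearMap.exists_monic_and_aeval_eq_zero Z φ
  obtain ⟨Q, hQ, hQ0⟩ := CH_aux φ hφ P.natDegree P hP.ne_zero le_rfl h0
  refine ⟨Q.coeff 0, hQ, -(Polynomial.aeval φ Q.divX m), ?_⟩
  have h1 := Polynomial.X_mul_divX_add Q
  rw [← h1, map_add, map_mul, Polynomial.aeval_X, Polynomial.aeval_C] at hQ0
  have h2 := congrArg (fun f : M →ₗ[Z] M => f m) hQ0
  have h3 : φ (Polynomial.aeval φ Q.divX m) + Q.coeff 0 • m = 0 := h2
  rw [map_neg]
  exact neg_eq_of_add_eq_zero_right h3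

end Pool.Agent.SkM
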