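import Pool.Agent.Lib.SkM.Ker

/-!
# Module CM1: the commutators `[x, u_j]`

`com_u`: `[x, u_j] = ∑_l c^j(x, e_l) u_l`, where `c^j(x, y) = b.repr [x,y] j` (characteristic two, so signs do not matter).
Proof.  Fix `x`.  For every `y` take the commutator of `∑_j u_j [e_j,y] = d y` with `x` (`d` central):
`∑_j [x,u_j] [e_j,y] + ∑_j u_j [x,[e_j,y]] = d [x,y] = ∑_j u_j [e_j,[x,y]]`.  Jacobi:
`[x,[e_j,y]] = [[x,e_j],y] + [e_j,[x,y]]`, so `∑_j [x,u_j] [e_j,y] + ∑_j u_j [[x,e_j],y] = 0`; and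
`[x,e_j] = ∑_l c^l(x,e_j) e_l`, so `∑_j u_j [[x,e_j],y] = ∑_l (∑_j c^l(x,e_j) u_j) [e_l,y]`.  By `inj` (for `y = b l`)
`[x,u_l] + ∑_j c^l(x,e_j) u_j = 0`.

`theta_cen`: `θ = ∑_j u_j e_j` is central: `[x,θ] = ∑_j [x,u_j] e_j + ∑_j u_j [x,e_j]` and both sums are
`∑_j ∑_l c^j(x,e_l) u_l e_j` (`cen_of_io`).

`e1`: `u_i θ = θ u_i` and `e_j u_i = u_i e_j + ∑_l c^i(e_j,e_l) u_l`, so
`∑_j (u_i u_j + u_j u_i) e_j = ∑_{j,l} c^i(e_j,e_l) u_j u_l = ∑_{j<l} c^i(e_j,e_l) (u_j u_l + u_l u_j)` (`sum_pairs`;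
`[e_j,e_j] = 0`, `[e_l,e_j] = [e_j,e_l]` in characteristic two).
-/

set_option linter.unusedSectionVars false

namespace Pool.Agent.SkM

open Module MvPolynomial

open Pool.Agent.SkS (Nondeg)

noncomputable section

variable {k L : Type} [Field k] [CharP k 2] [LieRing L] [LieAlgebra k L] {n : ℕ}

private lemma cm1_exp (b : Basis (Fin n) k L) (z y : L) :
    (io ⁅z, y⁆ : UL k L) = ∑ l, (b.repr z l) • io ⁅b l, y⁆ := by
  conv_lhs => rw [← b.sum_repr z]
  simp only [sum_lie, smul_lie, map_sum, map_smul]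

/-- `x z = [x,z] + z x` -/
private lemma cm1_comm (x z : L) : (io x * io z : UL k L) = io ⁅x, z⁆ + io z * io x := by
  rw [io_lie2, add_assoc, two_zero (k := k), add_zero]

private lemma cm1_eq {A : Type} [AddCommGroup A] [Module k A] {a c : A} (h : a + c = 0) :
    a = c := by
  rw [add_eq_zero_iff_eq_neg, neg_eq (k := k)] at h
  exact h

theorem uc_of_ud (b : Basis (Fin n) k L) (χ : Dual k L) (hχ : Nondeg χ) {u : Fin n → UL k L}
    {d : UL k L} (h : UD b u d) : UC b u d := by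
  refine { toUD := h, com := fun x j => ?_ }
  set w : Fin n → UL k L := fun l => io x * u l + u l * io x + ∑ j, (b.repr ⁅x, b j⁆ l) • u j
    with hw
  have key : ∀ y : L, ∑ l, w l * io ⁅b l, y⁆ = 0 := by
    intro y
    have a1 : ∑ l, w l * io ⁅b l, y⁆ = ∑ l, (io x * u l) * io ⁅b l, y⁆ +
        ∑ l, (u l * io x) * io ⁅b l, y⁆ +
        ∑ l, (∑ j, (b.repr ⁅x, b j⁆ l) • u j) * io ⁅b l, y⁆ := by
      rw [← Finset.sum_add_distrib, ← Finset.sum_add_distrib]
      refine Finset.sum_congr rfl (fun l _ => ?_)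
      rw [hw]
      simp only
      rw [add_mul, add_mul]
    have a2 : ∑ l, (io x * u l) * io ⁅b l, y⁆ = d * (io x * io y) := by
      rw [← mul_assoc d, h.cen (io x), mul_assoc, ← h.rel y, Finset.mul_sum]
      exact Finset.sum_congr rfl (fun l _ => mul_assoc _ _ _)
    have a3 : ∑ l, (u l * io x) * io ⁅b l, y⁆ = ∑ l, u l * io ⁅⁅x, b l⁆, y⁆ + d * io ⁅x, y⁆ +
        d * (io y * io x) := by
      rw [← mul_assoc d, ← h.rel y, ← h.rel ⁅x, y⁆, Finset.sum_mul, ← Finset.sum_add_distrib,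
        ← Finset.sum_add_distrib]
      refine Finset.sum_congr rfl (fun l _ => ?_)
      rw [mul_assoc, cm1_comm x ⁅b l, y⁆, leibniz_lie x (b l) y, map_add, mul_add, mul_add,
        mul_assoc]
    have a4 : ∑ l, (∑ j, (b.repr ⁅x, b j⁆ l) • u j) * io ⁅b l, y⁆ =
        ∑ j, u j * io ⁅⁅x, b j⁆, y⁆ := by
      simp only [Finset.sum_mul]
      rw [Finset.sum_comm]
      refine Finset.sum_congr rfl (fun j _ => ?_)
      rw [cm1_exp b ⁅x, b j⁆ y, Finset.mul_sum]
      refine Finset.sum_congr rfl (fun l _ => ?_)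
      rw [smul_mul_assoc, mul_smul_comm]
    rw [a1, a2, a3, a4]
    have a5 : d * (io x * io y) = d * io ⁅x, y⁆ + d * (io y * io x) := by
      rw [cm1_comm x y, mul_add]
    rw [a5]
    have e : d * io ⁅x, y⁆ + d * (io y * io x) + (∑ l, u l * io ⁅⁅x, b l⁆, y⁆ + d * io ⁅x, y⁆ +
        d * (io y * io x)) + ∑ j, u j * io ⁅⁅x, b j⁆, y⁆ =
        (d * io ⁅x, y⁆ + d * io ⁅x, y⁆) + (d * (io y * io x) + d * (io y * io x)) +
        (∑ l, u l * io ⁅⁅x, b l⁆, y⁆ + ∑ j, u j * io ⁅⁅x, b j⁆, y⁆) := by abel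
    rw [e, two_zero (k := k) (d * io ⁅x, y⁆), two_zero (k := k) (d * (io y * io x)), add_zero,
      zero_add]
    exact two_zero (k := k) _
  have h0 := inj b χ hχ w (fun l => key (b l)) j
  rw [hw] at h0
  exact cm1_eq (k := k) h0

theorem theta_cen (b : Basis (Fin n) k L) {u : Fin n → UL k L} {d : UL k L} (h : UC b u d) :
    Cen (∑ j, u j * io (b j)) := by
  apply cen_of_io
  intro x
  have a1 : (∑ j, u j * io (b j)) * io x = ∑ j, (io x * u j) * io (b j) +
      ∑ j, (∑ l, (b.repr ⁅x, b l⁆ j) • u l) * io (b j) + ∑ j, u j * io ⁅x, b j⁆ := by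
    rw [Finset.sum_mul, ← Finset.sum_add_distrib, ← Finset.sum_add_distrib]
    refine Finset.sum_congr rfl (fun j _ => ?_)
    have e1 : (io (b j) * io x : UL k L) = io ⁅x, b j⁆ + io x * io (b j) := by
      rw [cm1_comm x (b j), ← add_assoc, two_zero (k := k), zero_add]
    have e2 : u j * io x = io x * u j + ∑ l, (b.repr ⁅x, b l⁆ j) • u l := by
      rw [← h.com x j, ← add_assoc, two_zero (k := k), zero_add]
    rw [mul_assoc, e1, mul_add, ← mul_assoc (u j) (io x), e2, add_mul]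
    abel
  have a2 : ∑ j, (∑ l, (b.repr ⁅x, b l⁆ j) • u l) * io (b j) = ∑ j, u j * io ⁅x, b j⁆ := by
    simp only [Finset.sum_mul]
    rw [Finset.sum_comm]
    refine Finset.sum_congr rfl (fun l _ => ?_)
    rw [← sum_repr_io b ⁅x, b l⁆, Finset.mul_sum]
    refine Finset.sum_congr rfl (fun j _ => ?_)
    rw [smul_mul_assoc, mul_smul_comm]
  rw [a1, a2, add_assoc, two_zero (k := k), add_zero, Finset.mul_sum]
  exact Finset.sum_congr rfl (fun j _ => mul_assoc _ _ _)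

theorem e1 (b : Basis (Fin n) k L) {u : Fin n → UL k L} {d : UL k L} (h : UC b u d) (i : Fin n) :
    ∑ j, Av u i j * io (b j) =
      ∑ j, ∑ l ∈ Finset.Ioi j, (b.repr ⁅b j, b l⁆ i) • Av u j l := by
  have hθ := theta_cen b h (u i)
  have a1 : ∑ j, Av u i j * io (b j) = u i * (∑ j, u j * io (b j)) +
      ((∑ j, u j * io (b j)) * u i + ∑ j, ∑ l, (b.repr ⁅b j, b l⁆ i) • (u j * u l)) := by
    rw [Finset.mul_sum, Finset.sum_mul, ← Finset.sum_add_distrib, ← Finset.sum_add_distrib]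
    refine Finset.sum_congr rfl (fun j _ => ?_)
    have e2 : u i * io (b j) = io (b j) * u i + ∑ l, (b.repr ⁅b j, b l⁆ i) • u l := by
      rw [← h.com (b j) i, ← add_assoc, two_zero (k := k), zero_add]
    unfold Av
    rw [add_mul, mul_assoc (u j) (u i), e2, mul_add, Finset.mul_sum, mul_assoc, ← mul_assoc (u j)]
    congr 2
    refine Finset.sum_congr rfl (fun l _ => ?_)
    rw [mul_smul_comm]
  rw [a1, ← hθ, ← add_assoc, two_zero (k := k), zero_add, sum_pairs]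
  have a2 : ∑ j, (b.repr ⁅b j, b j⁆ i) • (u j * u j) = 0 := by
    refine Finset.sum_eq_zero (fun j _ => ?_)
    rw [lie_self, map_zero, Finsupp.zero_apply, zero_smul]
  rw [a2, zero_add]
  refine Finset.sum_congr rfl (fun j _ => Finset.sum_congr rfl (fun l _ => ?_))
  have e3 : b.repr ⁅b l, b j⁆ i = b.repr ⁅b j, b l⁆ i := by
    rw [← lie_skew (b j) (b l), map_neg, Finsupp.neg_apply, neg_eq (k := k)]
  unfold Av
  rw [e3, smul_add]

end

end Pool.Agent.SkM
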