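import Pool.Agent.Lib.SkM.Basic

/-!
# Module CM2: the relations (E2), (E6) between `A^{ij} = u_i u_j + u_j u_i` and `h^m = hv b f u d m`

`co_i(x) = b.repr x i`.  By `h.com`: `[x, u_i] = ∑_l co_i([x,e_l]) u_l` for all `x ∈ L` (characteristic two, signs do not matter).

`e2`: take the commutator of `∑_j u_j [e_j,y] = d y` with `u_i` (`d` central):
`∑_j A^{ij} [e_j,y] + ∑_j u_j [u_i, [e_j,y]] = d [u_i, y]`, i.e.
`∑_j A^{ij} [e_j,y] = ∑_{j,l} co_i([[e_j,y],e_l]) u_j u_l + ∑_l co_i([y,e_l]) d u_l`.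
By `sum_pairs` the double sum is `∑_j co_i([[e_j,y],e_j]) u_j^2 + ∑_{j<l} (co_i([[e_j,y],e_l]) u_j u_l + co_i([[e_l,y],e_j]) u_l u_j)`
and `u_l u_j = u_j u_l + A^{jl}`.  Now `[[e_j,y],e_j] = [e_j,[e_j,y]] = [f e_j, y]` (`hf.lie`) and
`[[e_j,y],e_l] + [[e_l,y],e_j] = [[e_l,e_j],y]` (Jacobi, characteristic two).  So the double sum is
`∑_m h'^m co_i([e_m,y]) + ∑_{j<l} co_i([[e_l,y],e_j]) A^{jl}` where `h'^m = ∑_j co_m(f e_j) u_j^2 + ∑_{j<l} co_m([e_l,e_j]) u_j u_l`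
(expand `[f e_j, y] = ∑_m co_m(f e_j) [e_m,y]`, same for `[[e_l,e_j],y]`), and `[y,e_l] = [e_l,y]`.

`e6`: multiply `e2` (for each `i`) by `io (b i)` on the right and sum over `i`: `∑_i co_i(x) e_i = x` (`sum_repr_io`); move the
terms `∑ A^{jl} [[e_l,y],e_j]` to the other side (characteristic two).
-/

set_option linter.unusedSectionVars false

namespace Pool.Agent.SkM

open Module MvPolynomial

open Pool.Agent.SkS (Rst)

noncomputable section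

variable {k L : Type} [Field k] [CharP k 2] [LieRing L] [LieAlgebra k L] {n : ℕ}

private lemma cm2_exp (b : Basis (Fin n) k L) (z y : L) (i : Fin n) :
    b.repr ⁅z, y⁆ i = ∑ m, b.repr z m * b.repr ⁅b m, y⁆ i := by
  conv_lhs => rw [← b.sum_repr z]
  rw [sum_lie, map_sum, Finsupp.finsetSum_apply]
  refine Finset.sum_congr rfl (fun m _ => ?_)
  rw [smul_lie, map_smul, Finsupp.smul_apply, smul_eq_mul]

private lemma cm2_eq {A : Type} [AddCommGroup A] [Module k A] {a c e : A} (h : a + c = e) :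
    a = c + e := by
  rw [← h, add_comm a c, ← add_assoc, two_zero (k := k), zero_add]

theorem e2 (b : Basis (Fin n) k L) {f : L → L} (hf : Rst k f) {u : Fin n → UL k L} {d : UL k L}
    (h : UC b u d) (i : Fin n) (y : L) :
    ∑ j, Av u i j * io ⁅b j, y⁆ = ∑ m, (b.repr ⁅b m, y⁆ i) • hv b f u d m +
      ∑ j, ∑ l ∈ Finset.Ioi j, (b.repr ⁅⁅b l, y⁆, b j⁆ i) • Av u j l := by
  -- the commutator of the relation with `u i`
  have hz : ∀ (z : L), io z * u i = u i * io z + ∑ l, (b.repr ⁅z, b l⁆ i) • u l := by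
    intro z
    rw [← h.com z i, ← add_assoc, add_comm (u i * io z) (io z * u i), add_assoc,
      two_zero (k := k), add_zero]
  have a1 : (∑ j, u j * io ⁅b j, y⁆) * u i + u i * (∑ j, u j * io ⁅b j, y⁆) =
      ∑ j, Av u i j * io ⁅b j, y⁆ +
        ∑ j, ∑ l, (b.repr ⁅⁅b j, y⁆, b l⁆ i) • (u j * u l) := by
    rw [Finset.sum_mul, Finset.mul_sum, ← Finset.sum_add_distrib, ← Finset.sum_add_distrib]
    refine Finset.sum_congr rfl (fun j _ => ?_)
    unfold Av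
    rw [mul_assoc, hz ⁅b j, y⁆, mul_add, Finset.mul_sum, add_mul]
    have e1 : ∑ l, u j * ((b.repr ⁅⁅b j, y⁆, b l⁆ i) • u l) =
        ∑ l, (b.repr ⁅⁅b j, y⁆, b l⁆ i) • (u j * u l) :=
      Finset.sum_congr rfl (fun l _ => mul_smul_comm _ _ _)
    rw [e1, ← mul_assoc, ← mul_assoc]
    abel
  have a2 : (∑ j, u j * io ⁅b j, y⁆) * u i + u i * (∑ j, u j * io ⁅b j, y⁆) =
      ∑ l, (b.repr ⁅y, b l⁆ i) • (d * u l) := by
    rw [h.rel y]
    have e1 : u i * (d * io y) = d * (u i * io y) := by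
      rw [← mul_assoc, ← h.cen (u i), mul_assoc]
    rw [e1, mul_assoc, ← mul_add, h.com y i, Finset.mul_sum]
    exact Finset.sum_congr rfl (fun l _ => mul_smul_comm _ _ _)
  have a3 : ∑ j, Av u i j * io ⁅b j, y⁆ =
      ∑ j, ∑ l, (b.repr ⁅⁅b j, y⁆, b l⁆ i) • (u j * u l) +
        ∑ l, (b.repr ⁅y, b l⁆ i) • (d * u l) := by
    rw [← a2, a1]
    exact cm2_eq (k := k) rfl
  rw [a3, sum_pairs]
  -- the right hand side
  have r1 : ∀ m, hv b f u d m = ∑ j, (b.repr (f (b j)) m) • (u j * u j) +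
    ∑ j, ∑ l ∈ Finset.Ioi j, (b.repr ⁅b l, b j⁆ m) • (u j * u l) + d * u m := fun m => rfl
  have r2 : ∑ m, (b.repr ⁅b m, y⁆ i) • hv b f u d m =
      ∑ j, (b.repr ⁅f (b j), y⁆ i) • (u j * u j) +
      ∑ j, ∑ l ∈ Finset.Ioi j, (b.repr ⁅⁅b l, b j⁆, y⁆ i) • (u j * u l) +
      ∑ m, (b.repr ⁅b m, y⁆ i) • (d * u m) := by
    have e0 : ∑ m, (b.repr ⁅b m, y⁆ i) • hv b f u d m =
        ∑ m, (b.repr ⁅b m, y⁆ i) • (∑ j, (b.repr (f (b j)) m) • (u j * u j)) +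
        ∑ m, (b.repr ⁅b m, y⁆ i) •
          (∑ j, ∑ l ∈ Finset.Ioi j, (b.repr ⁅b l, b j⁆ m) • (u j * u l)) +
        ∑ m, (b.repr ⁅b m, y⁆ i) • (d * u m) := by
      rw [← Finset.sum_add_distrib, ← Finset.sum_add_distrib]
      refine Finset.sum_congr rfl (fun m _ => ?_)
      rw [r1 m, smul_add, smul_add]
    rw [e0]
    congr 2
    · simp only [Finset.smul_sum]
      rw [Finset.sum_comm]
      refine Finset.sum_congr rfl (fun j _ => ?_)
      rw [cm2_exp b (f (b j)) y i, Finset.sum_smul]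
      refine Finset.sum_congr rfl (fun m _ => ?_)
      rw [smul_smul, mul_comm]
    · simp only [Finset.smul_sum]
      rw [Finset.sum_comm]
      refine Finset.sum_congr rfl (fun j _ => ?_)
      rw [Finset.sum_comm]
      refine Finset.sum_congr rfl (fun l _ => ?_)
      rw [cm2_exp b ⁅b l, b j⁆ y i, Finset.sum_smul]
      refine Finset.sum_congr rfl (fun m _ => ?_)
      rw [smul_smul, mul_comm]
  rw [r2]
  have s1 : ∀ j, b.repr ⁅⁅b j, y⁆, b j⁆ i = b.repr ⁅f (b j), y⁆ i := by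
    intro j
    rw [hf.lie, ← lie_skew (b j) ⁅b j, y⁆, map_neg, Finsupp.neg_apply, neg_eq (k := k)]
  have s2 : ∀ l, b.repr ⁅y, b l⁆ i = b.repr ⁅b l, y⁆ i := by
    intro l
    rw [← lie_skew (b l) y, map_neg, Finsupp.neg_apply, neg_eq (k := k)]
  have s3 : ∀ j l, b.repr ⁅⁅b j, y⁆, b l⁆ i =
      b.repr ⁅⁅b l, b j⁆, y⁆ i + b.repr ⁅⁅b l, y⁆, b j⁆ i := by
    intro j l
    have e1 : ⁅b l, ⁅b j, y⁆⁆ = ⁅⁅b l, b j⁆, y⁆ + ⁅b j, ⁅b l, y⁆⁆ := leibniz_lie _ _ _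
    have e2 : b.repr ⁅⁅b j, y⁆, b l⁆ i = b.repr ⁅b l, ⁅b j, y⁆⁆ i := by
      rw [← lie_skew (b l) ⁅b j, y⁆, map_neg, Finsupp.neg_apply, neg_eq (k := k)]
    have e3 : b.repr ⁅⁅b l, y⁆, b j⁆ i = b.repr ⁅b j, ⁅b l, y⁆⁆ i := by
      rw [← lie_skew (b j) ⁅b l, y⁆, map_neg, Finsupp.neg_apply, neg_eq (k := k)]
    rw [e2, e3, e1, map_add, Finsupp.add_apply]
  have t1 : ∑ j, (b.repr ⁅⁅b j, y⁆, b j⁆ i) • (u j * u j) =
      ∑ j, (b.repr ⁅f (b j), y⁆ i) • (u j * u j) :=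
    Finset.sum_congr rfl (fun j _ => by rw [s1])
  have t2 : ∑ l, (b.repr ⁅y, b l⁆ i) • (d * u l) = ∑ l, (b.repr ⁅b l, y⁆ i) • (d * u l) :=
    Finset.sum_congr rfl (fun l _ => by rw [s2])
  have t3 : ∑ j, ∑ l ∈ Finset.Ioi j, ((b.repr ⁅⁅b j, y⁆, b l⁆ i) • (u j * u l) +
      (b.repr ⁅⁅b l, y⁆, b j⁆ i) • (u l * u j)) =
      ∑ j, ∑ l ∈ Finset.Ioi j, (b.repr ⁅⁅b l, b j⁆, y⁆ i) • (u j * u l) +
      ∑ j, ∑ l ∈ Finset.Ioi j, (b.repr ⁅⁅b l, y⁆, b j⁆ i) • Av u j l := by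
    rw [← Finset.sum_add_distrib]
    refine Finset.sum_congr rfl (fun j _ => ?_)
    rw [← Finset.sum_add_distrib]
    refine Finset.sum_congr rfl (fun l _ => ?_)
    unfold Av
    rw [s3 j l, add_smul, smul_add]
    abel
  rw [t1, t2, t3]
  abel

theorem e6 (b : Basis (Fin n) k L) {f : L → L} (hf : Rst k f) {u : Fin n → UL k L} {d : UL k L}
    (h : UC b u d) (y : L) :
    ∑ m, hv b f u d m * io ⁅b m, y⁆ = ∑ i, (∑ j, Av u i j * io ⁅b j, y⁆) * io (b i) +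
      ∑ j, ∑ l ∈ Finset.Ioi j, Av u j l * io ⁅⁅b l, y⁆, b j⁆ := by
  have h1 : ∑ i, (∑ j, Av u i j * io ⁅b j, y⁆) * io (b i) =
      ∑ m, hv b f u d m * io ⁅b m, y⁆ +
      ∑ j, ∑ l ∈ Finset.Ioi j, Av u j l * io ⁅⁅b l, y⁆, b j⁆ := by
    have e0 : ∀ i, (∑ j, Av u i j * io ⁅b j, y⁆) * io (b i) =
        ∑ m, hv b f u d m * ((b.repr ⁅b m, y⁆ i) • io (b i)) +
        ∑ j, ∑ l ∈ Finset.Ioi j, Av u j l * ((b.repr ⁅⁅b l, y⁆, b j⁆ i) • io (b i)) := by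
      intro i
      rw [e2 b hf h i y, add_mul, Finset.sum_mul, Finset.sum_mul]
      congr 1
      · refine Finset.sum_congr rfl (fun m _ => ?_)
        rw [smul_mul_assoc, mul_smul_comm]
      · refine Finset.sum_congr rfl (fun j _ => ?_)
        rw [Finset.sum_mul]
        refine Finset.sum_congr rfl (fun l _ => ?_)
        rw [smul_mul_assoc, mul_smul_comm]
    rw [Finset.sum_congr rfl (fun i _ => e0 i), Finset.sum_add_distrib]
    congr 1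
    · rw [Finset.sum_comm]
      refine Finset.sum_congr rfl (fun m _ => ?_)
      rw [← Finset.mul_sum, sum_repr_io]
    · rw [Finset.sum_comm]
      refine Finset.sum_congr rfl (fun j _ => ?_)
      rw [Finset.sum_comm]
      refine Finset.sum_congr rfl (fun l _ => ?_)
      rw [← Finset.mul_sum, sum_repr_io]
  rw [h1, add_assoc, two_zero (k := k), add_zero]

end

end Pool.Agent.SkM
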