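import Pool.Agent.Lib.SkM.Basic

/-!
# Module Cr: Cramer's rule in the center

`XZ hf y` is `X(y)` as an element of the commutative ring `Z = Subalgebra.center k U`; `PiZ hf b = det (X([e_j, e_l]))_{j,l} ∈ Z`.
`cramer`: if `s_j` (central) satisfy `∑_j s_j X([e_j,y]) = c X(y)` for all `y` (`c` central) then `Π s_j = c ρ_j` with `ρ_j` central:
in `Z`, with `M j l = X([e_j,e_l])`: `vecMul s M = (c X(e_l))_l`, multiply by the adjugate: `s * (M * adjugate M) = det M • s`
(`Matrix.mul_adjugate`), so `det M * s_j = ∑_l c X(e_l) adj_{lj}`, `ρ_j = ∑_l X(e_l) adj_{lj}`.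
-/

set_option linter.unusedSectionVars false

namespace Pool.Agent.SkM

open Module MvPolynomial

open Pool.Agent.SkS (Frz)

noncomputable section

variable {k L : Type} [Field k] [LieRing L] [LieAlgebra k L] {n : ℕ}

/-- `X(y)` in the center -/
def XZ {f : L → L} (hf : Frz k f) (y : L) : Subalgebra.center k (UL k L) :=
  ⟨Xc f y, (cen_iff_mem_center _).1 (Xc_cen hf y)⟩

/-- the determinant of the matrix `X([e_j, e_l])` -/
def PiZ {f : L → L} (hf : Frz k f) (b : Basis (Fin n) k L) : Subalgebra.center k (UL k L) :=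
  (Matrix.of (fun j l : Fin n => XZ hf ⁅b j, b l⁆)).det

/-- the determinant in `U` -/
def Pi {f : L → L} (hf : Frz k f) (b : Basis (Fin n) k L) : UL k L := (PiZ hf b : UL k L)

theorem cramer {f : L → L} (hf : Frz k f) (b : Basis (Fin n) k L) (s : Fin n → UL k L) (c : UL k L)
    (hs : ∀ j, Cen (s j)) (hc : Cen c) (h : ∀ y : L, c * Xc f y = ∑ j, s j * Xc f ⁅b j, y⁆) :
    ∃ ρ : Fin n → UL k L, (∀ j, Cen (ρ j)) ∧ ∀ j, Pi hf b * s j = c * ρ j := by
  classical
  let s' : Fin n → Subalgebra.center k (UL k L) := fun j =>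
    ⟨s j, (cen_iff_mem_center _).1 (hs j)⟩
  let c' : Subalgebra.center k (UL k L) := ⟨c, (cen_iff_mem_center _).1 hc⟩
  set M : Matrix (Fin n) (Fin n) (Subalgebra.center k (UL k L)) :=
    Matrix.of (fun j l : Fin n => XZ hf ⁅b j, b l⁆) with hM
  let ρ' : Fin n → Subalgebra.center k (UL k L) := fun j =>
    ∑ l, XZ hf (b l) * M.adjugate l j
  have hv : Matrix.vecMul s' M = fun l => c' * XZ hf (b l) := by
    funext l
    apply Subtype.ext
    have h1 := h (b l)
    have h2 : ((Matrix.vecMul s' M l : Subalgebra.center k (UL k L)) : UL k L) =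
        ∑ j, s j * Xc f ⁅b j, b l⁆ := by
      simp only [Matrix.vecMul, dotProduct]
      rw [AddSubmonoidClass.coe_finsetSum]
      rfl
    rw [h2]
    exact h1.symm
  have hkey : ∀ j, PiZ hf b * s' j = c' * ρ' j := by
    intro j
    have h1 : Matrix.vecMul (Matrix.vecMul s' M) M.adjugate = M.det • s' := by
      rw [Matrix.vecMul_vecMul, Matrix.mul_adjugate, Matrix.vecMul_smul, Matrix.vecMul_one]
    rw [hv] at h1
    have h2 := congrFun h1 j
    have h3 : PiZ hf b = M.det := rfl
    rw [h3]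
    have h4 : (M.det • s') j = M.det * s' j := rfl
    rw [← h4, ← h2]
    simp only [Matrix.vecMul, dotProduct, ρ', Finset.mul_sum, mul_assoc]
  refine ⟨fun j => (ρ' j : UL k L), fun j => (cen_iff_mem_center _).2 (ρ' j).2, fun j => ?_⟩
  have h1 := congrArg (Subtype.val) (hkey j)
  exact h1

end

end Pool.Agent.SkM
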