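import Pool.Agent.Lib.SkS.Defs
import Pool.Agent.Lib.MP_fc2f40_al.PBW

/-!
# Definitions for the theorem: in characteristic two `Z_L(χ) = 0` implies that `u(L, χ)` is simple

Notation of the blueprint: `U = U(L)`, `io : L → U` the canonical map, `b` a basis of `L` indexed by `Fin n`,
`e_j = b j`.  `Fil b m` is the space of elements of degree `< m`, `sy b m u` the homogeneous part of degree `m`
of (the PBW expansion of) `u`, `lin b x` the linear polynomial of `x ∈ L`.  `Xc f y = y^2 - f y`.
-/

namespace Pool.Agent.SkM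

open Module MvPolynomial

noncomputable section

/-- the universal enveloping algebra -/
abbrev UL (k L : Type) [Field k] [LieRing L] [LieAlgebra k L] : Type := UniversalEnvelopingAlgebra k L

variable {k L : Type} [Field k] [LieRing L] [LieAlgebra k L] {n : ℕ}

/-- the canonical map `L → U(L)` -/
def io : L →ₗ[k] UL k L where
  toFun x := UniversalEnvelopingAlgebra.ι k x
  map_add' x y := by rw [map_add]
  map_smul' a x := by rw [map_smul, RingHom.id_apply]

/-- elements of degree `< m` (`Fil b 0 = 0`, `Fil b 1 = k`) -/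
def Fil (b : Basis (Fin n) k L) (m : ℕ) : Submodule k (UL k L) :=
  (Pool.Agent.Lib.MP_fc2f40_al.PBW.W k (Fin n) m).comap (Pool.Agent.Lib.MP_fc2f40_al.PBW.Psi b)

/-- the homogeneous part of degree `m` -/
def sy (b : Basis (Fin n) k L) (m : ℕ) : UL k L →ₗ[k] MvPolynomial (Fin n) k :=
  (MvPolynomial.homogeneousComponent m).comp (Pool.Agent.Lib.MP_fc2f40_al.PBW.Psi b)

/-- the linear polynomial of an element of `L` -/
def lin (b : Basis (Fin n) k L) : L →ₗ[k] MvPolynomial (Fin n) k :=
  b.constr k (fun i => (X i : MvPolynomial (Fin n) k))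

/-- central elements of `U(L)` -/
def Cen (z : UL k L) : Prop := ∀ w : UL k L, z * w = w * z

/-- `y^2 - f y` -/
def Xc (f : L → L) (y : L) : UL k L := io y * io y - io (f y)

/-- `u_i u_j + u_j u_i` -/
def Av (u : Fin n → UL k L) (i j : Fin n) : UL k L := u i * u j + u j * u i

/-- the coordinates of `u^[2] - d u` -/
def hv (b : Basis (Fin n) k L) (f : L → L) (u : Fin n → UL k L) (d : UL k L) (m : Fin n) : UL k L :=
  ∑ j, (b.repr (f (b j)) m) • (u j * u j) +
    ∑ j, ∑ l ∈ Finset.Ioi j, (b.repr ⁅b l, b j⁆ m) • (u j * u l) + d * u m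

/-- `∑ u_j [e_j, y] = d y`, `d` central and nonzero -/
structure UD (b : Basis (Fin n) k L) (u : Fin n → UL k L) (d : UL k L) : Prop where
  cen : Cen d
  ne : d ≠ 0
  rel : ∀ y : L, ∑ j, u j * io ⁅b j, y⁆ = d * io y

/-- in addition `[x, u_j] = ∑ c^j(x, e_l) u_l` (characteristic two) -/
structure UC (b : Basis (Fin n) k L) (u : Fin n → UL k L) (d : UL k L) : Prop extends UD b u d where
  com : ∀ (x : L) (j : Fin n), io x * u j + u j * io x = ∑ l, (b.repr ⁅x, b l⁆ j) • u l

/-- in addition the `u_j` commute and `u^[2] = d u` -/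
structure UT (b : Basis (Fin n) k L) (f : L → L) (u : Fin n → UL k L) (d : UL k L) : Prop
    extends UC b u d where
  cu : ∀ i j, u i * u j = u j * u i
  tor : ∀ m, hv b f u d m = 0

/-- the final form: `P` is the determinant of the matrix `X([e_j, e_l])` -/
structure UV (b : Basis (Fin n) k L) (f : L → L) (P : UL k L) (v : Fin n → UL k L) : Prop where
  rel : ∀ y : L, ∑ j, v j * io ⁅b j, y⁆ = P * io y
  com : ∀ (x : L) (j : Fin n), io x * v j + v j * io x = ∑ l, (b.repr ⁅x, b l⁆ j) • v l
  cv : ∀ i j, v i * v j = v j * v i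
  sq : ∀ y : L, P * P * Xc f y = ∑ j, v j * v j * Xc f ⁅b j, y⁆

end

end Pool.Agent.SkM
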