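import Pool.Agent.Lib.SkM.Ker

/-!
# Module Desc: `A = 0` and `h = 0`

Claim: if all `A i j ∈ Fil (a+1)` (degree `≤ a`) then all `A i j ∈ Fil a`.
(1) `h m ∈ Fil (a+2)` for all `m`: choose `M ≥ a+2` with all `h m ∈ Fil M` and descend: if `h ∈ Fil (c+1)`, `c + 1 ≥ a + 3`, then by
(E6) `∑_m h_m [e_m, y] ∈ Fil (a+3) ≤ Fil (c+1)` (`fil_mul`: `A * io * io ∈ Fil (a+3)`, `A * io ∈ Fil (a+2)`), so `h ∈ Fil c` by `ker2`.
(2) `h m ∈ Fil (a+1)`: apply `sy b (a+2)` to (E6) with `y = b l`: the left side is `∑_m sy (a+1) (h_m) * lin [e_m,e_l]`; on the right the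
second double sum is in `Fil (a+2)`, so gives `0`; the first is `∑_i ∑_j sy a (A i j) * lin [e_j,e_l] * lin e_i`
`= ∑_j (∑_i sy a (A i j) lin e_i) lin [e_j,e_l]`, and `∑_i sy a (A i j) lin e_i = ∑_i sy a (A j i) lin e_i = sy (a+1) (∑_i A j i * io e_i) = 0`
because by (E1) this element is in `Fil (a+1)`.  So `ker_lin` gives `sy (a+1) (h_m) = 0`, `fil_of_sy`.
(3) By (E2) `∑_j A i j * io [e_j, y] ∈ Fil (a+1)`, so `ker2` gives `A i j ∈ Fil a`.

Start: some `a` with all `A i j ∈ Fil (a+1)`; descend to `Fil 0 = 0`: `A = 0`.  Then (E6) and `inj` give `h = 0`.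
-/

set_option linter.unusedSectionVars false

namespace Pool.Agent.SkM

open Module MvPolynomial

open Pool.Agent.SkS (Nondeg)

noncomputable section

variable {k L : Type} [Field k] [LieRing L] [LieAlgebra k L] {n : ℕ}

private lemma desc_exists (b : Basis (Fin n) k L) {ι : Type} [Fintype ι] (h : ι → UL k L) :
    ∃ M, ∀ m, h m ∈ Fil b M := by
  classical
  choose N hN using fun m => exists_fil b (h m)
  refine ⟨∑ m, (N m + 1), fun m => fil_mono b ?_ (hN m)⟩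
  exact Finset.single_le_sum (f := fun m => N m + 1) (fun _ _ => Nat.zero_le _) (Finset.mem_univ m)

private lemma desc_io (b : Basis (Fin n) k L) {a : ℕ} {u : UL k L} (hu : u ∈ Fil b (a + 1))
    (x : L) : u * io x ∈ Fil b (a + 1 + 1) :=
  fil_mul b (c := 1) hu (io_mem b x)

private lemma desc_sy_io (b : Basis (Fin n) k L) {a : ℕ} {u : UL k L} (hu : u ∈ Fil b (a + 1))
    (x : L) : sy b (a + 1) (u * io x) = sy b a u * lin b x := by
  rw [sy_mul b (c := 1) hu (io_mem b x), sy_io]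

private lemma desc_step (b : Basis (Fin n) k L) (χ : Dual k L) (hχ : Nondeg χ)
    (A : Fin n → Fin n → UL k L) (hs : ∀ i j, A i j = A j i) (h : Fin n → UL k L)
    (E1 : ∀ i, ∑ j, A i j * io (b j) =
      ∑ j, ∑ l ∈ Finset.Ioi j, (b.repr ⁅b j, b l⁆ i) • A j l)
    (E2 : ∀ (i : Fin n) (y : L), ∑ j, A i j * io ⁅b j, y⁆ = ∑ m, (b.repr ⁅b m, y⁆ i) • h m +
      ∑ j, ∑ l ∈ Finset.Ioi j, (b.repr ⁅⁅b l, y⁆, b j⁆ i) • A j l)
    (E6 : ∀ y : L, ∑ m, h m * io ⁅b m, y⁆ = ∑ i, (∑ j, A i j * io ⁅b j, y⁆) * io (b i) +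
      ∑ j, ∑ l ∈ Finset.Ioi j, A j l * io ⁅⁅b l, y⁆, b j⁆) (a : ℕ)
    (hA : ∀ i j, A i j ∈ Fil b (a + 1)) : ∀ i j, A i j ∈ Fil b a := by
  -- (1)
  have hE6 : ∀ y : L, ∑ m, h m * io ⁅b m, y⁆ ∈ Fil b (a + 3) := by
    intro y
    rw [E6 y]
    refine Submodule.add_mem _ (Submodule.sum_mem _ fun i _ => ?_)
      (Submodule.sum_mem _ fun j _ => Submodule.sum_mem _ fun l _ => ?_)
    · exact desc_io b (a := a + 1) (Submodule.sum_mem _ fun j _ => desc_io b (hA i j) _) _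
    · exact fil_mono b (by omega) (desc_io b (hA j l) _)
  have h1 : ∀ M, (∀ m, h m ∈ Fil b (a + 2 + M)) → ∀ m, h m ∈ Fil b (a + 2) := by
    intro M
    induction M with
    | zero => exact fun hm => hm
    | succ M ih =>
      intro hm
      apply ih
      refine ker2 b χ hχ (a + 2 + M) h hm fun l => ?_
      exact fil_mono b (by omega) (hE6 (b l))
  have h2 : ∀ m, h m ∈ Fil b (a + 2) := by
    obtain ⟨M, hM⟩ := desc_exists b h
    exact h1 M fun m => fil_mono b (by omega) (hM m)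
  -- (2)
  have h3 : ∀ j, ∑ i, sy b a (A i j) * lin b (b i) = 0 := by
    intro j
    have h4 : ∑ i, sy b a (A i j) * lin b (b i) = sy b (a + 1) (∑ i, A j i * io (b i)) := by
      rw [map_sum]
      refine Finset.sum_congr rfl fun i _ => ?_
      rw [desc_sy_io b (hA j i), hs i j]
    rw [h4, E1 j]
    refine sy_of_fil b (a := a + 1) ?_ le_rfl
    exact Submodule.sum_mem _ fun j' _ => Submodule.sum_mem _ fun l _ =>
      Submodule.smul_mem _ _ (hA j' l)
  have h4 : ∀ m, sy b (a + 1) (h m) = 0 := by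
    refine ker_lin b χ hχ (fun m => sy b (a + 1) (h m)) fun l => ?_
    have h5 := congrArg (sy b (a + 2)) (E6 (b l))
    rw [map_add, map_sum, map_sum, map_sum] at h5
    have h6 : ∀ m, sy b (a + 2) (h m * io ⁅b m, b l⁆) =
        sy b (a + 1) (h m) * lin b ⁅b m, b l⁆ := fun m => desc_sy_io b (a := a + 1) (h2 m) _
    rw [Finset.sum_congr rfl fun m _ => h6 m] at h5
    rw [h5]
    have h7 : ∀ i, sy b (a + 2) ((∑ j, A i j * io ⁅b j, b l⁆) * io (b i)) =
        ∑ j, sy b a (A i j) * lin b ⁅b j, b l⁆ * lin b (b i) := by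
      intro i
      have h8 : ∑ j, A i j * io ⁅b j, b l⁆ ∈ Fil b (a + 1 + 1) :=
        Submodule.sum_mem _ fun j _ => desc_io b (hA i j) _
      have h9 := desc_sy_io b (a := a + 1) h8 (b i)
      rw [h9, map_sum, Finset.sum_mul]
      refine Finset.sum_congr rfl fun j _ => ?_
      rw [desc_sy_io b (hA i j)]
    have h10 : ∑ i, sy b (a + 2) ((∑ j, A i j * io ⁅b j, b l⁆) * io (b i)) = 0 := by
      rw [Finset.sum_congr rfl fun i _ => h7 i, Finset.sum_comm]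
      refine Finset.sum_eq_zero fun j _ => ?_
      have h11 : ∑ i, sy b a (A i j) * lin b ⁅b j, b l⁆ * lin b (b i) =
          (∑ i, sy b a (A i j) * lin b (b i)) * lin b ⁅b j, b l⁆ := by
        rw [Finset.sum_mul]
        exact Finset.sum_congr rfl fun i _ => by ring
      rw [h11, h3 j, zero_mul]
    rw [h10, zero_add]
    refine Finset.sum_eq_zero fun j _ => ?_
    rw [map_sum]
    refine Finset.sum_eq_zero fun l' _ => ?_
    exact sy_of_fil b (a := a + 2) (desc_io b (hA j l') _) le_rfl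
  have h5 : ∀ m, h m ∈ Fil b (a + 1) := fun m => fil_of_sy b (h2 m) (h4 m)
  -- (3)
  intro i
  refine ker2 b χ hχ a (A i) (hA i) fun l => ?_
  rw [E2 i (b l)]
  refine Submodule.add_mem _ (Submodule.sum_mem _ fun m _ => Submodule.smul_mem _ _ (h5 m)) ?_
  exact Submodule.sum_mem _ fun j' _ => Submodule.sum_mem _ fun l _ =>
      Submodule.smul_mem _ _ (hA j' l)

theorem descent (b : Basis (Fin n) k L) (χ : Dual k L) (hχ : Nondeg χ)
    (A : Fin n → Fin n → UL k L) (hs : ∀ i j, A i j = A j i) (h : Fin n → UL k L)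
    (E1 : ∀ i, ∑ j, A i j * io (b j) =
      ∑ j, ∑ l ∈ Finset.Ioi j, (b.repr ⁅b j, b l⁆ i) • A j l)
    (E2 : ∀ (i : Fin n) (y : L), ∑ j, A i j * io ⁅b j, y⁆ = ∑ m, (b.repr ⁅b m, y⁆ i) • h m +
      ∑ j, ∑ l ∈ Finset.Ioi j, (b.repr ⁅⁅b l, y⁆, b j⁆ i) • A j l)
    (E6 : ∀ y : L, ∑ m, h m * io ⁅b m, y⁆ = ∑ i, (∑ j, A i j * io ⁅b j, y⁆) * io (b i) +
      ∑ j, ∑ l ∈ Finset.Ioi j, A j l * io ⁅⁅b l, y⁆, b j⁆) :
    (∀ i j, A i j = 0) ∧ ∀ m, h m = 0 := by
  have hex : ∃ M, ∀ i j, A i j ∈ Fil b M := by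
    obtain ⟨M, hM⟩ := desc_exists b (fun q : Fin n × Fin n => A q.1 q.2)
    exact ⟨M, fun i j => hM (i, j)⟩
  have key : ∀ M, (∀ i j, A i j ∈ Fil b M) → ∀ i j, A i j = 0 := by
    intro M
    induction M with
    | zero => exact fun hM i j => fil_zero b (hM i j)
    | succ M ih => exact fun hM => ih (desc_step b χ hχ A hs h E1 E2 E6 M hM)
  obtain ⟨M, hM⟩ := hex
  have hA := key M hM
  refine ⟨hA, inj b χ hχ h fun l => ?_⟩
  rw [E6 (b l)]
  simp [hA]

end

end Pool.Agent.SkM
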