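import Mathlib

/-!
# Module Dvd: a divisibility lemma in a unique factorization domain

If `w ≠ 0` and `a^m ∣ b^m w` for all `m` then `a ∣ b`.  Proof: if `a = 0` take `m = 1`: `b w = 0`, `b = 0`.  Otherwise
`UniqueFactorizationMonoid.exists_reduced_factors a ha b : ∃ a' b' c', IsRelPrime a' b' ∧ c' * a' = a ∧ c' * b' = b`;
`c' ≠ 0`, so `a'^m ∣ b'^m w` (cancel `c'^m`), and `a'^m`, `b'^m` are relatively prime (`IsRelPrime.pow`), so `a'^m ∣ w` for all `m`
(`IsRelPrime.dvd_of_dvd_mul_left`), which forces `a'` to be a unit (`WfDvdMonoid.max_power_factor`, or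
`FiniteMultiplicity.of_not_isUnit`); then `a = c' a' ∣ c' b' = b`.
-/

namespace Pool.Agent.SkM

theorem dvd_of_pow_dvd {R : Type} [CommRing R] [IsDomain R] [UniqueFactorizationMonoid R]
    (a b w : R) (hw : w ≠ 0) (h : ∀ m : ℕ, a ^ m ∣ b ^ m * w) : a ∣ b := by
  by_cases ha : a = 0
  · have h1 := h 1
    rw [pow_one, pow_one, ha, zero_dvd_iff] at h1
    rcases mul_eq_zero.1 h1 with h2 | h2
    · rw [h2]; exact dvd_zero a
    · exact absurd h2 hw
  · obtain ⟨a', b', c', hrel, hca, hcb⟩ := UniqueFactorizationMonoid.exists_reduced_factors a ha b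
    have hc0 : c' ≠ 0 := fun h0 => ha (by rw [← hca, h0, zero_mul])
    have h1 : ∀ m : ℕ, a' ^ m ∣ w := by
      intro m
      have h2 := h m
      rw [← hca, ← hcb, mul_pow, mul_pow, mul_assoc] at h2
      have h3 := (mul_dvd_mul_iff_left (pow_ne_zero m hc0)).1 h2
      exact (hrel.pow (m := m) (n := m)).dvd_of_dvd_mul_left h3
    have hu : IsUnit a' := by
      by_contra hnu
      obtain ⟨n, w', hw', hn⟩ := WfDvdMonoid.max_power_factor' hw hnu
      have h2 := h1 (n + 1)
      rw [hn, pow_succ] at h2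
      have ha'0 : a' ≠ 0 := fun h0 => ha (by rw [← hca, h0, mul_zero])
      exact hw' ((mul_dvd_mul_iff_left (pow_ne_zero n ha'0)).1 h2)
    rw [← hca, ← hcb]
    exact mul_dvd_mul_left c' (hu.dvd)

end Pool.Agent.SkM
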