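import Pool.Agent.Lib.SkM.Basic

/-!
# Module Fin: `U(L)` is a finite module over its center (characteristic two, restricted)

The file `Pool/Agent/Lib/SkS/Pbw.lean` contains (as private lemmas, copy them, with `χ = 0` or with `Xi` replaced by `Xc f`) the map
`Θ : MvPolynomial → U(L)`, `Θ (X^a) = (∏ Ξ_i ^ (a_i / 2)) * Phi (X^(a % 2))`, and its surjectivity `Th_surj`.  As
`∏ Ξ_i ^ (a_i/2)` is central, every element of `U(L)` is a combination, with coefficients in the center `Z`, of the
`2^n` elements `Phi (X^ε)`, `ε ∈ {0,1}^n` (`md m` takes values in `{0,1}`).  So the span over `Z` of the finite set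
`{Phi b (mon (ex ε))}` is everything: `Module.Finite.of_fg` / `⟨⟨finset, span = ⊤⟩⟩`.
The action of `Subalgebra.center k U` on `U` is left multiplication (`Subalgebra.smul_def`).
-/

set_option linter.unusedSectionVars false

namespace Pool.Agent.SkM

open Module MvPolynomial Finsupp

open Pool.Agent.SkS (Frz)

open Pool.Agent.Lib.MP_fc2f40_al.PBW (mon W mon_mem_W W_mono X_mul_mon X_mul_mem_W A AL A_sub_mem
  AL_basis rhoU rhoU_ι Phi Psi Phi_Psi Psi_apply Phi_mon mon_zero rhoU_Phi_mon coeff_of_mem_W exists_W)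

noncomputable section

variable {k L : Type} [Field k] [LieRing L] [LieAlgebra k L] {n : ℕ}

/-- the central elements -/
private def Xi (f : L → L) (χ : Dual k L) (x : L) : UniversalEnvelopingAlgebra k L :=
  UniversalEnvelopingAlgebra.ι k x ^ 2 - UniversalEnvelopingAlgebra.ι k (f x) -
    algebraMap k (UniversalEnvelopingAlgebra k L) (χ x ^ 2)

private lemma Xi_comm {f : L → L} (h : Frz k f) (χ : Dual k L) (x : L)
    (u : UniversalEnvelopingAlgebra k L) : Xi f χ x * u = u * Xi f χ x := by
  have key : ∀ u, Commute (UniversalEnvelopingAlgebra.ι k x ^ 2 - UniversalEnvelopingAlgebra.ι k (f x)) u := by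
    intro u
    induction u using Pool.Agent.Lib.MP_fc2f40_al.PBW.U_induction with
    | algebraMap r => exact (Algebra.commutes r _).symm
    | ι y => exact h.comm x y
    | mul a b ha hb => exact ha.mul_right hb
    | add a b ha hb => exact ha.add_right hb
  have h2 : Commute (algebraMap k (UniversalEnvelopingAlgebra k L) (χ x ^ 2)) u :=
    Algebra.commutes _ u
  exact ((key u).sub_left h2)

variable (b : Basis (Fin n) k L)

/-- the map to the center -/
private def zeta {f : L → L} (h : Frz k f) (χ : Dual k L) :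
    MvPolynomial (Fin n) k →ₐ[k] Subalgebra.center k (UniversalEnvelopingAlgebra k L) :=
  MvPolynomial.aeval (fun i => ⟨Xi f χ (b i), Subalgebra.mem_center_iff.mpr
    (fun u => (Xi_comm h χ (b i) u).symm)⟩)

private def hf (m : Fin n →₀ ℕ) : Fin n →₀ ℕ := m.mapRange (fun x => x / 2) rfl

private def md (m : Fin n →₀ ℕ) : Fin n →₀ ℕ := m.mapRange (fun x => x % 2) rfl

private lemma hf_md (m : Fin n →₀ ℕ) : (hf m + hf m) + md m = m := by
  ext i
  simp only [hf, md, Finsupp.add_apply, Finsupp.mapRange_apply]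
  omega

/-- the adapted basis -/
private def Th {f : L → L} (h : Frz k f) (χ : Dual k L) :
    MvPolynomial (Fin n) k →ₗ[k] UniversalEnvelopingAlgebra k L :=
  (basisMonomials (Fin n) k).constr k (fun m =>
    ((zeta b h χ (mon (hf m)) : Subalgebra.center k (UniversalEnvelopingAlgebra k L)) :
      UniversalEnvelopingAlgebra k L) * Phi b (mon (md m)))

private lemma Th_mon {f : L → L} (h : Frz k f) (χ : Dual k L) (m : Fin n →₀ ℕ) :
    Th b h χ (mon m) =
    ((zeta b h χ (mon (hf m)) : Subalgebra.center k (UniversalEnvelopingAlgebra k L)) :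
      UniversalEnvelopingAlgebra k L) * Phi b (mon (md m)) := by
  have h1 := (basisMonomials (Fin n) k).constr_basis k (fun m : Fin n →₀ ℕ =>
    ((zeta b h χ (mon (hf m)) : Subalgebra.center k (UniversalEnvelopingAlgebra k L)) :
      UniversalEnvelopingAlgebra k L) * Phi b (mon (md m))) m
  rw [coe_basisMonomials] at h1
  exact h1

private lemma zeta_single {f : L → L} (h : Frz k f) (χ : Dual k L) (i : Fin n) (c : Fin n →₀ ℕ) :
    ((zeta b h χ (mon (single i 1 + c)) : Subalgebra.center k (UniversalEnvelopingAlgebra k L)) :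
      UniversalEnvelopingAlgebra k L) = Xi f χ (b i) *
    ((zeta b h χ (mon c) : Subalgebra.center k (UniversalEnvelopingAlgebra k L)) :
      UniversalEnvelopingAlgebra k L) := by
  rw [← X_mul_mon, map_mul]
  have : zeta b h χ (X i) = ⟨Xi f χ (b i), Subalgebra.mem_center_iff.mpr
    (fun u => (Xi_comm h χ (b i) u).symm)⟩ := by
    unfold zeta
    rw [aeval_X]
  rw [this]
  rfl

private lemma zeta_zero {f : L → L} (h : Frz k f) (χ : Dual k L) :
    ((zeta b h χ (mon 0) : Subalgebra.center k (UniversalEnvelopingAlgebra k L)) :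
      UniversalEnvelopingAlgebra k L) = 1 := by
  rw [mon_zero, map_one]
  rfl

private lemma AL_mem (x : L) (d : ℕ) (p : MvPolynomial (Fin n) k) (hp : p ∈ W k (Fin n) (d + 1)) :
    AL b x p ∈ W k (Fin n) (d + 1 + 1) := by
  have h1 : ∀ i, A b i p ∈ W k (Fin n) (d + 1 + 1) := by
    intro i
    have e1 := A_sub_mem b d i p hp
    have e2 := X_mul_mem_W i hp
    have e3 := Submodule.add_mem _ (W_mono (Nat.le_succ _) e1) e2
    rwa [sub_add_cancel] at e3
  rw [AL, Basis.constr_apply, Finsupp.sum, LinearMap.sum_apply]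
  refine Submodule.sum_mem _ (fun j _ => ?_)
  rw [LinearMap.smul_apply]
  exact Submodule.smul_mem _ _ (h1 j)

private lemma rhoU_Xi (f : L → L) (χ : Dual k L) (i : Fin n) (d : ℕ)
    (p : MvPolynomial (Fin n) k) (hp : p ∈ W k (Fin n) (d + 1)) :
    rhoU b (Xi f χ (b i)) p - X i * (X i * p) ∈ W k (Fin n) (d + 2) := by
  have e : rhoU b (Xi f χ (b i)) p = A b i (A b i p) - AL b (f (b i)) p - (χ (b i) ^ 2) • p := by
    unfold Xi
    rw [map_sub, map_sub, LinearMap.sub_apply, LinearMap.sub_apply, sq, map_mul,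
      Module.End.mul_apply, rhoU_ι, rhoU_ι, rhoU_ι, AL_basis, AlgHom.commutes,
      Module.algebraMap_end_apply]
  rw [e]
  have h1 := A_sub_mem b d i p hp
  have h2 := X_mul_mem_W i hp
  have h3 : A b i p ∈ W k (Fin n) (d + 1 + 1) := by
    have e3 := Submodule.add_mem _ (W_mono (Nat.le_succ _) h1) h2
    rwa [sub_add_cancel] at e3
  have h4 := A_sub_mem b (d + 1) i (A b i p) h3
  have h5 := X_mul_mem_W i h1
  have h6 := AL_mem b (f (b i)) d p hp
  have h7 := Submodule.smul_mem _ (χ (b i) ^ 2) (W_mono (Nat.le_succ _) hp)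
  have h8 : A b i (A b i p) - AL b (f (b i)) p - (χ (b i) ^ 2) • p - X i * (X i * p) =
      (A b i (A b i p) - X i * A b i p) + X i * (A b i p - X i * p) - AL b (f (b i)) p -
        (χ (b i) ^ 2) • p := by ring
  rw [h8]
  exact Submodule.sub_mem _ (Submodule.sub_mem _ (Submodule.add_mem _ h4 h5) h6) h7

private lemma mon_mul_mem_W (c : Fin n →₀ ℕ) (d : ℕ) (p : MvPolynomial (Fin n) k)
    (hp : p ∈ W k (Fin n) d) : mon c * p ∈ W k (Fin n) (d + c.degree) := by
  have : W k (Fin n) d ≤ (W k (Fin n) (d + c.degree)).comap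
      (LinearMap.mulLeft k (mon c : MvPolynomial (Fin n) k)) := by
    rw [W, Submodule.span_le]
    rintro _ ⟨m, hm, rfl⟩
    simp only [SetLike.mem_coe, Submodule.mem_comap, LinearMap.mulLeft_apply]
    have hm' : m.degree < d := hm
    have e : (mon c * monomial m 1 : MvPolynomial (Fin n) k) = mon (c + m) := by
      simp [monomial_mul]
    rw [e]
    apply mon_mem_W
    rw [map_add]
    omega
  exact this hp

private lemma exists_single (c : Fin n →₀ ℕ) (hc : c ≠ 0) : ∃ i c', c = single i 1 + c' := by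
  obtain ⟨i, hi⟩ : ∃ i, c i ≠ 0 := by
    by_contra hcon
    push Not at hcon
    exact hc (Finsupp.ext hcon)
  refine ⟨i, c - single i 1, ?_⟩
  rw [add_tsub_cancel_of_le]
  rw [Finsupp.single_le_iff]
  omega

private lemma rhoU_zeta {f : L → L} (h : Frz k f) (χ : Dual k L) (N : ℕ) :
    ∀ (c : Fin n →₀ ℕ), c.degree = N → ∀ (d : ℕ)
    (p : MvPolynomial (Fin n) k), p ∈ W k (Fin n) (d + 1) →
    rhoU b ((zeta b h χ (mon c) : Subalgebra.center k (UniversalEnvelopingAlgebra k L)) :
      UniversalEnvelopingAlgebra k L) p - mon (c + c) * p ∈ W k (Fin n) (d + 2 * N) := by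
  induction N with
  | zero =>
    intro c hc d p hp
    have hc0 : c = 0 := (Finsupp.degree_eq_zero_iff c).mp hc
    subst hc0
    rw [zeta_zero, map_one, Module.End.one_apply, add_zero, mon_zero, one_mul, sub_self]
    exact Submodule.zero_mem _
  | succ N ih =>
    intro c hc d p hp
    obtain ⟨i, c', rfl⟩ := exists_single c (by
      rintro rfl
      simp at hc)
    have hc' : c'.degree = N := by
      rw [map_add, degree_single] at hc
      omega
    have h1 := ih c' hc' d p hp
    rw [zeta_single, map_mul, Module.End.mul_apply]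
    set q := rhoU b ((zeta b h χ (mon c') : Subalgebra.center k (UniversalEnvelopingAlgebra k L)) :
      UniversalEnvelopingAlgebra k L) p with hq
    have h2 : mon (c' + c') * p ∈ W k (Fin n) (d + 2 * N + 1) := by
      have := mon_mul_mem_W (c' + c') (d + 1) p hp
      rw [map_add, hc'] at this
      exact W_mono (by omega) this
    have h3 : q ∈ W k (Fin n) (d + 2 * N + 1) := by
      have := Submodule.add_mem _ (W_mono (Nat.le_succ _) h1) h2
      rwa [sub_add_cancel] at this
    have h4 := rhoU_Xi b f χ i (d + 2 * N) q h3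
    have h5 := X_mul_mem_W i (X_mul_mem_W i h1)
    have h6 := Submodule.add_mem _ h4 h5
    have e : (mon (single i 1 + c' + (single i 1 + c')) : MvPolynomial (Fin n) k) =
        X i * (X i * mon (c' + c')) := by
      rw [X_mul_mon, X_mul_mon]
      congr 1
      abel
    have e2 : rhoU b (Xi f χ (b i)) q - mon (single i 1 + c' + (single i 1 + c')) * p =
        rhoU b (Xi f χ (b i)) q - X i * (X i * q) + X i * (X i * (q - mon (c' + c') * p)) := by
      rw [e]; ring
    rw [e2]
    exact W_mono (by omega) h6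

private lemma Psi_Th_mon {f : L → L} (h : Frz k f) (χ : Dual k L) (m : Fin n →₀ ℕ) :
    Psi b (Th b h χ (mon m)) - mon m ∈ W k (Fin n) m.degree := by
  rw [Th_mon, Psi_apply, map_mul, Module.End.mul_apply]
  have h1 := rhoU_Phi_mon b (md m) 0 1 (by rw [← mon_zero]; exact mon_mem_W (by simp))
  rw [mul_one, add_zero] at h1
  set q := rhoU b (Phi b (mon (md m))) 1 with hq
  have h2 : q ∈ W k (Fin n) ((md m).degree + 1) := by
    have := Submodule.add_mem _ (W_mono (Nat.le_succ _) h1)
      (mon_mem_W (R := k) (Nat.lt_succ_self (md m).degree))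
    rwa [sub_add_cancel] at this
  have h3 := rhoU_zeta b h χ _ (hf m) rfl _ q h2
  have h4 := mon_mul_mem_W (hf m + hf m) _ _ h1
  have h5 := Submodule.add_mem _ h3 (W_mono (by rw [map_add]; omega) h4)
  have e : (mon m : MvPolynomial (Fin n) k) = mon (hf m + hf m) * mon (md m) := by
    conv_lhs => rw [← hf_md m]
    simp [monomial_mul]
  have hdeg : m.degree = (hf m).degree + (hf m).degree + (md m).degree := by
    conv_lhs => rw [← hf_md m]
    rw [map_add, map_add]
  rw [hdeg, e]
  refine W_mono (by omega) (?_ : _ ∈ W k (Fin n) ((md m).degree + 2 * (hf m).degree))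
  have e2 : ∀ u v w z : MvPolynomial (Fin n) k, u - v * z = (u - v * w) + v * (w - z) := by
    intros; ring
  rw [e2 _ _ q]
  exact h5

private lemma Psi_Th {f : L → L} (h : Frz k f) (χ : Dual k L) (d : ℕ)
    (p : MvPolynomial (Fin n) k) (hp : p ∈ W k (Fin n) (d + 1)) :
    Psi b (Th b h χ p) - p ∈ W k (Fin n) d := by
  have : W k (Fin n) (d + 1) ≤ (W k (Fin n) d).comap
      ((Psi b).comp (Th b h χ) - LinearMap.id) := by
    conv_lhs => rw [W]
    rw [Submodule.span_le]
    rintro _ ⟨m, hm, rfl⟩
    have hm' : m.degree < d + 1 := hm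
    exact W_mono (by omega) (Psi_Th_mon b h χ m)
  exact this hp

private lemma W_zero (p : MvPolynomial (Fin n) k) (hp : p ∈ W k (Fin n) 0) : p = 0 := by
  have h0 : W k (Fin n) 0 = ⊥ := by
    rw [W]
    simp
  rw [h0] at hp
  exact hp

private lemma Th_surj {f : L → L} (h : Frz k f) (χ : Dual k L) :
    Function.Surjective (Th b h χ) := by
  have key : ∀ d, ∀ q ∈ W k (Fin n) d, ∃ p, Psi b (Th b h χ p) = q := by
    intro d
    induction d with
    | zero =>
      intro q hq
      refine ⟨0, ?_⟩
      rw [W_zero q hq, map_zero, map_zero]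
    | succ d ih =>
      intro q hq
      obtain ⟨p, hp⟩ := ih _ (Psi_Th b h χ d q hq)
      refine ⟨q - p, ?_⟩
      rw [map_sub, map_sub, hp]
      abel
  intro u
  obtain ⟨d, hd⟩ := exists_W (Psi b u)
  obtain ⟨p, hp⟩ := key _ _ hd
  refine ⟨p, ?_⟩
  have := congrArg (Phi b) hp
  rwa [Phi_Psi, Phi_Psi] at this

/-- exponent vectors -/
private def ex (ε : Fin n → Fin 2) : Fin n →₀ ℕ := Finsupp.equivFunOnFinite.symm (fun i => (ε i : ℕ))


private lemma md_eq_ex (m : Fin n →₀ ℕ) :
    md m = ex (fun i => (⟨m i % 2, Nat.mod_lt _ (by norm_num)⟩ : Fin 2)) := by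
  ext i
  simp [md, ex]

theorem finite_center {f : L → L} (hf : Frz k f) (b : Basis (Fin n) k L) :
    Module.Finite (Subalgebra.center k (UL k L)) (UL k L) := by
  classical
  set S : Finset (UL k L) := Finset.univ.image (fun ε : Fin n → Fin 2 => Phi b (mon (ex ε))) with hS
  refine ⟨⟨S, ?_⟩⟩
  rw [eq_top_iff]
  intro u _
  obtain ⟨p, rfl⟩ := Th_surj b hf 0 u
  have hmon : ∀ m : Fin n →₀ ℕ, Th b hf 0 (mon m) ∈
      Submodule.span (Subalgebra.center k (UL k L)) (S : Set (UL k L)) := by
    intro m
    rw [Th_mon, md_eq_ex]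
    refine Submodule.smul_mem _ (zeta b hf 0 (mon (Pool.Agent.SkM.hf m))) (Submodule.subset_span ?_)
    rw [hS]
    exact Finset.mem_coe.2 (Finset.mem_image_of_mem _ (Finset.mem_univ _))
  rw [p.as_sum, map_sum]
  refine Submodule.sum_mem _ fun m _ => ?_
  have e : (monomial m (coeff m p) : MvPolynomial (Fin n) k) = (coeff m p) • mon m := by
    simp [mon, smul_monomial]
  rw [e, map_smul]
  exact Submodule.smul_of_tower_mem _ _ (hmon m)

end

end Pool.Agent.SkM
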