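import Pool.Agent.Lib.SkM.Ker
import Pool.Agent.Lib.SkM.Fin
import Pool.Agent.Lib.SkM.CH

/-!
# Module Ex: existence of `u_j`, `d`

`Z = Subalgebra.center k U` (a commutative ring), `M = Fin n → U`, a finite `Z`-module (`finite_center`, `Module.Finite.pi`),
`φ (w)_l = ∑_j w_j * io [e_j, e_l]`, `Z`-linear (`Z` acts by left multiplication), injective by `inj`.  Apply
`exists_smul_mem_range` to `m = (l ↦ io (e_l))`: `∑_j w_j io [e_j, e_l] = d * io (e_l)` for all `l`, `d ≠ 0` in `Z`.
Then `rel_ext` (Basic) gives it for all `y`.  `Nontrivial Z` from `U_one_ne`.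
-/

set_option linter.unusedSectionVars false

namespace Pool.Agent.SkM

open Module MvPolynomial

open Pool.Agent.SkS (Frz Nondeg)

noncomputable section

variable {k L : Type} [Field k] [LieRing L] [LieAlgebra k L] {n : ℕ}

theorem exists_ud {f : L → L} (hf : Frz k f) (b : Basis (Fin n) k L) (χ : Dual k L) (hχ : Nondeg χ) :
    ∃ (u : Fin n → UL k L) (d : UL k L), UD b u d := by
  have hfin := finite_center hf b
  have hnt : Nontrivial (UL k L) := Pool.Agent.Lib.MP_fc2f40_al.PBW.nontrivial_U k L
  have hZ : Nontrivial (Subalgebra.center k (UL k L)) := by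
    refine ⟨0, 1, fun h => ?_⟩
    have h1 : ((0 : Subalgebra.center k (UL k L)) : UL k L) = 1 := by
      rw [h]; rfl
    exact zero_ne_one h1
  let φ : (Fin n → UL k L) →ₗ[Subalgebra.center k (UL k L)] (Fin n → UL k L) :=
    { toFun := fun w l => ∑ j, w j * io ⁅b j, b l⁆
      map_add' := by
        intro w w'
        funext l
        show ∑ j, (w j + w' j) * io ⁅b j, b l⁆ = ∑ j, w j * io ⁅b j, b l⁆ + ∑ j, w' j * io ⁅b j, b l⁆
        rw [← Finset.sum_add_distrib]
        exact Finset.sum_congr rfl fun j _ => add_mul _ _ _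
      map_smul' := by
        intro z w
        funext l
        show ∑ j, ((z : UL k L) * w j) * io ⁅b j, b l⁆ = (z : UL k L) * ∑ j, w j * io ⁅b j, b l⁆
        rw [Finset.mul_sum]
        exact Finset.sum_congr rfl fun j _ => mul_assoc _ _ _ }
  have hφ : Function.Injective φ := by
    rw [injective_iff_map_eq_zero]
    intro w hw
    funext j
    refine inj b χ hχ w (fun l => ?_) j
    exact congrFun hw l
  obtain ⟨d, hd, w, hw⟩ := exists_smul_mem_range φ hφ (fun l => io (b l))
  refine ⟨w, (d : UL k L), ?_, ?_, ?_⟩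
  · exact (cen_iff_mem_center _).2 d.2
  · intro h
    exact hd (Subtype.ext h)
  · refine rel_ext b w (d : UL k L) fun l => ?_
    exact congrFun hw l

end

end Pool.Agent.SkM
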