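import Pool.Agent.Lib.SkM.SY
import Pool.Agent.Lib.SkM.Dvd

/-!
# Module Mo: `U(L)` behaves like a maximal order

Let `I` be a nonzero left ideal, `c ≠ 0` central, `q ∈ U` with `q I ⊂ c I`.  Then `q ∈ c U`.

Proof.  Induction on `t` with `q ∈ Fil b t`; `t = 0`: `q = 0 = c * 0`.  Let `q ∈ Fil (t+1)`.  Let `w ∈ I`, `w ≠ 0`; `w ∈ Fil (s+1)`,
`sy b s w ≠ 0` (choose `s` minimal, `fil_of_sy`), `c ∈ Fil (e+1)`, `C = sy b e c ≠ 0`.  Iterating the hypothesis: for all `m` there is
`w' ∈ I` with `q^m w = c^m w'` (`c` central).  Let `Q = sy b t q` (possibly `0`; if `Q = 0` then `q ∈ Fil t` and we are done by induction).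
Symbols: `sy (t m + s) (q^m w) = Q^m * sy s w ≠ 0` (`MvPolynomial` over a field is a domain), and `w' ≠ 0` has an exact degree `s'`, so
`q^m w = c^m w'` has symbol `C^m * sy s' w'` in degree `e m + s'`; both are the nonzero leading parts of the same element, so
`t m + s = e m + s'` and `C^m ∣ Q^m * sy s w`.  By `dvd_of_pow_dvd` (`MvPolynomial (Fin n) k` is a UFD): `C ∣ Q`, `Q = C * g`; taking the
homogeneous component of degree `t` we may take `g` homogeneous of degree `t - e` (`e ≤ t` as `Q ≠ 0`).  Let `v ∈ Fil (t-e+1)` have symbol `g`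
(`exists_of_homog`).  Then `q' = q - c v ∈ Fil t`, and `q' I ⊂ c I` because `v I ⊂ I`.  By induction `q' = c v'`, `q = c (v + v')`.
-/

set_option linter.unusedSectionVars false

namespace Pool.Agent.SkM

open Module MvPolynomial

noncomputable section

variable {k L : Type} [Field k] [LieRing L] [LieAlgebra k L] {n : ℕ}

private lemma mo_exact (b : Basis (Fin n) k L) {u : UL k L} (hu : u ≠ 0) :
    ∃ s, u ∈ Fil b (s + 1) ∧ sy b s u ≠ 0 := by
  classical
  have hex : ∃ m, u ∈ Fil b m := by
    obtain ⟨m, hm⟩ := exists_fil b u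
    exact ⟨m + 1, hm⟩
  have h1 := Nat.find_spec hex
  have h2 : Nat.find hex ≠ 0 := by
    intro h0
    rw [h0] at h1
    exact hu (fil_zero b h1)
  obtain ⟨s, hs⟩ := Nat.exists_eq_succ_of_ne_zero h2
  rw [hs] at h1
  refine ⟨s, h1, fun h0 => ?_⟩
  have h3 := fil_of_sy b h1 h0
  exact Nat.find_min hex (m := s) (by omega) h3

private lemma mo_sy_one (b : Basis (Fin n) k L) : sy b 0 (1 : UL k L) = 1 := by
  have h1 := sy_mul b (a := 0) (c := 0) (one_mem b) (one_mem b)
  rw [mul_one] at h1
  have h2 : sy b 0 (1 : UL k L) ≠ 0 := by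
    intro h0
    exact U_one_ne (k := k) (L := L) (fil_zero b (fil_of_sy b (one_mem b) h0))
  have h3 : sy b 0 (1 : UL k L) * 1 = sy b 0 (1 : UL k L) * sy b 0 (1 : UL k L) := by
    rw [mul_one]
    exact h1
  exact (mul_left_cancel₀ h2 h3).symm

private lemma mo_pow (b : Basis (Fin n) k L) {u : UL k L} {t : ℕ} (hu : u ∈ Fil b (t + 1))
    (m : ℕ) : u ^ m ∈ Fil b (t * m + 1) ∧ sy b (t * m) (u ^ m) = sy b t u ^ m := by
  induction m with
  | zero =>
    rw [pow_zero, pow_zero, Nat.mul_zero]
    exact ⟨one_mem b, mo_sy_one b⟩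
  | succ m ih =>
    rw [pow_succ, pow_succ, Nat.mul_succ]
    refine ⟨fil_mul b ih.1 hu, ?_⟩
    rw [sy_mul b ih.1 hu, ih.2]

private lemma mo_uniq (b : Basis (Fin n) k L) {u : UL k L} {A B : ℕ} (hA : u ∈ Fil b (A + 1))
    (hA0 : sy b A u ≠ 0) (hB : u ∈ Fil b (B + 1)) (hB0 : sy b B u ≠ 0) : A = B := by
  rcases lt_trichotomy A B with h | h | h
  · exact absurd (sy_of_fil b hA (by omega)) hB0
  · exact h
  · exact absurd (sy_of_fil b hB (by omega)) hA0

private lemma mo_homog {C Q g : MvPolynomial (Fin n) k} {e t : ℕ} (hC : C.IsHomogeneous e)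
    (hQ : Q.IsHomogeneous t) (hQ0 : Q ≠ 0) (h : Q = C * g) :
    e ≤ t ∧ ∃ g' : MvPolynomial (Fin n) k, g'.IsHomogeneous (t - e) ∧ Q = C * g' := by
  have h1 : Q = ∑ i ∈ Finset.range (g.totalDegree + 1),
      (if t = e + i then C * homogeneousComponent i g else 0) := by
    have h2 : Q = homogeneousComponent t Q := by
      rw [homogeneousComponent_of_mem (show Q ∈ homogeneousSubmodule (Fin n) k t from hQ),
        if_pos rfl]
    have h3 : Q = ∑ i ∈ Finset.range (g.totalDegree + 1), C * homogeneousComponent i g := by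
      rw [← Finset.mul_sum, sum_homogeneousComponent]
      exact h
    conv_lhs => rw [h2, h3]
    rw [map_sum]
    refine Finset.sum_congr rfl fun i _ => ?_
    exact homogeneousComponent_of_mem (show C * homogeneousComponent i g ∈
      homogeneousSubmodule (Fin n) k (e + i) from hC.mul (homogeneousComponent_isHomogeneous i g))
  have het : e ≤ t := by
    by_contra hlt
    push Not at hlt
    apply hQ0
    rw [h1]
    refine Finset.sum_eq_zero fun i _ => ?_
    rw [if_neg (by omega)]
  refine ⟨het, homogeneousComponent (t - e) g, homogeneousComponent_isHomogeneous _ _, ?_⟩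
  by_cases hr : t - e ∈ Finset.range (g.totalDegree + 1)
  · conv_lhs => rw [h1]
    rw [Finset.sum_eq_single (t - e)]
    · rw [if_pos (by omega)]
    · intro i _ hi
      rw [if_neg (by omega)]
    · intro h0
      exact absurd hr h0
  · exfalso
    apply hQ0
    rw [h1]
    refine Finset.sum_eq_zero fun i hi => ?_
    rw [if_neg]
    intro h0
    apply hr
    have : t - e = i := by omega
    rwa [this]

theorem mo (b : Basis (Fin n) k L) (I : Submodule (UL k L) (UL k L)) (hI : I ≠ ⊥) (c q : UL k L)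
    (hc : Cen c) (hc0 : c ≠ 0) (hq : ∀ w ∈ I, ∃ w' ∈ I, q * w = c * w') : ∃ v, q = c * v := by
  have key : ∀ (t : ℕ) (q : UL k L), q ∈ Fil b t → (∀ w ∈ I, ∃ w' ∈ I, q * w = c * w') →
      ∃ v, q = c * v := by
    intro t
    induction t with
    | zero =>
      intro q hqt _
      exact ⟨0, by rw [fil_zero b hqt, mul_zero]⟩
    | succ t ih =>
      intro q hqt hq
      by_cases hQ0 : sy b t q = 0
      · exact ih q (fil_of_sy b hqt hQ0) hq
      obtain ⟨w, hwI, hw0⟩ := (Submodule.ne_bot_iff I).1 hI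
      obtain ⟨s, hws, hS0⟩ := mo_exact b hw0
      obtain ⟨e, hce, hC0⟩ := mo_exact b hc0
      have hpow : ∀ m : ℕ, ∃ w' ∈ I, q ^ m * w = c ^ m * w' := by
        intro m
        induction m with
        | zero => exact ⟨w, hwI, by rw [pow_zero, pow_zero]⟩
        | succ m ihm =>
          obtain ⟨w', hw', h1⟩ := ihm
          obtain ⟨w'', hw'', h2⟩ := hq w' hw'
          refine ⟨w'', hw'', ?_⟩
          rw [pow_succ', mul_assoc, h1, ← mul_assoc, ← (hc.pow m) q, mul_assoc, h2, ← mul_assoc,
            ← pow_succ]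
      have hdvd : ∀ m : ℕ, (sy b e c) ^ m ∣ (sy b t q) ^ m * sy b s w := by
        intro m
        obtain ⟨w', hw', h1⟩ := hpow m
        obtain ⟨hq1, hq2⟩ := mo_pow b hqt m
        obtain ⟨hc1, hc2⟩ := mo_pow b hce m
        have h2 : sy b (t * m + s) (q ^ m * w) = (sy b t q) ^ m * sy b s w := by
          rw [sy_mul b hq1 hws, hq2]
        have h3 : sy b (t * m + s) (q ^ m * w) ≠ 0 := by
          rw [h2]
          exact mul_ne_zero (pow_ne_zero m hQ0) hS0
        have hw'0 : w' ≠ 0 := by
          rintro rfl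
          rw [mul_zero] at h1
          rw [h1, map_zero] at h3
          exact h3 rfl
        obtain ⟨s', hws', hS'0⟩ := mo_exact b hw'0
        have h4 : sy b (e * m + s') (c ^ m * w') = (sy b e c) ^ m * sy b s' w' := by
          rw [sy_mul b hc1 hws', hc2]
        have h5 : sy b (e * m + s') (c ^ m * w') ≠ 0 := by
          rw [h4]
          exact mul_ne_zero (pow_ne_zero m hC0) hS'0
        have h6 : q ^ m * w ∈ Fil b (t * m + s + 1) := fil_mul b hq1 hws
        have h7 : c ^ m * w' ∈ Fil b (e * m + s' + 1) := fil_mul b hc1 hws'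
        rw [← h1] at h7 h5 h4
        have h8 := mo_uniq b h6 h3 h7 h5
        rw [← h2, h8, h4]
        exact dvd_mul_right _ _
      obtain ⟨g, hg⟩ := dvd_of_pow_dvd _ _ _ hS0 hdvd
      obtain ⟨het, g', hg'h, hg'⟩ := mo_homog (sy_homog b e c) (sy_homog b t q) hQ0 hg
      obtain ⟨v, hv, hvg⟩ := exists_of_homog b hg'h
      have hcv : c * v ∈ Fil b (t + 1) := by
        have h1 := fil_mul b hce hv
        rwa [Nat.add_sub_cancel' het] at h1
      have hcvs : sy b t (c * v) = sy b t q := by
        have h1 := sy_mul b hce hv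
        rw [Nat.add_sub_cancel' het, hvg, ← hg'] at h1
        exact h1
      have hq' : q - c * v ∈ Fil b t := by
        refine fil_of_sy b (Submodule.sub_mem _ hqt hcv) ?_
        rw [map_sub, hcvs, sub_self]
      obtain ⟨v', hv'⟩ := ih (q - c * v) hq' (fun w hw => by
        obtain ⟨w', hw', h1⟩ := hq w hw
        refine ⟨w' - v * w, Submodule.sub_mem _ hw' (I.smul_mem v hw), ?_⟩
        rw [sub_mul, h1, mul_sub, mul_assoc])
      refine ⟨v' + v, ?_⟩
      rw [mul_add, ← hv']
      abel
  obtain ⟨m, hm⟩ := exists_fil b q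
  exact key (m + 1) q hm hq

end

end Pool.Agent.SkM
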