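import Pool.Agent.Lib.SkM.Ten

/-!
# Module Sq: `u_j^2` is central and `d^2 X(y) = ∑_j u_j^2 X([e_j, y])`

`sq_cen`: `[x, u_j^2] = [x,u_j] u_j + u_j [x,u_j]`, `[x,u_j]` is a combination of the `u_l` (`h.com`) and the `u`'s commute
(`h.cu`), so this is `2 u_j [x,u_j] = 0`; `cen_of_io`.

`sq_rel`: put `z_j = [e_j,y]`.  (a) `d * io (f y) = ∑_j u_j [e_j, f y]` (`h.rel`) and `[e_j, f y] = [f y, e_j] = [y,[y,e_j]] = [y, z_j] = y z_j + z_j y`
(`hf.lie`, characteristic two).  (b) `d * (y * y) = (d y) y = ∑_j u_j z_j y`.  So `d X(y) = ∑_j u_j y z_j` (characteristic two).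
(c) multiply by `d` (central): `d^2 X(y) = ∑_j u_j (d y) z_j = ∑_j ∑_l u_j u_l z_l z_j = ∑_j u_j^2 z_j^2 + ∑_{j<l} (u_j u_l z_l z_j + u_l u_j z_j z_l)`
`= ∑_j u_j^2 z_j^2 + ∑_{j<l} u_j u_l [z_l, z_j]` (`sum_pairs`, `h.cu`, `io_lie2`), and `z_j^2 = X(z_j) + f(z_j)`; then `mW`.
-/

set_option linter.unusedSectionVars false

namespace Pool.Agent.SkM

open Module MvPolynomial

open Pool.Agent.SkS (Rst)

noncomputable section

variable {k L : Type} [Field k] [CharP k 2] [LieRing L] [LieAlgebra k L] {n : ℕ}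

theorem sq_cen (b : Basis (Fin n) k L) {f : L → L} {u : Fin n → UL k L} {d : UL k L}
    (h : UT b f u d) (j : Fin n) : Cen (u j * u j) := by
  apply cen_of_io
  intro x
  set S : UL k L := ∑ l, (b.repr ⁅x, b l⁆ j) • u l with hS
  have e1 : io x * u j = u j * io x + S := by
    rw [hS, ← h.com x j, ← add_assoc, add_comm (u j * io x) (io x * u j), add_assoc,
      two_zero (k := k), add_zero]
  have e2 : S * u j = u j * S := by
    rw [hS, Finset.sum_mul, Finset.mul_sum]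
    refine Finset.sum_congr rfl (fun l _ => ?_)
    rw [smul_mul_assoc, mul_smul_comm, h.cu l j]
  have e3 : io x * (u j * u j) = u j * u j * io x + (u j * S + u j * S) := by
    rw [← mul_assoc, e1, add_mul, e2, mul_assoc, e1, mul_add, ← mul_assoc, add_assoc]
  rw [e3, two_zero (k := k), add_zero]

theorem sq_rel (b : Basis (Fin n) k L) {f : L → L} (hf : Rst k f) {u : Fin n → UL k L} {d : UL k L}
    (h : UT b f u d) (y : L) : d * d * Xc f y = ∑ j, u j * u j * Xc f ⁅b j, y⁆ := by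
  have c2 : ∀ a : UL k L, a + a = 0 := fun a => two_zero (k := k) a
  have hneg : ∀ a c : UL k L, a - c = a + c := fun a c => sub_eq_add' (k := k) a c
  -- (a), (b)
  have a1 : d * io (f y) = ∑ j, (u j * (io y * io ⁅b j, y⁆) + u j * (io ⁅b j, y⁆ * io y)) := by
    rw [← h.rel (f y)]
    refine Finset.sum_congr rfl (fun j _ => ?_)
    have e : ⁅b j, f y⁆ = ⁅y, ⁅b j, y⁆⁆ := by
      rw [← lie_skew (b j) (f y), hf.lie, ← lie_skew (b j) y, lie_neg]
    rw [e, io_lie2, mul_add]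
  have a2 : d * (io y * io y) = ∑ j, u j * (io ⁅b j, y⁆ * io y) := by
    rw [← mul_assoc, ← h.rel y, Finset.sum_mul]
    exact Finset.sum_congr rfl (fun j _ => mul_assoc _ _ _)
  have a3 : d * Xc f y = ∑ j, u j * (io y * io ⁅b j, y⁆) := by
    unfold Xc
    rw [mul_sub, hneg, a1, a2, Finset.sum_add_distrib, add_comm
      (∑ j, u j * (io y * io ⁅b j, y⁆)), ← add_assoc, c2, zero_add]
  -- (c)
  have a4 : d * d * Xc f y = ∑ j, ∑ l, u j * u l * (io ⁅b l, y⁆ * io ⁅b j, y⁆) := by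
    rw [mul_assoc, a3, Finset.mul_sum]
    refine Finset.sum_congr rfl (fun j _ => ?_)
    have e1 : d * (u j * (io y * io ⁅b j, y⁆)) = u j * ((d * io y) * io ⁅b j, y⁆) := by
      rw [← mul_assoc, h.cen (u j), mul_assoc, mul_assoc]
    rw [e1, ← h.rel y, Finset.sum_mul, Finset.mul_sum]
    refine Finset.sum_congr rfl (fun l _ => ?_)
    rw [mul_assoc, mul_assoc]
  have a5 : ∀ j, u j * u j * (io ⁅b j, y⁆ * io ⁅b j, y⁆) =
      u j * u j * Xc f ⁅b j, y⁆ + u j * u j * io (f ⁅b j, y⁆) := by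
    intro j
    unfold Xc
    rw [← mul_add, sub_add_cancel]
  have a6 : ∀ j l, u j * u l * (io ⁅b l, y⁆ * io ⁅b j, y⁆) +
      u l * u j * (io ⁅b j, y⁆ * io ⁅b l, y⁆) = u j * u l * io ⁅⁅b l, y⁆, ⁅b j, y⁆⁆ := by
    intro j l
    rw [h.cu l j, ← mul_add, io_lie2 ⁅b l, y⁆ ⁅b j, y⁆]
  rw [a4, sum_pairs, Finset.sum_congr rfl (fun j _ => a5 j), Finset.sum_add_distrib]
  have a7 : ∑ j, ∑ l ∈ Finset.Ioi j, (u j * u l * (io ⁅b l, y⁆ * io ⁅b j, y⁆) +
      u l * u j * (io ⁅b j, y⁆ * io ⁅b l, y⁆)) =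
      ∑ j, ∑ l ∈ Finset.Ioi j, u j * u l * io ⁅⁅b l, y⁆, ⁅b j, y⁆⁆ :=
    Finset.sum_congr rfl (fun j _ => Finset.sum_congr rfl (fun l _ => a6 j l))
  rw [a7, add_assoc, mW b hf h y, add_zero]

end

end Pool.Agent.SkM
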