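import Pool.Agent.Lib.SkM.Basic

/-!
# Module Words: the left ideal `I`

For a list `s : List (Fin n)` let `P(s) = (s.map q).prod`.  `I = {w : ∀ s, ∃ w', P(s) * w = d^(length s) * w'}`.
* `I` is a left ideal.  Sums: clear.  Left multiplication: it is enough to treat `algebraMap` and `io x` (`U_induction` on the multiplier: the set of `a`
with `a I ⊂ I` is closed under sums and products).  For `x ∈ L`: `P(s) x = x P(s) + ∑ (scalar) P(s')` with `length s' = length s`
(induction on `s` from `hx`; characteristic two), so `P(s) x w = x P(s) w + ∑ … ∈ d^(length s) U`, `d` central.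
* `d^n ∈ I`.  Claim: for every `s` there are a finset `S ⊂ Fin n` and a central `z` with
`d^(card S) * P(s) = d^(length s) * z * (∏ over S of q)` (use a product over `S` in any order: the `q_j` commute, e.g. define `QS S = ((S.sort (· ≤ ·)).map q).prod`
or state it with a list without duplicates: `∃ t : List (Fin n), t.Nodup ∧ ∃ z, Cen z ∧ d^(length t) * P(s) = d^(length s) * (z * P(t))`).
Step from `s` to `j :: s`: if `j ∉ t` take `j :: t`; if `j ∈ t`, `q_j P(t) = q_j^2 P(t.erase j) = d^2 r_j P(t.erase j)` (the `q`'s commute, `hsq`), and cancel one `d`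
(`U_cancel`).  As `length t ≤ n`: `P(s) d^n = d^(n - length t) d^(length t) P(s) ∈ d^(length s) U`.
* `q_j w = d w'` with `w' ∈ I`, for `w ∈ I`: `s = [j]` gives `w'`; for a list `s`: `P(s) d w' = P(s) q_j w = P(s ++ [j]) w ∈ d^(length s + 1) U`, cancel `d`.
-/

set_option linter.unusedSectionVars false

namespace Pool.Agent.SkM

open Module MvPolynomial

noncomputable section

variable {k L : Type} [Field k] [CharP k 2] [LieRing L] [LieAlgebra k L] {n : ℕ}

/-- products of words of length `m` span this space -/
private def WSp (q : Fin n → UL k L) (m : ℕ) : Submodule k (UL k L) :=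
  Submodule.span k {y | ∃ s : List (Fin n), s.length = m ∧ (s.map q).prod = y}

private lemma WSp_word (q : Fin n → UL k L) (s : List (Fin n)) : (s.map q).prod ∈ WSp q s.length :=
  Submodule.subset_span ⟨s, rfl, rfl⟩

private lemma WSp_mul (q : Fin n → UL k L) (m : ℕ) (j : Fin n) {y : UL k L} (hy : y ∈ WSp q m) :
    q j * y ∈ WSp q (m + 1) := by
  unfold WSp at hy
  induction hy using Submodule.span_induction with
  | mem y hy =>
    obtain ⟨s, hs, rfl⟩ := hy
    refine Submodule.subset_span ⟨j :: s, by rw [List.length_cons, hs], ?_⟩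
    rw [List.map_cons, List.prod_cons]
  | zero => rw [mul_zero]; exact Submodule.zero_mem _
  | add a b _ _ ha hb => rw [mul_add]; exact Submodule.add_mem _ ha hb
  | smul c a _ ha => rw [mul_smul_comm]; exact Submodule.smul_mem _ _ ha

private lemma word_comm (q : Fin n → UL k L)
    (hx : ∀ (x : L) (j : Fin n), ∃ c : Fin n → k, io x * q j + q j * io x = ∑ l, c l • q l)
    (x : L) (s : List (Fin n)) :
    (s.map q).prod * io x + io x * (s.map q).prod ∈ WSp q s.length := by
  induction s with
  | nil =>
    rw [List.map_nil, List.prod_nil, one_mul, mul_one, two_zero (k := k)]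
    exact Submodule.zero_mem _
  | cons j s ih =>
    obtain ⟨c, hc⟩ := hx x j
    have e : ((j :: s).map q).prod * io x + io x * ((j :: s).map q).prod =
        q j * ((s.map q).prod * io x + io x * (s.map q).prod) +
          (io x * q j + q j * io x) * (s.map q).prod := by
      rw [List.map_cons, List.prod_cons]
      have h2 := two_zero (k := k) (q j * io x * (s.map q).prod : UL k L)
      calc q j * (s.map q).prod * io x + io x * (q j * (s.map q).prod)
          = q j * (s.map q).prod * io x + io x * (q j * (s.map q).prod) +
            (q j * io x * (s.map q).prod + q j * io x * (s.map q).prod) := by rw [h2, add_zero]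
        _ = _ := by noncomm_ring
    rw [e, List.length_cons]
    refine Submodule.add_mem _ (WSp_mul q _ j ih) ?_
    rw [hc, Finset.sum_mul]
    refine Submodule.sum_mem _ fun l _ => ?_
    rw [smul_mul_assoc]
    exact Submodule.smul_mem _ _ (WSp_mul q _ l (WSp_word q s))

private lemma WSp_apply (q : Fin n → UL k L) (d : UL k L) {w : UL k L}
    (hw : ∀ s : List (Fin n), ∃ w', (s.map q).prod * w = d ^ s.length * w') (m : ℕ) {y : UL k L}
    (hy : y ∈ WSp q m) : ∃ w', y * w = d ^ m * w' := by
  unfold WSp at hy
  induction hy using Submodule.span_induction with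
  | mem y hy =>
    obtain ⟨s, rfl, rfl⟩ := hy
    exact hw s
  | zero => exact ⟨0, by rw [zero_mul, mul_zero]⟩
  | add a b _ _ ha hb =>
    obtain ⟨a', ha'⟩ := ha
    obtain ⟨b', hb'⟩ := hb
    exact ⟨a' + b', by rw [add_mul, ha', hb', mul_add]⟩
  | smul c a _ ha =>
    obtain ⟨a', ha'⟩ := ha
    exact ⟨c • a', by rw [smul_mul_assoc, ha', mul_smul_comm]⟩

/-- the left ideal -/
private def WI (q : Fin n → UL k L) (d : UL k L) (hd : Cen d)
    (hx : ∀ (x : L) (j : Fin n), ∃ c : Fin n → k, io x * q j + q j * io x = ∑ l, c l • q l) :
    Submodule (UL k L) (UL k L) where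
  carrier := {w | ∀ s : List (Fin n), ∃ w', (s.map q).prod * w = d ^ s.length * w'}
  add_mem' := by
    intro a b ha hb s
    obtain ⟨a', ha'⟩ := ha s
    obtain ⟨b', hb'⟩ := hb s
    exact ⟨a' + b', by rw [mul_add, ha', hb', mul_add]⟩
  zero_mem' := fun s => ⟨0, by rw [mul_zero, mul_zero]⟩
  smul_mem' := by
    intro a
    induction a using Pool.Agent.Lib.MP_fc2f40_al.PBW.U_induction with
    | algebraMap r =>
      intro w hw s
      obtain ⟨w', hw'⟩ := hw s
      refine ⟨r • w', ?_⟩
      rw [algebraMap_smul, mul_smul_comm, hw', mul_smul_comm]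
    | ι y =>
      intro w hw s
      obtain ⟨w', hw'⟩ := hw s
      obtain ⟨w'', hw''⟩ := WSp_apply q d hw s.length (word_comm q hx y s)
      refine ⟨io y * w' + w'', ?_⟩
      have h2 := two_zero (k := k) (io y * (s.map q).prod * w : UL k L)
      rw [smul_eq_mul, ← io_apply]
      calc (s.map q).prod * (io y * w)
          = (s.map q).prod * (io y * w) +
            (io y * (s.map q).prod * w + io y * (s.map q).prod * w) := by rw [h2, add_zero]
        _ = io y * ((s.map q).prod * w) +
            ((s.map q).prod * io y + io y * (s.map q).prod) * w := by noncomm_ring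
        _ = io y * (d ^ s.length * w') + d ^ s.length * w'' := by rw [hw', hw'']
        _ = d ^ s.length * (io y * w' + w'') := by
            rw [← mul_assoc, ← (hd.pow s.length) (io y), mul_add, mul_assoc]
    | mul a b ha hb =>
      intro w hw
      rw [mul_smul]
      exact ha (hb hw)
    | add a b ha hb =>
      intro w hw s
      obtain ⟨a', ha'⟩ := ha hw s
      obtain ⟨b', hb'⟩ := hb hw s
      exact ⟨a' + b', by rw [add_smul, mul_add, ha', hb', mul_add]⟩

private lemma word_perm (q : Fin n → UL k L) (hcomm : ∀ i j, q i * q j = q j * q i)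
    {s t : List (Fin n)} (h : s.Perm t) : (s.map q).prod = (t.map q).prod := by
  induction h with
  | nil => rfl
  | cons x _ ih => rw [List.map_cons, List.map_cons, List.prod_cons, List.prod_cons, ih]
  | swap x y l =>
    simp only [List.map_cons, List.prod_cons]
    rw [← mul_assoc, ← mul_assoc, hcomm]
  | trans _ _ h1 h2 => exact h1.trans h2

private lemma word_red (q : Fin n → UL k L) (d : UL k L) (hd : Cen d) (hd0 : d ≠ 0)
    (hcomm : ∀ i j, q i * q j = q j * q i)
    (hsq : ∀ j, ∃ r, Cen r ∧ q j * q j = d * d * r) (s : List (Fin n)) :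
    ∃ t : List (Fin n), t.Nodup ∧ ∃ z, Cen z ∧
      d ^ t.length * (s.map q).prod = d ^ s.length * (z * (t.map q).prod) := by
  induction s with
  | nil => exact ⟨[], List.nodup_nil, 1, cen_one, by simp⟩
  | cons j s ih =>
    obtain ⟨t, ht, z, hz, he⟩ := ih
    by_cases hj : j ∈ t
    · obtain ⟨r, hr, hrj⟩ := hsq j
      refine ⟨t.erase j, ht.erase j, z * r, hz.mul hr, ?_⟩
      have hp : (t.map q).prod = q j * ((t.erase j).map q).prod := by
        rw [word_perm q hcomm (List.perm_cons_erase hj), List.map_cons, List.prod_cons]
      have hl : t.length = (t.erase j).length + 1 := by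
        rw [List.length_erase_of_mem hj]
        have := List.length_pos_of_mem hj
        omega
      apply U_cancel hd0
      rw [List.map_cons, List.prod_cons, List.length_cons]
      generalize hT : (t.erase j).length = m at *
      generalize ((t.erase j).map q).prod = Q at *
      generalize (s.map q).prod = S at *
      rw [hl, hp] at he
      have hdm := hd.pow m
      have hds := hd.pow s.length
      calc d * (d ^ m * (q j * S)) = (d ^ (m + 1) * q j) * S := by
            rw [pow_succ' d m]; simp only [mul_assoc]
        _ = q j * (d ^ (m + 1) * S) := by rw [(hd.pow (m + 1)) (q j), mul_assoc]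
        _ = q j * (d ^ s.length * (z * (q j * Q))) := by rw [he]
        _ = (d ^ s.length * q j) * (z * (q j * Q)) := by rw [hds (q j), mul_assoc]
        _ = d ^ s.length * ((z * q j) * (q j * Q)) := by
            rw [hz (q j)]; simp only [mul_assoc]
        _ = d ^ s.length * (z * ((q j * q j) * Q)) := by simp only [mul_assoc]
        _ = d ^ s.length * (z * ((d * d * r) * Q)) := by rw [hrj]
        _ = d ^ s.length * ((z * d) * d * (r * Q)) := by simp only [mul_assoc]
        _ = d ^ s.length * ((d * z) * d * (r * Q)) := by rw [hz d]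
        _ = d ^ s.length * (d * ((z * d) * (r * Q))) := by simp only [mul_assoc]
        _ = d ^ s.length * (d * ((d * z) * (r * Q))) := by rw [hz d]
        _ = (d ^ s.length * d) * (d * (z * r * Q)) := by simp only [mul_assoc]
        _ = (d * d ^ s.length) * (d * (z * r * Q)) := by rw [hds d]
        _ = d * (d ^ (s.length + 1) * (z * r * Q)) := by
            rw [pow_succ]; simp only [mul_assoc]
    · refine ⟨j :: t, List.nodup_cons.2 ⟨hj, ht⟩, z, hz, ?_⟩
      rw [List.map_cons, List.prod_cons, List.map_cons, List.prod_cons, List.length_cons,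
        List.length_cons]
      generalize (t.map q).prod = T at *
      generalize (s.map q).prod = S at *
      calc d ^ (t.length + 1) * (q j * S) = d * (d ^ t.length * q j) * S := by
            rw [pow_succ']; simp only [mul_assoc]
        _ = d * q j * (d ^ t.length * S) := by rw [(hd.pow t.length) (q j)]; simp only [mul_assoc]
        _ = d * q j * (d ^ s.length * (z * T)) := by rw [he]
        _ = d * (d ^ s.length * q j) * (z * T) := by
            rw [(hd.pow s.length) (q j)]; simp only [mul_assoc]
        _ = d * d ^ s.length * ((z * q j) * T) := by rw [hz (q j)]; simp only [mul_assoc]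
        _ = d ^ (s.length + 1) * (z * (q j * T)) := by
            rw [pow_succ']; simp only [mul_assoc]

theorem words (q : Fin n → UL k L) (d : UL k L) (hd : Cen d) (hd0 : d ≠ 0)
    (hcomm : ∀ i j, q i * q j = q j * q i)
    (hx : ∀ (x : L) (j : Fin n), ∃ c : Fin n → k, io x * q j + q j * io x = ∑ l, c l • q l)
    (hsq : ∀ j, ∃ r, Cen r ∧ q j * q j = d * d * r) :
    ∃ I : Submodule (UL k L) (UL k L), I ≠ ⊥ ∧ ∀ j, ∀ w ∈ I, ∃ w' ∈ I, q j * w = d * w' := by
  refine ⟨WI q d hd hx, ?_, ?_⟩
  · have hmem : d ^ n ∈ WI q d hd hx := by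
      intro s
      obtain ⟨t, ht, z, hz, he⟩ := word_red q d hd hd0 hcomm hsq s
      have hle : t.length ≤ n := by
        have := ht.length_le_card
        rwa [Fintype.card_fin] at this
      refine ⟨d ^ (n - t.length) * (z * (t.map q).prod), ?_⟩
      have h1 : d ^ n = d ^ (n - t.length) * d ^ t.length := by
        rw [← pow_add, Nat.sub_add_cancel hle]
      rw [← (hd.pow n) (s.map q).prod, h1, mul_assoc, he, ← mul_assoc,
        (hd.pow (n - t.length)) (d ^ s.length), mul_assoc]
    have hne : d ^ n ≠ 0 := by
      clear hmem hx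
      have : ∀ m : ℕ, d ^ m ≠ 0 := by
        intro m
        induction m with
        | zero => rw [pow_zero]; exact U_one_ne
        | succ m ih => rw [pow_succ]; exact U_mul_ne ih hd0
      exact this n
    intro h
    rw [h, Submodule.mem_bot] at hmem
    exact hne hmem
  · intro j w hw
    obtain ⟨w', hw'⟩ := hw [j]
    have h1 : q j * w = d * w' := by simpa using hw'
    refine ⟨w', ?_, h1⟩
    intro s
    obtain ⟨w'', hw''⟩ := hw (s ++ [j])
    refine ⟨w'', U_cancel hd0 ?_⟩
    rw [List.map_append, List.prod_append, List.length_append] at hw''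
    simp only [List.map_cons, List.map_nil, List.prod_cons, List.prod_nil, mul_one,
      List.length_cons, List.length_nil, zero_add] at hw''
    rw [mul_assoc, h1, pow_add, pow_one] at hw''
    rw [← mul_assoc, hd, mul_assoc, hw'', (hd.pow s.length) d, mul_assoc]

end

end Pool.Agent.SkM
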