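import Pool.Agent.Lib.SkM.Ex
import Pool.Agent.Lib.SkM.CM1
import Pool.Agent.Lib.SkM.CM2
import Pool.Agent.Lib.SkM.Desc
import Pool.Agent.Lib.SkM.Sq
import Pool.Agent.Lib.SkM.Cr
import Pool.Agent.Lib.SkM.Mo
import Pool.Agent.Lib.SkM.Words
import Pool.Agent.Lib.SkS.Basic

/-!
# Module FinU: `Π û_j ∈ U`

`ut_of_uc`: `descent` with `A = Av u`, `h = hv b f u d`, (E1) `e1`, (E2) `e2`, (E6) `e6`; `Av u i j = 0` gives `u_i u_j = - u_j u_i = u_j u_i`.

`exists_v`: `u`, `d` from `exists_ud`, `uc_of_ud`, `ut_of_uc`.  `cramer` with `s_j = u_j^2` (`sq_cen`), `c = d^2` (`sq_rel`): `P u_j^2 = d^2 ρ_j`, `P = Pi hf b` central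
(it is in the center).  `q_j = P * u_j`: they commute; `[x, q_j] = P [x,u_j] = ∑ c^j(x,e_l) q_l`; `q_j^2 = P (P u_j^2) = d^2 (P ρ_j)`.  `words` and `mo` (with `c = d`, `q = q_j`)
give `v_j` with `P u_j = d v_j`.  Then cancel `d` (`U_cancel`): `rel`: `d ∑ v_j [e_j,y] = P ∑ u_j [e_j,y] = P d y`; `com`, `cv` (`d^2 v_i v_j = P^2 u_i u_j`),
`sq`: `d^2 P^2 X(y) = P^2 ∑ u_j^2 X([e_j,y]) = d^2 ∑ v_j^2 X([e_j,y])`.
-/

set_option linter.unusedSectionVars false

namespace Pool.Agent.SkM

open Module MvPolynomial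

open Pool.Agent.SkS (Rst Frz Nondeg)

noncomputable section

variable {k L : Type} [Field k] [CharP k 2] [LieRing L] [LieAlgebra k L] {n : ℕ}

theorem ut_of_uc (b : Basis (Fin n) k L) {f : L → L} (hf : Rst k f) (χ : Dual k L) (hχ : Nondeg χ)
    {u : Fin n → UL k L} {d : UL k L} (h : UC b u d) : UT b f u d := by
  obtain ⟨hA, hh⟩ := descent b χ hχ (Av u) (fun i j => add_comm _ _) (hv b f u d)
    (fun i => e1 b h i) (fun i y => e2 b hf h i y) (fun y => e6 b hf h y)
  refine { toUC := h, cu := ?_, tor := hh }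
  intro i j
  have h1 : u i * u j + u j * u i = 0 := hA i j
  rw [eq_neg_of_add_eq_zero_left h1, neg_eq (k := k)]

/-- the determinant is central -/
private lemma Pi_cen {f : L → L} (hf : Frz k f) (b : Basis (Fin n) k L) : Cen (Pi hf b) :=
  (cen_iff_mem_center _).2 (PiZ hf b).2

theorem exists_v {f : L → L} (hf : Frz k f) (b : Basis (Fin n) k L) (χ : Dual k L)
    (hχ : Nondeg χ) : ∃ v : Fin n → UL k L, UV b f (Pi hf b) v := by
  obtain ⟨u, d, hud⟩ := exists_ud hf b χ hχ
  have huc := uc_of_ud b χ hχ hud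
  have hut : UT b f u d := ut_of_uc b (Pool.Agent.SkS.rst_of_frz hf) χ hχ huc
  set P := Pi hf b with hP
  have hPc : Cen P := Pi_cen hf b
  have hd := hut.cen
  have hd0 := hut.ne
  obtain ⟨ρ, hρ, hρ2⟩ := cramer hf b (fun j => u j * u j) (d * d) (fun j => sq_cen b hut j)
    (hd.mul hd) (fun y => sq_rel b (Pool.Agent.SkS.rst_of_frz hf) hut y)
  rw [← hP] at hρ2
  have hcq : ∀ i j, (P * u i) * (P * u j) = (P * u j) * (P * u i) := by
    intro i j
    calc (P * u i) * (P * u j) = P * ((u i * P) * u j) := by simp only [mul_assoc]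
      _ = P * ((P * u i) * u j) := by rw [hPc (u i)]
      _ = P * (P * (u j * u i)) := by rw [mul_assoc, hut.cu i j]
      _ = P * ((P * u j) * u i) := by rw [mul_assoc P (u j)]
      _ = P * ((u j * P) * u i) := by rw [hPc (u j)]
      _ = _ := by simp only [mul_assoc]
  have hxq : ∀ (x : L) (j : Fin n), ∃ c : Fin n → k,
      io x * (P * u j) + (P * u j) * io x = ∑ l, c l • (P * u l) := by
    intro x j
    refine ⟨fun l => b.repr ⁅x, b l⁆ j, ?_⟩
    calc io x * (P * u j) + (P * u j) * io x = (io x * P) * u j + P * (u j * io x) := by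
          simp only [mul_assoc]
      _ = P * (io x * u j + u j * io x) := by rw [← hPc (io x), mul_add, mul_assoc]
      _ = P * ∑ l, (b.repr ⁅x, b l⁆ j) • u l := by rw [hut.com x j]
      _ = ∑ l, (b.repr ⁅x, b l⁆ j) • (P * u l) := by
          rw [Finset.mul_sum]
          exact Finset.sum_congr rfl fun l _ => mul_smul_comm _ _ _
  have hsq : ∀ j, ∃ r, Cen r ∧ (P * u j) * (P * u j) = d * d * r := by
    intro j
    refine ⟨P * ρ j, hPc.mul (hρ j), ?_⟩
    calc (P * u j) * (P * u j) = P * ((u j * P) * u j) := by simp only [mul_assoc]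
      _ = P * (P * (u j * u j)) := by rw [← hPc (u j), mul_assoc]
      _ = P * (d * d * ρ j) := by rw [hρ2 j]
      _ = (P * (d * d)) * ρ j := by rw [mul_assoc P (d * d)]
      _ = d * d * (P * ρ j) := by rw [hPc (d * d), mul_assoc]
  obtain ⟨I, hI, hq⟩ := words (fun j => P * u j) d hd hd0 hcq hxq hsq
  have hv : ∀ j, ∃ v, P * u j = d * v := fun j =>
    mo b I hI d (P * u j) hd hd0 (hq j)
  choose v hv using hv
  have hvd : ∀ (j : Fin n) (w : UL k L), d * (v j * w) = P * (u j * w) := by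
    intro j w
    rw [← mul_assoc, ← hv j, mul_assoc]
  refine ⟨v, ?_, ?_, ?_, ?_⟩
  · intro y
    apply U_cancel hd0
    rw [Finset.mul_sum]
    simp only [hvd]
    rw [← Finset.mul_sum, hut.rel y, ← mul_assoc, hPc d, mul_assoc]
  · intro x j
    apply U_cancel hd0
    rw [mul_add, hvd, ← mul_assoc, hd (io x), mul_assoc, ← hv j, ← mul_assoc, ← hPc (io x),
      mul_assoc, ← mul_add, hut.com x j, Finset.mul_sum, Finset.mul_sum]
    refine Finset.sum_congr rfl fun l _ => ?_
    rw [mul_smul_comm, mul_smul_comm, hv l]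
  · intro i j
    apply U_cancel hd0
    rw [hvd, hvd]
    apply U_cancel hd0
    have key : ∀ i j : Fin n, d * (P * (u i * v j)) = P * (P * (u i * u j)) := by
      intro i j
      calc d * (P * (u i * v j)) = (d * (P * u i)) * v j := by simp only [mul_assoc]
        _ = (P * u i) * (d * v j) := by rw [hd (P * u i), mul_assoc]
        _ = P * ((u i * P) * u j) := by rw [← hv j]; simp only [mul_assoc]
        _ = P * (P * (u i * u j)) := by rw [← hPc (u i), mul_assoc]
    rw [key, key, hut.cu]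
  · intro y
    apply U_cancel hd0
    apply U_cancel hd0
    have key : ∀ (j : Fin n) (w : UL k L), d * (d * (v j * v j * w)) = P * (P * (u j * u j * w)) := by
      intro j w
      calc d * (d * (v j * v j * w)) = d * (d * (v j * (v j * w))) := by simp only [mul_assoc]
        _ = d * (P * (u j * (v j * w))) := by rw [hvd]
        _ = (d * (P * u j)) * (v j * w) := by simp only [mul_assoc]
        _ = (P * u j) * (d * (v j * w)) := by rw [hd (P * u j), mul_assoc]
        _ = (P * u j) * (P * (u j * w)) := by rw [hvd]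
        _ = P * ((u j * P) * (u j * w)) := by simp only [mul_assoc]
        _ = P * ((P * u j) * (u j * w)) := by rw [← hPc (u j)]
        _ = _ := by simp only [mul_assoc]
    rw [Finset.mul_sum, Finset.mul_sum]
    simp only [key]
    rw [← Finset.mul_sum, ← Finset.mul_sum, ← sq_rel b (Pool.Agent.SkS.rst_of_frz hf) hut y]
    have h1 : d * (d * (P * P * Xc f y)) = (d * d * (P * P)) * Xc f y := by simp only [mul_assoc]
    have h2 : P * (P * (d * d * Xc f y)) = (P * P * (d * d)) * Xc f y := by simp only [mul_assoc]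
    rw [h1, h2, (hPc.mul hPc) (d * d)]

end

end Pool.Agent.SkM
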