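import Pool.Agent.Lib.SkM.Basic

/-!
# Module Geo: `rank (ad T) ≥ n/2`

`C = ker (ad T)` is isotropic for `B(x,y) = χ([x,y])`: for `a, a' ∈ C`: `[T,[a,a']] = 0` (Jacobi), so `χ([a,a']) = χ([T,[a,a']]) = 0`.
`B` is nondegenerate, so `dim C ≤ n/2`: the injective linear map `L → Dual k L`, `x ↦ B(x, ·)` sends `C` into the annihilator of `C` in `Dual k L`
(`Submodule.dualAnnihilator`), of dimension `n - dim C` (`Subspace.finrank_add_finrank_dualAnnihilator_eq`), so `dim C ≤ n - dim C`.
Rank-nullity: `dim range (ad T) = n - dim C ≥ n/2` (`LinearMap.finrank_range_add_finrank_ker`).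
-/

set_option linter.unusedSectionVars false

namespace Pool.Agent.SkM

open Module

open Pool.Agent.SkS (Nondeg)

noncomputable section

variable {k L : Type} [Field k] [LieRing L] [LieAlgebra k L]

theorem geo [FiniteDimensional k L] (χ : Dual k L) (hχ : Nondeg χ) (T : L)
    (hT : ∀ y : L, χ ⁅T, y⁆ = χ y) :
    finrank k L ≤ 2 * finrank k (LinearMap.range (LieAlgebra.ad k L T : L →ₗ[k] L)) := by
  set C : Submodule k L := LinearMap.ker (LieAlgebra.ad k L T : L →ₗ[k] L) with hC
  have hmem : ∀ a ∈ C, ⁅T, a⁆ = 0 := fun a ha => ha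
  have hiso : ∀ a ∈ C, ∀ a' ∈ C, χ ⁅a, a'⁆ = 0 := by
    intro a ha a' ha'
    rw [← hT ⁅a, a'⁆, leibniz_lie, hmem a ha, hmem a' ha', zero_lie, lie_zero, add_zero, map_zero]
  let Φ : L →ₗ[k] Dual k L :=
    { toFun := fun x => χ.comp (LieAlgebra.ad k L x : L →ₗ[k] L)
      map_add' := by
        intro x y
        ext z
        show χ ⁅x + y, z⁆ = χ ⁅x, z⁆ + χ ⁅y, z⁆
        rw [add_lie, map_add]
      map_smul' := by
        intro a x
        ext z
        show χ ⁅a • x, z⁆ = a • χ ⁅x, z⁆
        rw [smul_lie, map_smul] }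
  have hΦ : Function.Injective Φ := by
    rw [injective_iff_map_eq_zero]
    intro x hx
    refine hχ x fun y => ?_
    exact congrArg (fun f : Dual k L => f y) hx
  have hle : C.map Φ ≤ C.dualAnnihilator := by
    rintro _ ⟨a, ha, rfl⟩
    rw [Submodule.mem_dualAnnihilator]
    intro a' ha'
    exact hiso a ha a' ha'
  have h1 := Submodule.finrank_mono hle
  rw [← (Submodule.equivMapOfInjective Φ hΦ C).finrank_eq] at h1
  have h2 := Subspace.finrank_add_finrank_dualAnnihilator_eq C
  have h3 := LinearMap.finrank_range_add_finrank_ker (LieAlgebra.ad k L T : L →ₗ[k] L)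
  rw [← hC] at h3
  omega

end

end Pool.Agent.SkM
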