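import Pool.Agent.Lib.SkM.SY

/-!
# Module Ker: the matrix `([e_j, e_l])` has no kernel

`ker_lin`: the matrix `B j l = lin b [e_j, e_l]` over the domain `MvPolynomial (Fin n) k` has nonzero determinant: apply the ring
homomorphism `MvPolynomial.aeval (fun i => χ (b i))` (or `eval`), which sends `lin b x` to `χ x` (both sides linear in `x`, check on
the basis), to the determinant (`RingHom.map_det`): the matrix `(χ [e_j, e_l])` over `k` is invertible since a vector `a` with
`∑_j a_j χ[e_j, e_l] = 0` for all `l` gives `x = ∑ a_j e_j` with `χ[x,y] = 0` for all `y`, so `x = 0` by `Nondeg`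
(`Matrix.exists_vecMul_eq_zero_iff` : `(∃ v ≠ 0, vecMul v M = 0) ↔ M.det = 0`).  Then use
`Matrix.exists_vecMul_eq_zero_iff` (or `Matrix.eq_zero_of_vecMul_eq_zero`) over the polynomial ring.

`ker2`: apply `sy b (m+1)` to `∑_j w_j * io [e_j, e_l] ∈ Fil (m+1)`: it is `0` (`sy_of_fil`), and it is
`∑_j sy b m (w_j) * lin b [e_j,e_l]` (`sy_mul` with `a = m`, `c = 1`, `sy_io`); so `sy b m (w_j) = 0` and `w_j ∈ Fil m`
(`fil_of_sy`).

`inj`: choose `m` with all `w_j ∈ Fil (m+1)` (finite maximum, `exists_fil`, `fil_mono`) and descend with `ker2` to `Fil 0`.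
-/

set_option linter.unusedSectionVars false

namespace Pool.Agent.SkM

open Module MvPolynomial

open Pool.Agent.SkS (Nondeg)

noncomputable section

variable {k L : Type} [Field k] [LieRing L] [LieAlgebra k L] {n : ℕ}

theorem ker_lin (b : Basis (Fin n) k L) (χ : Dual k L) (hχ : Nondeg χ)
    (w : Fin n → MvPolynomial (Fin n) k) (h : ∀ l, ∑ j, w j * lin b ⁅b j, b l⁆ = 0) :
    ∀ j, w j = 0 := by
  classical
  set M : Matrix (Fin n) (Fin n) (MvPolynomial (Fin n) k) := fun j l => lin b ⁅b j, b l⁆ with hM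
  have hdet : M.det ≠ 0 := by
    intro h0
    let φ : MvPolynomial (Fin n) k →ₐ[k] k := MvPolynomial.aeval (fun i => χ (b i))
    have hφ : ∀ x : L, φ (lin b x) = χ x := by
      have h1 : φ.toLinearMap.comp (lin b) = χ := by
        refine b.ext fun i => ?_
        show φ (lin b (b i)) = χ (b i)
        unfold lin
        rw [Basis.constr_basis]
        exact MvPolynomial.aeval_X _ i
      exact fun x => congrArg (fun f => f x) h1
    have h1 : ((φ : MvPolynomial (Fin n) k →+* k).mapMatrix M).det = 0 := by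
      rw [← RingHom.map_det, h0, map_zero]
    obtain ⟨v, hv, hv0⟩ := Matrix.exists_vecMul_eq_zero_iff.2 h1
    refine hv ?_
    have h2 : ∑ j, v j • b j = 0 := by
      refine hχ _ fun y => ?_
      have h3 : ∀ l, χ ⁅∑ j, v j • b j, b l⁆ = 0 := by
        intro l
        have h4 := congrFun hv0 l
        rw [sum_lie, map_sum]
        have h5 : ∑ j, v j * χ ⁅b j, b l⁆ = 0 := by
          have h6 : ∑ j, v j * (φ (lin b ⁅b j, b l⁆)) = 0 := h4
          simp only [hφ] at h6
          exact h6
        rw [← h5]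
        refine Finset.sum_congr rfl fun j _ => ?_
        rw [smul_lie, map_smul, smul_eq_mul]
      rw [← b.sum_repr y, lie_sum, map_sum]
      refine Finset.sum_eq_zero fun l _ => ?_
      rw [lie_smul, map_smul, h3 l, smul_zero]
    have h3 := Fintype.linearIndependent_iff.1 b.linearIndependent v h2
    exact funext h3
  have h1 : Matrix.vecMul w M = 0 := by
    funext l
    exact h l
  intro j
  exact congrFun (Matrix.eq_zero_of_vecMul_eq_zero hdet h1) j

theorem ker2 (b : Basis (Fin n) k L) (χ : Dual k L) (hχ : Nondeg χ) (m : ℕ) (w : Fin n → UL k L)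
    (hw : ∀ j, w j ∈ Fil b (m + 1)) (h : ∀ l, ∑ j, w j * io ⁅b j, b l⁆ ∈ Fil b (m + 1)) :
    ∀ j, w j ∈ Fil b m := by
  have h1 : ∀ j, sy b m (w j) = 0 := by
    refine ker_lin b χ hχ (fun j => sy b m (w j)) fun l => ?_
    have h2 := sy_of_fil b (h l) le_rfl
    rw [map_sum] at h2
    rw [← h2]
    refine Finset.sum_congr rfl fun j _ => ?_
    rw [sy_mul b (hw j) (io_mem b _), sy_io]
  exact fun j => fil_of_sy b (hw j) (h1 j)

theorem inj (b : Basis (Fin n) k L) (χ : Dual k L) (hχ : Nondeg χ) (w : Fin n → UL k L)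
    (h : ∀ l, ∑ j, w j * io ⁅b j, b l⁆ = 0) : ∀ j, w j = 0 := by
  have h1 : ∀ m : ℕ, (∀ j, w j ∈ Fil b m) → ∀ j, w j = 0 := by
    intro m
    induction m with
    | zero => exact fun hm j => fil_zero b (hm j)
    | succ m ih =>
      intro hm
      refine ih (ker2 b χ hχ m w hm fun l => ?_)
      rw [h l]
      exact zero_mem _
  choose m hm using fun j => exists_fil b (w j)
  refine h1 (∑ j, (m j + 1)) fun j => fil_mono b ?_ (hm j)
  exact Finset.single_le_sum (f := fun j => m j + 1) (fun _ _ => Nat.zero_le _) (Finset.mem_univ j)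

end

end Pool.Agent.SkM
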