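import Pool.Agent.Lib.SkM.Prod

/-!
# Module Low: the lower bound `2^{rank ad T} ≤ dim V`

Let `r = dim range (ad T)`; choose a basis of the range `R = range (ad T) ⊂ L`, `[T, y_s]`, `s : Fin r`, and linear forms `ℓ_i` on `L`
with `ℓ_i ([T,y_s]) = δ_{is}` (extend the basis / `Basis.extend`, or: `R` has a basis `c`, `ℓ_i` = an extension of `c.coord i` to `L`,
`LinearMap.exists_extend`).  In characteristic two `[y_s, T] = [T, y_s]`.  Apply `prod_ne_zero` with `x_s = ρ (y_s)`, `c_{sj} = π co_j([y_s,T])`,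
`e_{sjl} = co_j([y_s,e_l])`, `a_{ij} = ℓ_i(e_j)`: `∑_j a_{ij} c_{sj} = π ℓ_i([y_s,T]) = π δ_{is}`; `E = End k V` is nontrivial.
The operators `M_i = ∑_j a_{ij} N_j` commute and have square zero (characteristic two), so `two_pow_le` gives the bound.
-/

set_option linter.unusedSectionVars false

namespace Pool.Agent.SkM

open Module

noncomputable section

variable {k L : Type} [Field k] [CharP k 2] [LieRing L] [LieAlgebra k L] {n : ℕ}

private theorem Low_sq {E : Type} [Ring E] [Algebra k E] (h2 : ∀ z : E, z + z = 0) (N : Fin n → E)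
    (hc : ∀ i j, N i * N j = N j * N i) (hs : ∀ j, N j * N j = 0) (a : Fin n → k)
    (s : Finset (Fin n)) : (∑ j ∈ s, a j • N j) * (∑ j ∈ s, a j • N j) = 0 := by
  classical
  induction s using Finset.induction_on with
  | empty => rw [Finset.sum_empty, mul_zero]
  | insert j s hj ih =>
    rw [Finset.sum_insert hj]
    have hcomm : (a j • N j) * (∑ i ∈ s, a i • N i) = (∑ i ∈ s, a i • N i) * (a j • N j) := by
      rw [Finset.mul_sum, Finset.sum_mul]
      refine Finset.sum_congr rfl fun i _ => ?_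
      rw [smul_mul_smul_comm, smul_mul_smul_comm, hc j i, mul_comm (a j) (a i)]
    have h1 : (a j • N j) * (a j • N j) = 0 := by
      rw [smul_mul_smul_comm, hs, smul_zero]
    rw [add_mul, mul_add, mul_add, h1, ih, hcomm, zero_add, add_zero, h2]

theorem lower (b : Basis (Fin n) k L) (T : L) (π : k) (hπ : π ≠ 0) {V : Type} [AddCommGroup V]
    [Module k V] [FiniteDimensional k V] [Nontrivial V] (ρ : L →ₗ[k] End k V) (N : Fin n → End k V)
    (hc : ∀ i j, N i * N j = N j * N i) (hs : ∀ j, N j * N j = 0)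
    (hN : ∀ (y : L) (j : Fin n), ρ y * N j + N j * ρ y =
        (π * b.repr ⁅y, T⁆ j) • (1 : End k V) + ∑ l, (b.repr ⁅y, b l⁆ j) • N l) :
    2 ^ finrank k (LinearMap.range (LieAlgebra.ad k L T : L →ₗ[k] L)) ≤ finrank k V := by
  classical
  have h2 : ∀ z : End k V, z + z = 0 := by
    intro z
    rw [← two_smul k z, CharTwo.two_eq_zero, zero_smul]
  have hfin : FiniteDimensional k L := Module.Finite.of_basis b
  set R : Submodule k L := LinearMap.range (LieAlgebra.ad k L T : L →ₗ[k] L) with hR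
  let c : Basis (Fin (finrank k R)) k R := finBasis k R
  have hy : ∀ s, ∃ y : L, ⁅T, y⁆ = ((c s : R) : L) := fun s => by
    obtain ⟨y, hy⟩ := (c s).2
    exact ⟨y, hy⟩
  choose y hy using hy
  have hl : ∀ i, ∃ l : L →ₗ[k] k, l ∘ₗ R.subtype = c.coord i := fun i =>
    LinearMap.exists_extend _
  choose l hl using hl
  have hls : ∀ i s, l i ⁅y s, T⁆ = if s = i then 1 else 0 := by
    intro i s
    have h3 : ⁅y s, T⁆ = -((c s : R) : L) := by rw [← hy s, lie_skew]
    have h4 : l i ((c s : R) : L) = if s = i then 1 else 0 := by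
      have h5 := congrArg (fun f : R →ₗ[k] k => f (c s)) (hl i)
      have h6 : l i ((c s : R) : L) = c.coord i (c s) := h5
      rw [h6, Basis.coord_apply, Basis.repr_self, Finsupp.single_apply]
    rw [h3, map_neg, CharTwo.neg_eq, h4]
  have hprod := prod_ne_zero N hc hs (fun s => ρ (y s))
    (fun s j => π * b.repr ⁅y s, T⁆ j) (fun s j l => b.repr ⁅y s, b l⁆ j)
    (fun s j => hN (y s) j) (fun i j => l i (b j)) π hπ (by
      intro s i
      have h3 : ∑ j, l i (b j) * (π * b.repr ⁅y s, T⁆ j) = π * l i ⁅y s, T⁆ := by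
        conv_rhs => rw [← b.sum_repr ⁅y s, T⁆, map_sum, Finset.mul_sum]
        refine Finset.sum_congr rfl fun j _ => ?_
        rw [map_smul, smul_eq_mul]; ring
      rw [h3, hls]
      split_ifs
      · rw [mul_one]
      · rw [mul_zero])
  refine two_pow_le (fun i => ∑ j, (l i (b j)) • N j) ?_ ?_ hprod
  · intro i i'
    show (∑ j, (l i (b j)) • N j) * (∑ j, (l i' (b j)) • N j) =
      (∑ j, (l i' (b j)) • N j) * (∑ j, (l i (b j)) • N j)
    rw [Finset.sum_mul_sum, Finset.sum_mul_sum, Finset.sum_comm]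
    refine Finset.sum_congr rfl fun j _ => Finset.sum_congr rfl fun j' _ => ?_
    rw [smul_mul_smul_comm, smul_mul_smul_comm, hc j' j, mul_comm (l i (b j'))]
  · intro i
    exact Low_sq h2 N hc hs _ _

end

end Pool.Agent.SkM
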