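import Pool.Agent.Lib.SkM.Cr
import Pool.Agent.Lib.SkS.Basic

/-!
# Module Rep1: the operators `n_j` on a representation with character `χ`

`hρ : Rep f χ ρ` says `ρ [x,y] = ρ x ρ y - ρ y ρ x` and `ρ x ρ x = ρ (f x) + χ(x)^2`.  So `ρ` extends to an algebra homomorphism
`R : U → End k V` (`UniversalEnvelopingAlgebra.lift`, `ρ` is a Lie homomorphism for `LieRing.ofAssociativeRing`; see
`attribute [local instance 100] LieRing.ofAssociativeRing` in SkS/Basic.lean), `R (io x) = ρ x`, `R (Xc f y) = χ(y)^2`.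
`Π = Pi hf b` goes to `π = det (χ([e_j,e_l])^2)`: the ring homomorphism `Z → End k V` sends `XZ hf y` to a scalar; to avoid commutativity
problems: the set of `z ∈ Z` with `R z` scalar is a subring and the map to the scalars is a ring homomorphism
(e.g. apply the determinant through `Matrix.det_apply`, products and sums of scalars `algebraMap k (End k V) _`).
`π ≠ 0`: the matrix `(χ([e_j,e_l])^2)` is the Frobenius image of the invertible matrix `(χ([e_j,e_l]))` (`frobenius k 2`, `RingHom.map_det`), invertible by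
`Nondeg` (`Matrix.exists_vecMul_eq_zero_iff`).
`T`: the linear map `L → Dual k L`, `x ↦ (y ↦ χ[x,y])` is injective, hence bijective (`L` has the finite basis `b`): there is `T` with `χ[T,y] = χ(y)` for all `y`.
`N'_j = R(v_j)`; `n_j = N'_j + π T_j`, `T_j = b.repr T j`.  The `N'_j` commute.  Applying `R` to `hv.sq`: `∑_j χ([e_j,y])^2 N'_j^2 = π^2 χ(y)^2` and
`χ(y) = χ([T,y]) = ∑_j T_j χ([e_j,y])`, so (squares are additive in characteristic two) `∑_j χ([e_j,e_l])^2 (N'_j^2 + π^2 T_j^2) = 0` for all `l`; the matrix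
`(χ([e_j,e_l])^2)` is invertible, so `N'_j^2 = π^2 T_j^2` and `n_j^2 = N'_j^2 + π^2 T_j^2 = 0` (characteristic two).
`[ρ y, n_j] = [ρ y, N'_j] = ∑_l co_j([y,e_l]) N'_l = ∑_l co_j([y,e_l]) n_l + π ∑_l T_l co_j([y,e_l])` and `∑_l T_l [y,e_l] = [y,T]`.
-/

set_option linter.unusedSectionVars false

namespace Pool.Agent.SkM

open Module MvPolynomial

open Pool.Agent.SkS (Rst Frz Nondeg Rep)

noncomputable section

variable {k L : Type} [Field k] [CharP k 2] [LieRing L] [LieAlgebra k L] {n : ℕ}

attribute [local instance 100] LieRing.ofAssociativeRing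

/-- the extension to the enveloping algebra -/
private lemma rep1_exists {f : L → L} (χ : Dual k L) {V : Type} [AddCommGroup V]
    [Module k V] (ρ : L →ₗ[k] End k V) (hρ : Rep f χ ρ) :
    ∃ R : UL k L →ₐ[k] End k V, (∀ x : L, R (io x) = ρ x) ∧
      ∀ y : L, R (Xc f y) = algebraMap k (End k V) (χ y ^ 2) := by
  let φ : L →ₗ⁅k⁆ End k V :=
    { ρ with
      map_lie' := by
        intro x y
        change ρ ⁅x, y⁆ = ⁅ρ x, ρ y⁆
        rw [LieRing.of_associative_ring_bracket]
        exact hρ.lie x y }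
  refine ⟨UniversalEnvelopingAlgebra.lift k φ, ?_, ?_⟩
  · intro x
    exact UniversalEnvelopingAlgebra.lift_ι_apply k φ x
  · intro y
    have h1 : ∀ x : L, UniversalEnvelopingAlgebra.lift k φ (io x) = ρ x := fun x =>
      UniversalEnvelopingAlgebra.lift_ι_apply k φ x
    unfold Xc
    rw [map_sub, map_mul, h1, h1, hρ.sq y]
    abel

private lemma rep1_prod {A : Type} [Ring A] [Algebra k A] {Z : Type} [CommRing Z] [Algebra k Z]
    (R : Z →ₐ[k] A) {ι : Type} (s : Finset ι) (g : ι → Z) (c : ι → k)
    (h : ∀ i, R (g i) = algebraMap k A (c i)) :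
    R (∏ i ∈ s, g i) = algebraMap k A (∏ i ∈ s, c i) := by
  classical
  induction s using Finset.induction_on with
  | empty => simp
  | insert a s ha ih =>
    rw [Finset.prod_insert ha, Finset.prod_insert ha, map_mul, ih, h, map_mul]

private lemma rep1_det {A : Type} [Ring A] [Algebra k A] {Z : Type} [CommRing Z] [Algebra k Z]
    (R : Z →ₐ[k] A) (M : Matrix (Fin n) (Fin n) Z) (C : Matrix (Fin n) (Fin n) k)
    (h : ∀ i j, R (M i j) = algebraMap k A (C i j)) : R M.det = algebraMap k A C.det := by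
  rw [Matrix.det_apply', Matrix.det_apply', map_sum, map_sum]
  refine Finset.sum_congr rfl (fun σ _ => ?_)
  rw [map_mul, map_mul, map_intCast, map_intCast,
    rep1_prod R Finset.univ (fun i => M (σ i) i) (fun i => C (σ i) i) (fun i => h _ _)]

private lemma rep1_ndet (b : Basis (Fin n) k L) (χ : Dual k L) (hχ : Nondeg χ) :
    (Matrix.of (fun j l : Fin n => χ ⁅b j, b l⁆)).det ≠ 0 := by
  intro h0
  obtain ⟨w, hw, hw0⟩ := Matrix.exists_vecMul_eq_zero_iff.2 h0
  apply hw
  have h1 : ∀ l, χ ⁅∑ j, w j • b j, b l⁆ = 0 := by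
    intro l
    have h2 := congrFun hw0 l
    rw [Matrix.vecMul, dotProduct] at h2
    simp only [Matrix.of_apply, Pi.zero_apply] at h2
    rw [sum_lie, map_sum, ← h2]
    refine Finset.sum_congr rfl (fun j _ => ?_)
    rw [smul_lie, map_smul, smul_eq_mul]
  have h3 : ∀ y, χ ⁅∑ j, w j • b j, y⁆ = 0 := by
    intro y
    rw [← b.sum_repr y, lie_sum, map_sum]
    refine Finset.sum_eq_zero (fun l _ => ?_)
    rw [lie_smul, map_smul, h1, smul_zero]
  have h4 := hχ _ h3
  funext j
  have h5 := b.linearIndependent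
  rw [Fintype.linearIndependent_iff] at h5
  exact h5 w h4 j

theorem rep_data {f : L → L} (hf : Frz k f) (b : Basis (Fin n) k L) (χ : Dual k L)
    (hχ : Nondeg χ) {v : Fin n → UL k L} (hv : UV b f (Pi hf b) v) {V : Type} [AddCommGroup V]
    [Module k V] (ρ : L →ₗ[k] End k V) (hρ : Rep f χ ρ) :
    ∃ (T : L) (π : k) (N : Fin n → End k V), π ≠ 0 ∧ (∀ y : L, χ ⁅T, y⁆ = χ y) ∧
      (∀ i j, N i * N j = N j * N i) ∧ (∀ j, N j * N j = 0) ∧
      ∀ (y : L) (j : Fin n), ρ y * N j + N j * ρ y =
        (π * b.repr ⁅y, T⁆ j) • (1 : End k V) + ∑ l, (b.repr ⁅y, b l⁆ j) • N l := by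
  classical
  obtain ⟨R, hR, hRX⟩ := rep1_exists (k := k) χ ρ hρ
  have c2 : ∀ a : End k V, a + a = 0 := fun a => two_zero (k := k) a
  set B : Matrix (Fin n) (Fin n) k := Matrix.of (fun j l : Fin n => χ ⁅b j, b l⁆) with hB
  have hBdet : B.det ≠ 0 := rep1_ndet b χ hχ
  set C : Matrix (Fin n) (Fin n) k := Matrix.of (fun j l : Fin n => χ ⁅b j, b l⁆ ^ 2) with hC
  have hCdet : C.det ≠ 0 := by
    have e : C = (frobenius k 2).mapMatrix B := by
      ext j l
      rw [hC, hB, RingHom.mapMatrix_apply, Matrix.map_apply, Matrix.of_apply, Matrix.of_apply,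
        frobenius_def]
    rw [e, ← RingHom.map_det, frobenius_def]
    exact pow_ne_zero _ hBdet
  set π : k := C.det with hπ
  -- the image of the determinant
  have hP : R (Pi hf b) = algebraMap k (End k V) π := by
    have h := rep1_det (R.comp (Subalgebra.val (Subalgebra.center k (UL k L))))
      (Matrix.of (fun j l : Fin n => XZ hf ⁅b j, b l⁆)) C (fun i j => hRX _)
    exact h
  -- the element `T`
  set t : Fin n → k := Matrix.vecMul (fun l => χ (b l)) B⁻¹ with ht
  have htB : Matrix.vecMul t B = fun l => χ (b l) := by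
    rw [ht, Matrix.vecMul_vecMul, Matrix.nonsing_inv_mul _ (isUnit_iff_ne_zero.2 hBdet),
      Matrix.vecMul_one]
  have hTl : ∀ l, ∑ j, t j * χ ⁅b j, b l⁆ = χ (b l) := by
    intro l
    have h := congrFun htB l
    rw [Matrix.vecMul, dotProduct] at h
    simpa only [hB, Matrix.of_apply] using h
  set T : L := ∑ j, t j • b j with hT
  have hTrepr : ∀ y : L, ∀ j, b.repr ⁅y, T⁆ j = ∑ l, t l * b.repr ⁅y, b l⁆ j := by
    intro y j
    rw [hT, lie_sum, map_sum, Finsupp.finsetSum_apply]
    refine Finset.sum_congr rfl (fun l _ => ?_)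
    rw [lie_smul, map_smul, Finsupp.smul_apply, smul_eq_mul]
  have hTb : ∀ l, χ ⁅T, b l⁆ = χ (b l) := by
    intro l
    rw [hT, sum_lie, map_sum, ← hTl l]
    refine Finset.sum_congr rfl (fun j _ => ?_)
    rw [smul_lie, map_smul, smul_eq_mul]
  have hTy : ∀ y : L, χ ⁅T, y⁆ = χ y := by
    intro y
    conv_lhs => rw [← b.sum_repr y]
    conv_rhs => rw [← b.sum_repr y]
    rw [lie_sum, map_sum, map_sum]
    refine Finset.sum_congr rfl (fun l _ => ?_)
    rw [lie_smul, map_smul, map_smul, hTb]
  -- the squares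
  set D : Fin n → End k V := fun j => R (v j) * R (v j) - algebraMap k (End k V) ((π * t j) ^ 2)
    with hD
  have hDl : ∀ l, ∑ j, C j l • D j = 0 := by
    intro l
    have h1 := congrArg R (hv.sq (b l))
    rw [map_mul, map_mul, hP, hRX, map_sum] at h1
    have h2 : ∀ j, R (v j * v j * Xc f ⁅b j, b l⁆) = C j l • (R (v j) * R (v j)) := by
      intro j
      rw [map_mul, map_mul, hRX, ← Algebra.commutes, ← Algebra.smul_def, hC, Matrix.of_apply]
    rw [Finset.sum_congr rfl (fun j _ => h2 j), ← map_mul, ← map_mul] at h1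
    have h3 : ∑ j, C j l • D j = ∑ j, C j l • (R (v j) * R (v j)) -
        ∑ j, C j l • algebraMap k (End k V) ((π * t j) ^ 2) := by
      rw [← Finset.sum_sub_distrib]
      exact Finset.sum_congr rfl (fun j _ => smul_sub _ _ _)
    have h4 : ∑ j, C j l • algebraMap k (End k V) ((π * t j) ^ 2) =
        algebraMap k (End k V) (π * π * χ (b l) ^ 2) := by
      have e1 : ∀ j ∈ Finset.univ, C j l • algebraMap k (End k V) ((π * t j) ^ 2) =
          algebraMap k (End k V) (C j l * (π * t j) ^ 2) := by
        intro j _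
        rw [Algebra.smul_def, ← map_mul]
      rw [Finset.sum_congr rfl e1, ← map_sum]
      congr 1
      rw [← hTl l, sum_pow_char, Finset.mul_sum]
      refine Finset.sum_congr rfl (fun j _ => ?_)
      rw [hC, Matrix.of_apply]
      ring
    rw [h3, h4, ← h1, sub_self]
  have hD0 : ∀ m, D m = 0 := by
    intro m
    have hCu : C * C⁻¹ = 1 := Matrix.mul_nonsing_inv _ (isUnit_iff_ne_zero.2 hCdet)
    have h1 : ∑ l, (C⁻¹ l m) • ∑ j, C j l • D j = D m := by
      have e1 : ∀ l ∈ Finset.univ, (C⁻¹ l m) • ∑ j, C j l • D j =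
          ∑ j, (C j l * C⁻¹ l m) • D j := by
        intro l _
        rw [Finset.smul_sum]
        refine Finset.sum_congr rfl (fun j _ => ?_)
        rw [smul_smul, mul_comm]
      rw [Finset.sum_congr rfl e1, Finset.sum_comm]
      have e2 : ∀ j ∈ Finset.univ, ∑ l, (C j l * C⁻¹ l m) • D j =
          ((1 : Matrix (Fin n) (Fin n) k) j m) • D j := by
        intro j _
        rw [← Finset.sum_smul, ← hCu, Matrix.mul_apply]
      rw [Finset.sum_congr rfl e2, Finset.sum_eq_single m]
      · rw [Matrix.one_apply_eq, one_smul]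
      · intro j _ hj
        rw [Matrix.one_apply_ne hj, zero_smul]
      · intro h
        exact absurd (Finset.mem_univ m) h
    rw [← h1]
    refine Finset.sum_eq_zero (fun l _ => ?_)
    rw [hDl l, smul_zero]
  have hsq : ∀ j, R (v j) * R (v j) = algebraMap k (End k V) ((π * t j) ^ 2) := fun j =>
    sub_eq_zero.1 (hD0 j)
  refine ⟨T, π, fun j => R (v j) + algebraMap k (End k V) (π * t j), hCdet, hTy, ?_, ?_, ?_⟩
  · intro i j
    have h1 : R (v i) * R (v j) = R (v j) * R (v i) := by
      rw [← map_mul, ← map_mul, hv.cv]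
    have h2 : algebraMap k (End k V) (π * t i) * R (v j) =
      R (v j) * algebraMap k (End k V) (π * t i) := Algebra.commutes _ _
    have h3 : algebraMap k (End k V) (π * t j) * R (v i) =
      R (v i) * algebraMap k (End k V) (π * t j) := Algebra.commutes _ _
    have h4 : algebraMap k (End k V) (π * t i) * algebraMap k (End k V) (π * t j) =
      algebraMap k (End k V) (π * t j) * algebraMap k (End k V) (π * t i) := Algebra.commutes _ _
    rw [add_mul, mul_add, mul_add, add_mul, mul_add, mul_add, h1, h2, h3, h4]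
    abel
  · intro j
    have h2 : algebraMap k (End k V) (π * t j) * R (v j) =
      R (v j) * algebraMap k (End k V) (π * t j) := Algebra.commutes _ _
    have h5 : algebraMap k (End k V) (π * t j) * algebraMap k (End k V) (π * t j) =
        algebraMap k (End k V) ((π * t j) ^ 2) := by
      rw [← map_mul, sq]
    have h6 : (R (v j) + algebraMap k (End k V) (π * t j)) *
        (R (v j) + algebraMap k (End k V) (π * t j)) =
        (R (v j) * R (v j) + algebraMap k (End k V) (π * t j) * algebraMap k (End k V) (π * t j)) +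
        (R (v j) * algebraMap k (End k V) (π * t j) +
          algebraMap k (End k V) (π * t j) * R (v j)) := by noncomm_ring
    rw [h6, h2, h5, hsq, c2, c2, add_zero]
  · intro y j
    have h1 := congrArg R (hv.com y j)
    rw [map_add, map_mul, map_mul, hR, map_sum] at h1
    have h2 : algebraMap k (End k V) (π * t j) * ρ y =
      ρ y * algebraMap k (End k V) (π * t j) := Algebra.commutes _ _
    have h3 : ρ y * (R (v j) + algebraMap k (End k V) (π * t j)) +
        (R (v j) + algebraMap k (End k V) (π * t j)) * ρ y =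
        (ρ y * R (v j) + R (v j) * ρ y) + (ρ y * algebraMap k (End k V) (π * t j) +
          algebraMap k (End k V) (π * t j) * ρ y) := by noncomm_ring
    rw [h3, h2, c2, add_zero, h1]
    have h4 : ∑ l, (b.repr ⁅y, b l⁆ j) • (R (v l) + algebraMap k (End k V) (π * t l)) =
        ∑ l, R ((b.repr ⁅y, b l⁆ j) • v l) + (π * b.repr ⁅y, T⁆ j) • (1 : End k V) := by
      have e1 : ∀ l ∈ Finset.univ, (b.repr ⁅y, b l⁆ j) •
          (R (v l) + algebraMap k (End k V) (π * t l)) = R ((b.repr ⁅y, b l⁆ j) • v l) +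
            algebraMap k (End k V) (b.repr ⁅y, b l⁆ j * (π * t l)) := by
        intro l _
        rw [smul_add, map_smul, Algebra.smul_def (b.repr ⁅y, b l⁆ j)
          (algebraMap k (End k V) (π * t l)), ← map_mul]
      rw [Finset.sum_congr rfl e1, Finset.sum_add_distrib, ← map_sum, ← map_sum]
      congr 1
      rw [hTrepr, Finset.mul_sum, Algebra.algebraMap_eq_smul_one]
      congr 1
      refine Finset.sum_congr rfl (fun l _ => ?_)
      ring
    rw [h4, add_comm (∑ l, R ((b.repr ⁅y, b l⁆ j) • v l)), ← add_assoc, c2, zero_add]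

end

end Pool.Agent.SkM
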