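import Pool.Agent.Lib.SkM.FinU
import Pool.Agent.Lib.SkM.Rep1
import Pool.Agent.Lib.SkM.Geo
import Pool.Agent.Lib.SkM.Low
import Pool.Agent.Lib.SkS.Bridge

/-!
# Main theorem: in characteristic two, `Z_L(χ) = 0` implies that `u(L, χ)` is simple
-/

set_option linter.unusedSectionVars false

namespace Pool.Agent.SkM

open Module

open Pool.Agent.SkS (Rst Frz Nondeg Rep Irr Big UU simple_of_big)

variable {k L : Type} [Field k] [CharP k 2] [LieRing L] [LieAlgebra k L] [FiniteDimensional k L]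

theorem big {f : L → L} (hf : Frz k f) (χ : Dual k L) (hχ : Nondeg χ) : Big f χ := by
  intro V _ _ _ ρ hρ hI
  have hV : Nontrivial V := hI.1
  let b := Module.finBasis k L
  obtain ⟨v, hv⟩ := exists_v hf b χ hχ
  obtain ⟨T, π, N, hπ, hT, hc, hs, hN⟩ := rep_data hf b χ hχ hv ρ hρ
  have h1 := lower b T π hπ ρ N hc hs hN
  have h2 := geo χ hχ T hT
  calc 2 ^ finrank k L ≤ 2 ^ (2 * finrank k (LinearMap.range (LieAlgebra.ad k L T : L →ₗ[k] L))) :=
        Nat.pow_le_pow_right (by norm_num) h2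
    _ = (2 ^ finrank k (LinearMap.range (LieAlgebra.ad k L T : L →ₗ[k] L))) ^ 2 := by
        rw [← pow_mul, mul_comm]
    _ ≤ finrank k V ^ 2 := Nat.pow_le_pow_left h1 2

theorem main_theorem [IsAlgClosed k] {f : L → L} (hf : Frz k f) (χ : Dual k L) (hχ : Nondeg χ) :
    IsSimpleRing (UU f χ) :=
  simple_of_big hf χ (big hf χ hχ)

end Pool.Agent.SkM
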