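import Mathlib

/-!
# Module Prod: a product of nilpotent operators is nonzero

`E` an algebra over `k` of characteristic two, `N_1, …, N_n ∈ E` commuting with square `0`; `x_1, …, x_r ∈ E`, `a : Fin r → Fin n → k`,
`M_i = ∑_j a_{ij} N_j`, such that `[x_s, N_j] = c_{sj} 1 + ∑_l e_{sjl} N_l` and `∑_j a_{ij} c_{sj} = π` if `s = i`, `0` otherwise, `π ≠ 0`.
Then `M_1 M_2 ⋯ M_r ≠ 0`.

Proof.  Let `G t ⊂ E` be the span of all products `(s.map N).prod`, `s` a list with `length s ≥ t`.  `G` is decreasing, `G s * G t ⊂ G (s+t)`, `M_i ∈ G 1`.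
(1) `1 ∉ G 1` : `G (n+1) = 0` since in a product of more than `n` of the commuting `N_j` one occurs twice
(`List` with `length > n` over `Fin n` has a duplicate; bring them together), so `g^(n+1) ∈ G (n+1) = 0` for `g ∈ G 1`, but `1^(n+1) = 1 ≠ 0`.
(2) The derivation `δ_s(a) = x_s a + a x_s` (characteristic two; `δ(ab) = δ(a) b + a δ(b)`) maps `G (t+1)` into `G t` (induction on lists: product rule;
the `N`'s commute so the order does not matter).
(3) Claim by induction on `m ≤ r`: `M_1 ⋯ M_m ∉ G (m+1)`.  `m = 0` is (1).  Suppose `M_1 ⋯ M_{m+1} ∈ G (m+2)`; apply `δ_{m+1}`: in `G (m+1)`.  But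
`δ_{m+1} (M_1 ⋯ M_{m+1}) = ∑_i (δ_{m+1} M_i) ∏_{j ≠ i} M_j` and `δ_{m+1} M_i = [i = m+1] π + (element of G 1)`, so it is
`π M_1 ⋯ M_m + (element of G (m+1))`.  So `M_1 ⋯ M_m ∈ G (m+1)`, contradiction.
-/

namespace Pool.Agent.SkM

section aux

variable {k E : Type} [Field k] [Ring E] [Algebra k E] {n : ℕ} (N : Fin n → E)

/-- the span of the products of at least `t` factors -/
private def GG (k : Type) {E : Type} [Field k] [Ring E] [Algebra k E] {n : ℕ} (N : Fin n → E)
    (t : ℕ) : Submodule k E :=
  Submodule.span k {z | ∃ s : List (Fin n), t ≤ s.length ∧ z = (s.map N).prod}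

private theorem GG_mem {s : List (Fin n)} {t : ℕ} (h : t ≤ s.length) : (s.map N).prod ∈ GG k N t :=
  Submodule.subset_span ⟨s, h, rfl⟩

private theorem GG_anti {s t : ℕ} (h : s ≤ t) : GG k N t ≤ GG k N s := by
  refine Submodule.span_mono ?_
  rintro z ⟨l, hl, rfl⟩
  exact ⟨l, h.trans hl, rfl⟩

private theorem GG_mul {s t : ℕ} {z w : E} (hz : z ∈ GG k N s) (hw : w ∈ GG k N t) :
    z * w ∈ GG k N (s + t) := by
  unfold GG at hz
  induction hz using Submodule.span_induction with
  | mem z hz =>
    obtain ⟨l, hl, rfl⟩ := hz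
    unfold GG at hw
    induction hw using Submodule.span_induction with
    | mem w hw =>
      obtain ⟨l', hl', rfl⟩ := hw
      rw [← List.prod_append, ← List.map_append]
      exact GG_mem N (by rw [List.length_append]; omega)
    | zero => rw [mul_zero]; exact zero_mem _
    | add a b _ _ ha hb => rw [mul_add]; exact add_mem ha hb
    | smul c a _ ha => rw [mul_smul_comm]; exact Submodule.smul_mem _ _ ha
  | zero => rw [zero_mul]; exact zero_mem _
  | add a b _ _ ha hb => rw [add_mul]; exact add_mem ha hb
  | smul c a _ ha => rw [smul_mul_assoc]; exact Submodule.smul_mem _ _ ha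

private theorem GG_one_mem : (1 : E) ∈ GG k N 0 := by
  have h := GG_mem (k := k) N (s := []) (t := 0) (Nat.zero_le _)
  rwa [List.map_nil, List.prod_nil] at h

private theorem GG_N (j : Fin n) : N j ∈ GG k N 1 := by
  have h := GG_mem (k := k) N (s := [j]) (t := 1) (by simp)
  rwa [List.map_cons, List.map_nil, List.prod_cons, List.prod_nil, mul_one] at h

private theorem prod_zero (hc : ∀ i j, N i * N j = N j * N i) (hs : ∀ j, N j * N j = 0)
    {s : List (Fin n)} (h : ¬ s.Nodup) : (s.map N).prod = 0 := by
  obtain ⟨j, hj⟩ := List.exists_duplicate_iff_not_nodup.2 h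
  have hsub : [j, j].Subperm s := (List.duplicate_iff_sublist.1 hj).subperm
  obtain ⟨l, hl⟩ : ∃ l, (j :: j :: l).Perm s := by
    obtain ⟨l, hl⟩ := (List.duplicate_iff_sublist.1 hj).exists_perm_append
    exact ⟨l, hl.symm⟩
  have h1 : ((j :: j :: l).map N).prod = (s.map N).prod := by
    refine List.Perm.prod_eq' (hl.map N) ?_
    refine List.pairwise_of_forall_mem_list ?_
    intro a ha b hb
    obtain ⟨i, _, rfl⟩ := List.mem_map.1 ha
    obtain ⟨i', _, rfl⟩ := List.mem_map.1 hb
    exact hc i i'
  rw [← h1, List.map_cons, List.map_cons, List.prod_cons, List.prod_cons, ← mul_assoc, hs,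
    zero_mul]

private theorem GG_top (hc : ∀ i j, N i * N j = N j * N i) (hs : ∀ j, N j * N j = 0) {z : E}
    (hz : z ∈ GG k N (n + 1)) : z = 0 := by
  unfold GG at hz
  induction hz using Submodule.span_induction with
  | mem z hz =>
    obtain ⟨l, hl, rfl⟩ := hz
    refine prod_zero N hc hs fun hnd => ?_
    have h1 := hnd.length_le_card
    rw [Fintype.card_fin] at h1
    omega
  | zero => rfl
  | add a b _ _ ha hb => rw [ha, hb, add_zero]
  | smul c a _ ha => rw [ha, smul_zero]

private theorem GG_one_notMem [Nontrivial E] (hc : ∀ i j, N i * N j = N j * N i)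
    (hs : ∀ j, N j * N j = 0) : (1 : E) ∉ GG k N 1 := by
  intro h
  have h1 : ∀ m : ℕ, (1 : E) ^ m ∈ GG k N m := by
    intro m
    induction m with
    | zero => rw [pow_zero]; exact GG_one_mem N
    | succ m ih => rw [pow_succ]; exact GG_mul N ih h
  have h2 := GG_top N hc hs (h1 (n + 1))
  rw [one_pow] at h2
  exact one_ne_zero h2

/-- the derivation -/
private def dl (x z : E) : E := x * z + z * x

private theorem dl_mul (h2 : ∀ z : E, z + z = 0) (x z w : E) :
    dl x (z * w) = dl x z * w + z * dl x w := by
  unfold dl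
  have h3 : (x * z + z * x) * w + z * (x * w + w * x) =
      (x * (z * w) + z * w * x) + (z * (x * w) + z * (x * w)) := by
    noncomm_ring
  rw [h3, h2, add_zero]

private theorem dl_add (x z w : E) : dl x (z + w) = dl x z + dl x w := by
  unfold dl; noncomm_ring

private theorem dl_smul (x : E) (c : k) (z : E) : dl x (c • z) = c • dl x z := by
  unfold dl
  rw [mul_smul_comm, smul_mul_assoc, smul_add]

private theorem dl_one (h2 : ∀ z : E, z + z = 0) (x : E) : dl x 1 = 0 := by
  unfold dl
  rw [mul_one, one_mul, h2]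

private theorem dl_list (h2 : ∀ z : E, z + z = 0) (x : E)
    (hx : ∀ j, dl x (N j) ∈ GG k N 0) (s : List (Fin n)) :
    dl x ((s.map N).prod) ∈ GG k N (s.length - 1) := by
  induction s with
  | nil => rw [List.map_nil, List.prod_nil, dl_one h2]; exact zero_mem _
  | cons j s ih =>
    rw [List.map_cons, List.prod_cons, dl_mul h2, List.length_cons, Nat.add_sub_cancel]
    refine add_mem ?_ ?_
    · have h1 := GG_mul N (hx j) (GG_mem (k := k) N (s := s) le_rfl)
      rwa [zero_add] at h1
    · exact GG_anti N (by omega) (GG_mul N (GG_N (k := k) N j) ih)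

private theorem dl_GG (h2 : ∀ z : E, z + z = 0) (x : E)
    (hx : ∀ j, dl x (N j) ∈ GG k N 0) {t : ℕ} {z : E} (hz : z ∈ GG k N (t + 1)) :
    dl x z ∈ GG k N t := by
  unfold GG at hz
  induction hz using Submodule.span_induction with
  | mem z hz =>
    obtain ⟨l, hl, rfl⟩ := hz
    exact GG_anti N (by omega) (dl_list N h2 x hx l)
  | zero =>
    have : dl x (0 : E) = 0 := by unfold dl; rw [mul_zero, zero_mul, add_zero]
    rw [this]; exact zero_mem _
  | add a b _ _ ha hb => rw [dl_add]; exact add_mem ha hb
  | smul c a _ ha => rw [dl_smul]; exact Submodule.smul_mem _ _ ha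

end aux

theorem prod_ne_zero {k E : Type} [Field k] [CharP k 2] [Ring E] [Algebra k E] [Nontrivial E]
    {n r : ℕ} (N : Fin n → E) (hc : ∀ i j, N i * N j = N j * N i) (hs : ∀ j, N j * N j = 0)
    (x : Fin r → E) (c : Fin r → Fin n → k) (e : Fin r → Fin n → Fin n → k)
    (hx : ∀ s j, x s * N j + N j * x s = (c s j) • (1 : E) + ∑ l, (e s j l) • N l)
    (a : Fin r → Fin n → k) (π : k) (hπ : π ≠ 0)
    (ha : ∀ s i, ∑ j, a i j * c s j = if s = i then π else 0) :
    (List.ofFn (fun i => ∑ j, (a i j) • N j)).prod ≠ 0 := by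
  have h2 : ∀ z : E, z + z = 0 := by
    intro z
    rw [← two_smul k z, CharTwo.two_eq_zero, zero_smul]
  have hNl : ∀ (v : Fin n → k), ∑ l, v l • N l ∈ GG k N 1 := fun v =>
    sum_mem fun l _ => Submodule.smul_mem _ _ (GG_N N l)
  have hdN : ∀ s j, dl (x s) (N j) ∈ GG k N 0 := by
    intro s j
    unfold dl
    rw [hx]
    exact add_mem (Submodule.smul_mem _ _ (GG_one_mem N)) (GG_anti N (Nat.zero_le 1) (hNl _))
  set M : Fin r → E := fun i => ∑ j, (a i j) • N j with hM
  have hM1 : ∀ i, M i ∈ GG k N 1 := fun i => hNl _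
  -- the derivation of `M`
  have hdM : ∀ s i, ∃ g ∈ GG k N 1, dl (x s) (M i) = (if s = i then π else 0) • (1 : E) + g := by
    intro s i
    refine ⟨∑ j, a i j • ∑ l, (e s j l) • N l,
      sum_mem fun j _ => Submodule.smul_mem _ _ (hNl _), ?_⟩
    have h3 : dl (x s) (M i) = ∑ j, a i j • dl (x s) (N j) := by
      unfold dl
      rw [hM]
      show x s * (∑ j, (a i j) • N j) + (∑ j, (a i j) • N j) * x s = _
      rw [Finset.mul_sum, Finset.sum_mul, ← Finset.sum_add_distrib]
      refine Finset.sum_congr rfl fun j _ => ?_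
      rw [mul_smul_comm, smul_mul_assoc, smul_add]
    have h4 : ∀ j, dl (x s) (N j) = (c s j) • (1 : E) + ∑ l, (e s j l) • N l := fun j => hx s j
    rw [h3, Finset.sum_congr rfl fun j _ => by rw [h4 j, smul_add], Finset.sum_add_distrib,
      ← ha s i, Finset.sum_smul]
    congr 1
    refine Finset.sum_congr rfl fun j _ => ?_
    rw [smul_smul]
  have hPM : ∀ l : List (Fin r), (l.map M).prod ∈ GG k N l.length := by
    intro l
    induction l with
    | nil => rw [List.map_nil, List.prod_nil]; exact GG_one_mem N
    | cons i l ih =>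
      rw [List.map_cons, List.prod_cons, List.length_cons, add_comm]
      exact GG_mul N (hM1 i) ih
  have hdP : ∀ (s : Fin r) (l : List (Fin r)), s ∉ l →
      dl (x s) ((l.map M).prod) ∈ GG k N l.length := by
    intro s l
    induction l with
    | nil => intro _; rw [List.map_nil, List.prod_nil, dl_one h2]; exact zero_mem _
    | cons i l ih =>
      intro hsl
      rw [List.mem_cons, not_or] at hsl
      rw [List.map_cons, List.prod_cons, dl_mul h2, List.length_cons, add_comm l.length 1]
      obtain ⟨g, hg, hdg⟩ := hdM s i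
      rw [hdg, if_neg hsl.1, zero_smul, zero_add]
      exact add_mem (GG_mul N hg (hPM l)) (GG_mul N (hM1 i) (ih hsl.2))
  have hmain : ∀ l : List (Fin r), l.Nodup → (l.map M).prod ∉ GG k N (l.length + 1) := by
    intro l
    induction l with
    | nil =>
      intro _
      rw [List.map_nil, List.prod_nil]
      exact GG_one_notMem N hc hs
    | cons i l ih =>
      intro hnd hmem
      rw [List.nodup_cons] at hnd
      refine ih hnd.2 ?_
      rw [List.map_cons, List.prod_cons, List.length_cons] at hmem
      have h3 := dl_GG N h2 (x i) (hdN i) hmem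
      rw [dl_mul h2] at h3
      obtain ⟨g, hg, hdg⟩ := hdM i i
      rw [hdg, if_pos rfl, add_mul, smul_mul_assoc, one_mul] at h3
      have h4 : g * (l.map M).prod ∈ GG k N (l.length + 1) := by
        rw [add_comm]; exact GG_mul N hg (hPM l)
      have h5 : M i * dl (x i) ((l.map M).prod) ∈ GG k N (l.length + 1) := by
        rw [add_comm]; exact GG_mul N (hM1 i) (hdP i l hnd.1)
      have h6 : π • (l.map M).prod ∈ GG k N (l.length + 1) := by
        have h7 := sub_mem (sub_mem h3 h5) h4
        have h8 : π • (l.map M).prod + g * (l.map M).prod + M i * dl (x i) ((l.map M).prod) -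
            M i * dl (x i) ((l.map M).prod) - g * (l.map M).prod = π • (l.map M).prod := by abel
        rwa [h8] at h7
      have h9 := Submodule.smul_mem _ π⁻¹ h6
      rwa [smul_smul, inv_mul_cancel₀ hπ, one_smul] at h9
  intro h0
  have h3 := hmain (List.finRange r) (List.nodup_finRange r)
  rw [← List.ofFn_eq_map, h0] at h3
  exact h3 (zero_mem _)

/-- commuting operators `M_1, …, M_r` with square zero and nonzero product: `2^r ≤ dim V`.
Proof by induction on `r` : `M_0` (the first), `V' = range M_0 ⊂ ker M_0` has dimension `≤ dim V / 2`, is stable under all `M_i`, and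
`M_1 ⋯ M_r` is nonzero on `V'` (since `M_0 M_1 ⋯ M_r = M_1 ⋯ M_r M_0 ≠ 0`); apply the induction hypothesis to `V'`. -/
theorem two_pow_le {k V : Type} [Field k] [AddCommGroup V] [Module k V] [FiniteDimensional k V]
    {r : ℕ} (M : Fin r → Module.End k V) (hc : ∀ i j, M i * M j = M j * M i)
    (hs : ∀ j, M j * M j = 0) (h : (List.ofFn M).prod ≠ 0) : 2 ^ r ≤ Module.finrank k V := by
  induction r generalizing V with
  | zero =>
    rw [pow_zero]
    rw [List.ofFn_zero, List.prod_nil] at h
    have hnt : Nontrivial V := by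
      by_contra hV
      rw [not_nontrivial_iff_subsingleton] at hV
      exact h (LinearMap.ext fun v => Subsingleton.elim _ _)
    exact Module.finrank_pos
  | succ r ih =>
    set V' := LinearMap.range (M 0) with hV'
    have hst : ∀ i : Fin (r + 1), ∀ v ∈ V', M i v ∈ V' := by
      rintro i _ ⟨w, rfl⟩
      refine ⟨M i w, ?_⟩
      have h1 := congrArg (fun f => f w) (hc 0 i)
      exact h1
    let M' : Fin r → Module.End k V' := fun i => (M i.succ).restrict (hst i.succ)
    have hM' : ∀ i (v : V'), ((M' i v : V') : V) = M i.succ v := fun i v => rfl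
    have hprod : ∀ (l : List (Fin r)) (v : V'),
        (((l.map M').prod v : V') : V) = (l.map (fun i => M i.succ)).prod v := by
      intro l
      induction l with
      | nil => intro v; rfl
      | cons i l ihl =>
        intro v
        rw [List.map_cons, List.prod_cons, List.map_cons, List.prod_cons]
        show ((M' i ((l.map M').prod v) : V') : V) = M i.succ ((l.map (fun i => M i.succ)).prod v)
        rw [hM', ihl]
    have hcomm : ∀ l : List (Fin r), M 0 * (l.map (fun i => M i.succ)).prod =
        (l.map (fun i => M i.succ)).prod * M 0 := by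
      intro l
      induction l with
      | nil => rw [List.map_nil, List.prod_nil, mul_one, one_mul]
      | cons i l ihl =>
        rw [List.map_cons, List.prod_cons, ← mul_assoc, hc 0 i.succ, mul_assoc, ihl, mul_assoc]
    have h' : (List.ofFn M').prod ≠ 0 := by
      intro h0
      refine h ?_
      rw [List.ofFn_succ, List.prod_cons, List.ofFn_eq_map, hcomm]
      refine LinearMap.ext fun v => ?_
      show (List.map (fun i => M i.succ) (List.finRange r)).prod (M 0 v) = 0
      rw [List.ofFn_eq_map] at h0
      have h1 := hprod (List.finRange r) ⟨M 0 v, ⟨v, rfl⟩⟩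
      rw [h0] at h1
      exact h1.symm
    have hle := ih M' (fun i j => by
      refine LinearMap.ext fun v => Subtype.ext ?_
      exact congrArg (fun f => f (v : V)) (hc i.succ j.succ)) (fun j => by
      refine LinearMap.ext fun v => Subtype.ext ?_
      exact congrArg (fun f => f (v : V)) (hs j.succ)) h'
    have hker : V' ≤ LinearMap.ker (M 0) := by
      rintro _ ⟨w, rfl⟩
      exact congrArg (fun f => f w) (hs 0)
    have h1 := Submodule.finrank_mono hker
    have h2 := LinearMap.finrank_range_add_finrank_ker (M 0)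
    rw [pow_succ]
    rw [← hV'] at h2
    omega

end Pool.Agent.SkM
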