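import Pool.Agent.Lib.SkM.Basic

/-!
# Module SY: symbols

`Fil b m = {u : Psi b u ∈ W k (Fin n) m}`, `W n` = span of the monomials of degree `< n`; `sy b m u` = the homogeneous
part of degree `m` of `Psi b u`.  Everything is in `Pool/Agent/Lib/MP_fc2f40_al/PBW.lean`:
`W_mono`, `exists_W`, `coeff_of_mem_W` (coefficients of degree `≥ n` of an element of `W n` vanish), conversely a polynomial
all of whose monomials have degree `< n` is in `W n` (write it as the sum of its monomials, `mon_mem_W`, see the proof of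
`mem_W_totalDegree`).  `Phi_Psi : Phi b (Psi b u) = u` (so `Psi` is injective).

`fil_mul`, `sy_mul`: `Psi b (u * v) = rhoU b u (Psi b v)` (`Psi_apply`, `map_mul`), `u = Phi b (Psi b u)` and
`rhoU_Phi b a c (Psi b v) hv (Psi b u) hu : rhoU b (Phi b q) p - q * p ∈ W (a + c)` for `q = Psi b u ∈ W (a+1)`,
`p = Psi b v ∈ W (c+1)`.  So `Psi (u v) - Psi u * Psi v ∈ W (a+c)`, whence `Psi(uv) ∈ W (a+c+1)` and the parts of degree
`a+c` agree; the part of degree `a+c` of `q * p` is (part `a` of `q`) * (part `c` of `p`) (coefficientwise: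
`MvPolynomial.coeff_mul`, or write `q = homogeneousComponent a q + q'` with `q' ∈ W a`, `p = … + p'`, `p' ∈ W c`;
products of `W a` and `W (c+1)` are in `W (a+c)`; `IsHomogeneous.mul`).
`fil_of_sy`: `Psi u ∈ W (a+1)` with vanishing part of degree `a` is in `W a`.
`psi_io`: `Psi b (ι x) = lin b x`: linear in `x`, on a basis vector `Psi_ι`.
`exists_of_homog`: `u = Phi b g`; need `Psi b (Phi b g) - g ∈ W m` (`rhoU_Phi b m 0 1 _ g _` with `Psi_apply`), so
`Phi b g ∈ Fil (m+1)` and its part of degree `m` is `g`.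
-/

set_option linter.unusedSectionVars false

namespace Pool.Agent.SkM

open Module MvPolynomial

open Pool.Agent.Lib.MP_fc2f40_al.PBW (mon W mon_mem_W W_mono rhoU rhoU_ι Phi Psi Phi_Psi Psi_apply Psi_ι
  Phi_one rhoU_Phi coeff_of_mem_W exists_W mem_W_totalDegree)

noncomputable section

variable {k L : Type} [Field k] [LieRing L] [LieAlgebra k L] {n : ℕ}

private theorem SY_mem_W {m : ℕ} {p : MvPolynomial (Fin n) k}
    (h : ∀ d : Fin n →₀ ℕ, m ≤ d.degree → coeff d p = 0) : p ∈ W k (Fin n) m := by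
  rw [p.as_sum]
  refine Submodule.sum_mem _ (fun d hd => ?_)
  have h1 : (monomial d (coeff d p) : MvPolynomial (Fin n) k) = coeff d p • mon d := by
    simp [smul_monomial]
  rw [h1]
  refine Submodule.smul_mem _ _ (mon_mem_W ?_)
  by_contra hc
  exact (MvPolynomial.mem_support_iff.mp hd) (h d (not_lt.1 hc))

private theorem SY_mul_mem_W {a c : ℕ} {p q : MvPolynomial (Fin n) k} (hp : p ∈ W k (Fin n) (a + 1))
    (hq : q ∈ W k (Fin n) (c + 1)) : p * q ∈ W k (Fin n) (a + c + 1) := by
  classical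
  refine SY_mem_W fun d hd => ?_
  rw [coeff_mul]
  refine Finset.sum_eq_zero fun x hx => ?_
  have hx := Finset.HasAntidiagonal.mem_antidiagonal.1 hx
  have h1 : x.1.degree + x.2.degree = d.degree := by rw [← hx, map_add]
  by_cases h2 : a + 1 ≤ x.1.degree
  · rw [coeff_of_mem_W _ p hp _ h2, zero_mul]
  · rw [coeff_of_mem_W _ q hq _ (by omega), mul_zero]

private theorem SY_Psi_mul (b : Basis (Fin n) k L) {a c : ℕ} {u v : UL k L}
    (hu : u ∈ Fil b (a + 1)) (hv : v ∈ Fil b (c + 1)) :
    Psi b (u * v) - Psi b u * Psi b v ∈ W k (Fin n) (a + c) := by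
  have h1 : Psi b (u * v) = rhoU b u (Psi b v) := by
    rw [Psi_apply, map_mul]; rfl
  have h2 := rhoU_Phi b a c (Psi b v) hv (Psi b u) hu
  rw [Phi_Psi] at h2
  rw [h1]
  exact h2

private theorem SY_hc_W {a c : ℕ} {p : MvPolynomial (Fin n) k} (hp : p ∈ W k (Fin n) a)
    (h : a ≤ c) : homogeneousComponent c p = 0 := by
  classical
  ext d
  rw [coeff_homogeneousComponent, coeff_zero]
  split_ifs with hd
  · exact coeff_of_mem_W _ p hp d (by omega)
  · rfl

private theorem SY_one_mem_W : (1 : MvPolynomial (Fin n) k) ∈ W k (Fin n) 1 := by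
  have h := mon_mem_W (R := k) (n := 1) (m := (0 : Fin n →₀ ℕ)) (by simp)
  exact h

private theorem SY_psi_io (b : Basis (Fin n) k L) (x : L) : Psi b (io x) = lin b x := by
  have h : (Psi b).comp (io : L →ₗ[k] UL k L) = lin b := by
    refine b.ext fun i => ?_
    show Psi b (UniversalEnvelopingAlgebra.ι k (b i)) = lin b (b i)
    rw [Psi_ι]
    unfold lin
    rw [Basis.constr_basis]
  exact congrArg (fun f => f x) h

private theorem SY_lin (b : Basis (Fin n) k L) (x : L) : lin b x = ∑ i, (b.repr x i) • X i := by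
  unfold lin
  rw [Basis.constr_apply_fintype]
  rfl

theorem fil_zero (b : Basis (Fin n) k L) {u : UL k L} (h : u ∈ Fil b 0) : u = 0 := by
  have h1 : Psi b u = 0 := by
    ext d
    rw [coeff_zero]
    exact coeff_of_mem_W 0 _ h d (Nat.zero_le _)
  rw [← Phi_Psi b u, h1, map_zero]

theorem fil_mono (b : Basis (Fin n) k L) {m m' : ℕ} (h : m ≤ m') : Fil b m ≤ Fil b m' :=
  fun _ hu => W_mono h hu

theorem exists_fil (b : Basis (Fin n) k L) (u : UL k L) : ∃ m, u ∈ Fil b (m + 1) :=
  exists_W (Psi b u)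

theorem fil_mul (b : Basis (Fin n) k L) {a c : ℕ} {u v : UL k L} (hu : u ∈ Fil b (a + 1))
    (hv : v ∈ Fil b (c + 1)) : u * v ∈ Fil b (a + c + 1) := by
  have h1 := SY_Psi_mul b hu hv
  have h2 := SY_mul_mem_W hu hv
  have h3 := add_mem (W_mono (Nat.le_succ _) h1) h2
  rw [sub_add_cancel] at h3
  exact h3

theorem sy_mul (b : Basis (Fin n) k L) {a c : ℕ} {u v : UL k L} (hu : u ∈ Fil b (a + 1))
    (hv : v ∈ Fil b (c + 1)) : sy b (a + c) (u * v) = sy b a u * sy b c v := by
  classical
  have h1 := SY_Psi_mul b hu hv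
  have h2 : sy b (a + c) (u * v) = homogeneousComponent (a + c) (Psi b u * Psi b v) := by
    have h3 := SY_hc_W h1 le_rfl
    rw [map_sub, sub_eq_zero] at h3
    exact h3
  rw [h2]
  show _ = homogeneousComponent a (Psi b u) * homogeneousComponent c (Psi b v)
  ext d
  rw [coeff_homogeneousComponent, coeff_mul, coeff_mul]
  split_ifs with hd
  · refine Finset.sum_congr rfl fun x hx => ?_
    have hx := Finset.HasAntidiagonal.mem_antidiagonal.1 hx
    have h4 : x.1.degree + x.2.degree = d.degree := by rw [← hx, map_add]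
    rw [coeff_homogeneousComponent, coeff_homogeneousComponent]
    by_cases h5 : x.1.degree = a
    · rw [if_pos h5, if_pos (by omega)]
    · rw [if_neg h5, zero_mul]
      rcases lt_or_gt_of_ne h5 with h6 | h6
      · rw [coeff_of_mem_W (c + 1) _ hv _ (by omega), mul_zero]
      · rw [coeff_of_mem_W (a + 1) _ hu _ (by omega), zero_mul]
  · symm
    refine Finset.sum_eq_zero fun x hx => ?_
    have hx := Finset.HasAntidiagonal.mem_antidiagonal.1 hx
    have h4 : x.1.degree + x.2.degree = d.degree := by rw [← hx, map_add]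
    rw [coeff_homogeneousComponent, coeff_homogeneousComponent]
    by_cases h5 : x.1.degree = a
    · rw [if_neg (show ¬ x.2.degree = c by omega), mul_zero]
    · rw [if_neg h5, zero_mul]

theorem fil_of_sy (b : Basis (Fin n) k L) {a : ℕ} {u : UL k L} (hu : u ∈ Fil b (a + 1))
    (h : sy b a u = 0) : u ∈ Fil b a := by
  classical
  refine SY_mem_W fun d hd => ?_
  rcases hd.eq_or_lt with h1 | h1
  · have h2 : coeff d (homogeneousComponent a (Psi b u)) = 0 := by
      have h3 : homogeneousComponent a (Psi b u) = 0 := h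
      rw [h3, coeff_zero]
    rw [coeff_homogeneousComponent, if_pos h1.symm] at h2
    exact h2
  · exact coeff_of_mem_W _ _ hu d h1

theorem sy_of_fil (b : Basis (Fin n) k L) {a c : ℕ} {u : UL k L} (hu : u ∈ Fil b a) (h : a ≤ c) :
    sy b c u = 0 :=
  SY_hc_W hu h

theorem sy_homog (b : Basis (Fin n) k L) (m : ℕ) (u : UL k L) : (sy b m u).IsHomogeneous m :=
  homogeneousComponent_isHomogeneous m (Psi b u)

theorem one_mem (b : Basis (Fin n) k L) : (1 : UL k L) ∈ Fil b 1 := by
  show Psi b 1 ∈ W k (Fin n) 1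
  have h1 : Psi b 1 = 1 := by
    have h2 : rhoU b (1 : UL k L) = 1 := map_one _
    rw [Psi_apply, h2]
    rfl
  rw [h1]
  exact SY_one_mem_W

theorem io_mem (b : Basis (Fin n) k L) (x : L) : (io x : UL k L) ∈ Fil b 2 := by
  show Psi b (io x) ∈ W k (Fin n) 2
  rw [SY_psi_io, SY_lin]
  refine sum_mem fun i _ => Submodule.smul_mem _ _ ?_
  exact mon_mem_W (by simp)

theorem sy_io (b : Basis (Fin n) k L) (x : L) : sy b 1 (io x) = lin b x := by
  show homogeneousComponent 1 (Psi b (io x)) = _
  rw [SY_psi_io, SY_lin, map_sum]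
  refine Finset.sum_congr rfl fun i _ => ?_
  rw [map_smul]
  congr 1
  have h := homogeneousComponent_of_mem (m := 1) (n := 1)
    (p := (X i : MvPolynomial (Fin n) k)) (isHomogeneous_X k i)
  rw [h, if_pos rfl]

theorem exists_of_homog (b : Basis (Fin n) k L) {m : ℕ} {g : MvPolynomial (Fin n) k}
    (hg : g.IsHomogeneous m) : ∃ u ∈ Fil b (m + 1), sy b m u = g := by
  have hgW : g ∈ W k (Fin n) (m + 1) := by
    refine SY_mem_W fun d hd => ?_
    by_contra h
    have h1 := hg h
    have h2 : Finsupp.weight 1 d = d.degree := by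
      rw [Finsupp.degree_eq_weight_one]; rfl
    rw [h2] at h1
    omega
  have h1 : Psi b (Phi b g) - g ∈ W k (Fin n) m := by
    have h2 := rhoU_Phi b m 0 1 SY_one_mem_W g hgW
    rw [mul_one, add_zero] at h2
    exact h2
  refine ⟨Phi b g, ?_, ?_⟩
  · have h3 := add_mem (W_mono (Nat.le_succ _) h1) hgW
    rw [sub_add_cancel] at h3
    exact h3
  · have h3 := SY_hc_W h1 le_rfl
    rw [map_sub, sub_eq_zero] at h3
    have h4 := homogeneousComponent_of_mem (m := m) (n := m) (p := g) hg
    rw [if_pos rfl] at h4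
    exact h3.trans h4

end

end Pool.Agent.SkM
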