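import Pool.Agent.Lib.SkM.Basic

/-!
# Module Ten: the 2-map commutes with `[u, .]`

`z_j = [e_j, y]`.  To prove: `m := ∑_j u_j^2 f(z_j) + ∑_{j<l} u_j u_l [z_l, z_j] = 0` in `U`.

Let `O = Algebra.adjoin k (Set.range u ∪ {d})`, a commutative subalgebra of `U` (`h.cu`, `d` central;
`Algebra.adjoinCommRingOfComm`, or take any commutative subring containing the `u_j` and `d`), and let `G = O ⊗[k] L` with the Lie algebra structure
of `LieAlgebra.ExtendScalars` (`⁅a ⊗ x, b ⊗ y⁆ = (ab) ⊗ ⁅x,y⁆` : `LieAlgebra.ExtendScalars.bracket_tmul`); `G` has characteristic two.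
`μ : G → U` linear, `μ (a ⊗ x) = a * io x` (`TensorProduct.lift`).  Put `𝐮 = ∑ u_j ⊗ e_j`.
(1) `μ [𝐮, v] = d * μ v` for all `v ∈ G`: for `v = a ⊗ x`: `∑_j u_j a [e_j,x] = a ∑_j u_j [e_j,x] = a d x` (`h.rel`).
(2) for families `x : Fin n → L` let `Q(x) = ∑_j u_j^2 ⊗ f(x_j) + ∑_{j<l} u_j u_l ⊗ [x_l,x_j]` and `w(x) = ∑_j u_j ⊗ x_j`.
Then `[Q(x), v] = [w(x), [w(x), v]]` for all `v ∈ G` (for `v = a ⊗ y`, `sum_pairs`, `hf.lie`, Jacobi and characteristic two: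
`[x_j,[x_l,y]] + [x_l,[x_j,y]] = [[x_l,x_j],y]`).
(3) `Q(e) = d 𝐮`, i.e. `∑_j u_j^2 ⊗ f(e_j) + ∑_{j<l} u_j u_l ⊗ [e_l,e_j] = ∑_m (d u_m) ⊗ e_m`: expand in the basis `1 ⊗ e_m`; the coordinates are
`hv b f u d m = 0` (`h.tor`; characteristic two).
(4) `Y = [𝐮, 1 ⊗ y] = ∑_j u_j ⊗ z_j = w(z)`.  `[𝐮, Y] = [𝐮,[𝐮,1 ⊗ y]] = [Q(e), 1 ⊗ y] = d [𝐮, 1 ⊗ y] = d Y`.
(5) `[𝐮, Q(z)] = [Q(z), 𝐮] = [Y,[Y,𝐮]] = [Y, d Y] = 0` (characteristic two).  So `d μ(Q(z)) = μ [𝐮, Q(z)] = 0` and `μ(Q(z)) = m`; `d ≠ 0`, `U` is a domain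
(`U_zero_or`).
-/

set_option linter.unusedSectionVars false

namespace Pool.Agent.SkM

open Module MvPolynomial

open Pool.Agent.SkS (Rst)

open scoped TensorProduct

noncomputable section

variable {k L : Type} [Field k] [CharP k 2] [LieRing L] [LieAlgebra k L] {n : ℕ}

private theorem ten_Q {O : Type} [CommRing O] [Algebra k O] {f : L → L} (hf : Rst k f)
    (u : Fin n → O) (x : Fin n → L) (v : O ⊗[k] L) :
    ⁅(∑ j, (u j * u j) ⊗ₜ[k] f (x j) +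
        ∑ j, ∑ l ∈ Finset.Ioi j, (u j * u l) ⊗ₜ[k] ⁅x l, x j⁆ : O ⊗[k] L), v⁆ =
      ⁅(∑ j, u j ⊗ₜ[k] x j : O ⊗[k] L), ⁅(∑ j, u j ⊗ₜ[k] x j : O ⊗[k] L), v⁆⁆ := by
  induction v using TensorProduct.induction_on with
  | zero => simp
  | tmul a y =>
    have hR : ⁅(∑ j, u j ⊗ₜ[k] x j : O ⊗[k] L), ⁅(∑ j, u j ⊗ₜ[k] x j : O ⊗[k] L), a ⊗ₜ[k] y⁆⁆ =
        ∑ j, ∑ l, ((u j * (u l * a)) ⊗ₜ[k] ⁅x j, ⁅x l, y⁆⁆ : O ⊗[k] L) := by
      simp only [sum_lie, lie_sum, LieAlgebra.ExtendScalars.bracket_tmul]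
      rw [Finset.sum_comm]
    rw [hR, sum_pairs]
    simp only [add_lie, sum_lie, LieAlgebra.ExtendScalars.bracket_tmul]
    congr 1
    · refine Finset.sum_congr rfl fun j _ => ?_
      rw [hf.lie, mul_assoc]
    · refine Finset.sum_congr rfl fun j _ => Finset.sum_congr rfl fun l _ => ?_
      have h1 : u l * (u j * a) = u j * (u l * a) := by ring
      rw [h1, ← TensorProduct.tmul_add, mul_assoc, lie_lie, sub_eq_add' (k := k), add_comm]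
  | add v w hv hw => rw [lie_add, lie_add, lie_add, hv, hw]

private theorem ten_e {O : Type} [CommRing O] [Algebra k O] (b : Basis (Fin n) k L) {f : L → L}
    (u : Fin n → O) (d : O)
    (tor : ∀ m, ∑ j, (b.repr (f (b j)) m) • (u j * u j) +
      ∑ j, ∑ l ∈ Finset.Ioi j, (b.repr ⁅b l, b j⁆ m) • (u j * u l) + d * u m = 0) :
    (∑ j, (u j * u j) ⊗ₜ[k] f (b j) +
        ∑ j, ∑ l ∈ Finset.Ioi j, (u j * u l) ⊗ₜ[k] ⁅b l, b j⁆ : O ⊗[k] L) =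
      d • (∑ j, u j ⊗ₜ[k] b j : O ⊗[k] L) := by
  have hexp : ∀ (a : O) (x : L), (a ⊗ₜ[k] x : O ⊗[k] L) = ∑ m, ((b.repr x m) • a) ⊗ₜ[k] b m := by
    intro a x
    conv_lhs => rw [← b.sum_repr x]
    rw [TensorProduct.tmul_sum]
    refine Finset.sum_congr rfl fun m _ => ?_
    rw [TensorProduct.tmul_smul, TensorProduct.smul_tmul']
  have h1 : (∑ j, (u j * u j) ⊗ₜ[k] f (b j) : O ⊗[k] L) =
      ∑ m, (∑ j, (b.repr (f (b j)) m) • (u j * u j)) ⊗ₜ[k] b m := by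
    simp only [TensorProduct.sum_tmul]
    rw [Finset.sum_comm]
    exact Finset.sum_congr rfl fun j _ => hexp _ _
  have h2 : (∑ j, ∑ l ∈ Finset.Ioi j, (u j * u l) ⊗ₜ[k] ⁅b l, b j⁆ : O ⊗[k] L) =
      ∑ m, (∑ j, ∑ l ∈ Finset.Ioi j, (b.repr ⁅b l, b j⁆ m) • (u j * u l)) ⊗ₜ[k] b m := by
    simp only [TensorProduct.sum_tmul]
    rw [Finset.sum_comm]
    refine Finset.sum_congr rfl fun j _ => ?_
    rw [Finset.sum_comm]
    exact Finset.sum_congr rfl fun l _ => hexp _ _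
  rw [h1, h2, ← Finset.sum_add_distrib, Finset.smul_sum]
  refine Finset.sum_congr rfl fun m _ => ?_
  rw [← TensorProduct.add_tmul, TensorProduct.smul_tmul', smul_eq_mul]
  congr 1
  have h3 := eq_neg_of_add_eq_zero_left (tor m)
  rw [h3, neg_eq (k := k)]

private theorem ten_core {O : Type} [CommRing O] [Algebra k O] (b : Basis (Fin n) k L)
    {f : L → L} (hf : Rst k f) (u : Fin n → O) (d : O)
    (tor : ∀ m, ∑ j, (b.repr (f (b j)) m) • (u j * u j) +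
      ∑ j, ∑ l ∈ Finset.Ioi j, (b.repr ⁅b l, b j⁆ m) • (u j * u l) + d * u m = 0) (y : L) :
    ⁅(∑ j, u j ⊗ₜ[k] b j : O ⊗[k] L), (∑ j, (u j * u j) ⊗ₜ[k] f ⁅b j, y⁆ +
      ∑ j, ∑ l ∈ Finset.Ioi j, (u j * u l) ⊗ₜ[k] ⁅⁅b l, y⁆, ⁅b j, y⁆⁆ : O ⊗[k] L)⁆ = 0 := by
  have hY : ⁅(∑ j, u j ⊗ₜ[k] b j : O ⊗[k] L), ((1 : O) ⊗ₜ[k] y : O ⊗[k] L)⁆ =
      ∑ j, (u j ⊗ₜ[k] ⁅b j, y⁆ : O ⊗[k] L) := by
    simp only [sum_lie, LieAlgebra.ExtendScalars.bracket_tmul, mul_one]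
  have h4 : ⁅(∑ j, u j ⊗ₜ[k] b j : O ⊗[k] L), (∑ j, (u j ⊗ₜ[k] ⁅b j, y⁆ : O ⊗[k] L))⁆ =
      d • (∑ j, (u j ⊗ₜ[k] ⁅b j, y⁆ : O ⊗[k] L)) := by
    rw [← hY, ← ten_Q hf u (fun j => b j), ten_e b u d tor, smul_lie]
  rw [← lie_skew, ten_Q hf u (fun j => ⁅b j, y⁆), ← lie_skew (∑ j, (u j ⊗ₜ[k] ⁅b j, y⁆ : O ⊗[k] L))
    (∑ j, u j ⊗ₜ[k] b j : O ⊗[k] L), h4, lie_neg, lie_smul, lie_self, smul_zero, neg_zero, neg_zero]

set_option linter.deprecated false in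
/-- a commutative algebra containing the `u_j` and `d` -/
private theorem ten_alg (u : Fin n → UL k L) (d : UL k L) (hu : ∀ i j, u i * u j = u j * u i)
    (hd : Cen d) : ∃ (O : Type) (_ : CommRing O) (_ : Algebra k O) (ι : O →ₐ[k] UL k L)
      (u' : Fin n → O) (d' : O), Function.Injective ι ∧ (∀ j, ι (u' j) = u j) ∧ ι d' = d := by
  have hcomm : ∀ a ∈ Set.range u ∪ {d}, ∀ c ∈ Set.range u ∪ {d}, a * c = c * a := by
    rintro a (⟨i, rfl⟩ | rfl) c (⟨j, rfl⟩ | rfl)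
    · exact hu i j
    · exact (hd _).symm
    · exact hd _
    · rfl
  let S : Subalgebra k (UL k L) := Algebra.adjoin k (Set.range u ∪ {d})
  let _ : CommRing S := Algebra.adjoinCommRingOfComm k hcomm
  exact ⟨S, inferInstance, inferInstance, S.val,
    fun j => ⟨u j, Algebra.subset_adjoin (Or.inl ⟨j, rfl⟩)⟩,
    ⟨d, Algebra.subset_adjoin (Or.inr rfl)⟩, Subtype.val_injective, fun j => rfl, rfl⟩

theorem mW (b : Basis (Fin n) k L) {f : L → L} (hf : Rst k f) {u : Fin n → UL k L} {d : UL k L}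
    (h : UT b f u d) (y : L) :
    ∑ j, u j * u j * io (f ⁅b j, y⁆) +
      ∑ j, ∑ l ∈ Finset.Ioi j, u j * u l * io ⁅⁅b l, y⁆, ⁅b j, y⁆⁆ = 0 := by
  obtain ⟨O, _, _, ι, u', d', hι, hu', hd'⟩ := ten_alg u d h.cu h.cen
  have tor : ∀ m, ∑ j, (b.repr (f (b j)) m) • (u' j * u' j) +
      ∑ j, ∑ l ∈ Finset.Ioi j, (b.repr ⁅b l, b j⁆ m) • (u' j * u' l) + d' * u' m = 0 := by
    intro m
    apply hι
    have := h.tor m
    unfold hv at this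
    simp only [map_add, map_sum, map_smul, map_mul, hu', hd', map_zero]
    exact this
  have hc := ten_core b hf u' d' tor y
  let μ : O ⊗[k] L →ₗ[k] UL k L :=
    TensorProduct.lift ((LinearMap.mul k (UL k L)).compl₁₂ ι.toLinearMap io)
  have hμ : ∀ (a : O) (x : L), μ (a ⊗ₜ[k] x) = ι a * io x := fun a x => rfl
  have h1 : ∀ v : O ⊗[k] L, μ ⁅(∑ j, u' j ⊗ₜ[k] b j : O ⊗[k] L), v⁆ = d * μ v := by
    intro v
    induction v using TensorProduct.induction_on with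
    | zero => simp
    | tmul a x =>
      have h2 : ⁅(∑ j, u' j ⊗ₜ[k] b j : O ⊗[k] L), a ⊗ₜ[k] x⁆ =
          ∑ j, ((a * u' j) ⊗ₜ[k] ⁅b j, x⁆ : O ⊗[k] L) := by
        simp only [sum_lie, LieAlgebra.ExtendScalars.bracket_tmul, mul_comm]
      rw [h2, map_sum]
      simp only [hμ, map_mul, hu']
      have h3 := h.rel x
      simp only [mul_assoc]
      rw [← Finset.mul_sum, h3, ← mul_assoc, ← mul_assoc, h.cen]
    | add v w hv hw => rw [lie_add, map_add, hv, hw, map_add, mul_add]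
  have h5 := h1 (∑ j, (u' j * u' j) ⊗ₜ[k] f ⁅b j, y⁆ +
      ∑ j, ∑ l ∈ Finset.Ioi j, (u' j * u' l) ⊗ₜ[k] ⁅⁅b l, y⁆, ⁅b j, y⁆⁆)
  rw [hc, map_zero] at h5
  rcases U_zero_or h5.symm with h6 | h6
  · exact absurd h6 h.ne
  · simp only [map_add, map_sum, hμ, map_mul, hu'] at h6
    exact h6

end

end Pool.Agent.SkM
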